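import Mathlib

set_option autoImplicit false

namespace Pool.Agent.Lib.MP_5fb7d4_co

theorem claimA {n κ c0 c1 c3 d0 d1 d3 s0 z0 s t s' t' r2 C3 D3 : ℝ}
    (hs0 : c1 = (κ - c3) * s0) (hz0 : d1 = (κ - d3) * z0) (hN : n * (1 + s0 ^ 2) = 1 + z0 ^ 2)
    (hG : n * (c0 + 2 * c1 * s0 + c3 * s0 ^ 2) = d0 + 2 * d1 * z0 + d3 * z0 ^ 2)
    (hs : n * (1 + s ^ 2) = 1 + s' ^ 2) (ht : n * (1 + t ^ 2) = 1 + t' ^ 2)
    (b1 : (s' - z0) ^ 2 ≤ r2 * (s - s0) ^ 2) (b2 : (t' - z0) ^ 2 ≤ r2 * (t - s0) ^ 2)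
    (hn : 0 ≤ n) (hκ0 : 0 ≤ κ) (hc3 : |c3| ≤ C3) (hd3 : |d3| ≤ D3)
    (hκ : n * C3 + D3 * r2 ≤ κ * (n - r2)) :
    n * (c0 + c1 * (s + t) + c3 * s * t) ≤ d0 + d1 * (s' + t') + d3 * s' * t' := by
  have key : n * (c0 + c1 * (s + t) + c3 * s * t) - (d0 + d1 * (s' + t') + d3 * s' * t') =
      n * (c3 * ((s - s0) * (t - s0))) - d3 * ((s' - z0) * (t' - z0))
        - κ / 2 * (n * ((s - s0) ^ 2 + (t - s0) ^ 2) - ((s' - z0) ^ 2 + (t' - z0) ^ 2)) := by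
    subst hs0 hz0
    linear_combination hG - κ * hN + κ / 2 * hs + κ / 2 * ht
  generalize s - s0 = x at *
  generalize t - s0 = y at *
  generalize s' - z0 = x' at *
  generalize t' - z0 = y' at *
  have hC : 0 ≤ C3 := (abs_nonneg _).trans hc3
  have hD : 0 ≤ D3 := (abs_nonneg _).trans hd3
  have e1 : c3 * (x * y) ≤ C3 * ((x ^ 2 + y ^ 2) / 2) := by
    have h1 : |x * y| ≤ (x ^ 2 + y ^ 2) / 2 := by
      rw [abs_le]; constructor <;> nlinarith [sq_nonneg (x + y), sq_nonneg (x - y)]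
    calc c3 * (x * y) ≤ |c3 * (x * y)| := le_abs_self _
      _ = |c3| * |x * y| := abs_mul _ _
      _ ≤ C3 * ((x ^ 2 + y ^ 2) / 2) := mul_le_mul hc3 h1 (abs_nonneg _) hC
  have e2 : -(d3 * (x' * y')) ≤ D3 * ((x' ^ 2 + y' ^ 2) / 2) := by
    have h1 : |x' * y'| ≤ (x' ^ 2 + y' ^ 2) / 2 := by
      rw [abs_le]; constructor <;> nlinarith [sq_nonneg (x' + y'), sq_nonneg (x' - y')]
    calc -(d3 * (x' * y')) ≤ |d3 * (x' * y')| := neg_le_abs _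
      _ = |d3| * |x' * y'| := abs_mul _ _
      _ ≤ D3 * ((x' ^ 2 + y' ^ 2) / 2) := mul_le_mul hd3 h1 (abs_nonneg _) hD
  have e3 : x' ^ 2 + y' ^ 2 ≤ r2 * (x ^ 2 + y ^ 2) := by linarith
  have e4 := mul_le_mul_of_nonneg_left e1 hn
  have e5 := mul_le_mul_of_nonneg_left e3 hD
  have e6 := mul_le_mul_of_nonneg_left e3 hκ0
  have e7 := mul_le_mul_of_nonneg_right hκ (show 0 ≤ x ^ 2 + y ^ 2 by positivity)
  nlinarith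

theorem rho_bound {n s0 z0 s s' r : ℝ} (hN : n * (1 + s0 ^ 2) = 1 + z0 ^ 2)
    (hs : n * (1 + s ^ 2) = 1 + s' ^ 2) (hp : 0 < s' + z0)
    (h1 : n * (s + s0) ≤ r * (s' + z0)) (h2 : -(r * (s' + z0)) ≤ n * (s + s0)) :
    (s' - z0) ^ 2 ≤ r ^ 2 * (s - s0) ^ 2 := by
  have e1 : (s' - z0) * (s' + z0) = (s - s0) * (n * (s + s0)) := by linear_combination hN - hs
  have e2 : (n * (s + s0)) ^ 2 ≤ (r * (s' + z0)) ^ 2 := sq_le_sq' h2 h1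
  have e3 : (s' - z0) ^ 2 * (s' + z0) ^ 2 ≤ (r ^ 2 * (s - s0) ^ 2) * (s' + z0) ^ 2 := by
    rw [← mul_pow, e1, mul_pow]
    have := mul_le_mul_of_nonneg_left e2 (sq_nonneg (s - s0))
    linarith
  exact le_of_mul_le_mul_right e3 (by positivity)

theorem halfB {a q k z A L γ S Pm Qm Rm p' q' r' : ℝ} (ha : 0 < a) (haA : a ≤ A)
    (hk : |k| ≤ L * a) (hn : (1 - a) ^ 2 + q ^ 2 + k ^ 2 = 1 + z ^ 2) (hq : 0 ≤ q) (hz : 0 < z)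
    (hS : q + z ≤ S) (hγ : γ ≤ 2 - A * (1 + L ^ 2)) (hγ0 : 0 < γ)
    (hp : p' ≤ Pm) (hq' : Qm ≤ q') (hr : |r'| ≤ Rm) (hQ : 0 < Qm)
    (hfin : (Pm + Rm * L) * S < γ * Qm) : 0 < -a * p' + (q - z) * q' + k * r' := by
  have hk2 : k ^ 2 ≤ (L * a) ^ 2 := by
    rw [← sq_abs]; exact pow_le_pow_left₀ (abs_nonneg _) hk 2
  have e1 : a * γ ≤ (q - z) * (q + z) := by
    have h1 : a * (a * (1 + L ^ 2)) ≤ a * (A * (1 + L ^ 2)) := by gcongr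
    have h2 := mul_le_mul_of_nonneg_left hγ ha.le
    nlinarith
  have hqz : 0 < q + z := by linarith
  have e2 : 0 < q - z := by
    by_contra h
    push Not at h
    have := mul_nonpos_of_nonpos_of_nonneg h hqz.le
    have := mul_pos ha hγ0
    linarith
  have hS0 : 0 < S := by linarith
  have e3 : a * γ ≤ (q - z) * S := e1.trans (by gcongr)
  have e4 : -(L * a * Rm) ≤ k * r' := by
    have h1 : |k * r'| ≤ L * a * Rm := by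
      rw [abs_mul]; exact mul_le_mul hk hr (abs_nonneg _) ((abs_nonneg _).trans hk)
    exact (abs_le.1 h1).1
  have e5 : (q - z) * Qm ≤ (q - z) * q' := by gcongr
  have e6 : a * p' ≤ a * Pm := by gcongr
  have e7 : 0 < (-a * Pm + (q - z) * Qm - L * a * Rm) * S := by
    have h1 := mul_le_mul_of_nonneg_right e3 hQ.le
    have h2 := mul_lt_mul_of_pos_left hfin ha
    nlinarith
  have e8 : 0 < -a * Pm + (q - z) * Qm - L * a * Rm := (mul_pos_iff_of_pos_right hS0).1 e7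
  linarith

/-- Reduction of the wedge conditions to the scaled form. -/
theorem wedge {ν c l L p r : ℝ} (hν : 0 < ν) (hc : ν < c) (hl : 1 ≤ l * L) (hL : 0 < L)
    (hp : 0 < p) (h1 : c * (p + l * r) ≤ 1) (h2 : c * (p - l * r) ≤ 1) :
    0 < 1 - ν * p ∧ |ν * r| ≤ L * (1 - ν * p) := by
  have hc0 : 0 < c := hν.trans hc
  have hl0 : 0 < l := by
    by_contra h
    push Not at h
    nlinarith
  have h3 : c * (p + l * |r|) ≤ 1 := by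
    rcases abs_cases r with h | h
    · rw [h.1]; exact h1
    · rw [h.1]; linarith
  have h4 : 0 < p + l * |r| := by positivity
  have h5 : ν * (p + l * |r|) < 1 := lt_of_lt_of_le (mul_lt_mul_of_pos_right hc h4) h3
  have h6 : 0 ≤ ν * |r| := by positivity
  refine ⟨by nlinarith [mul_nonneg hl0.le h6], ?_⟩
  rw [abs_mul, abs_of_pos hν]
  have h7 : l * (ν * |r|) ≤ 1 - ν * p := by linarith
  calc ν * |r| ≤ (l * L) * (ν * |r|) := le_mul_of_one_le_left h6 hl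
    _ = L * (l * (ν * |r|)) := by ring
    _ ≤ L * (1 - ν * p) := by gcongr

theorem qbound {A Q R z Z Qb : ℝ} (h1 : A ≤ 0.05)
    (h : (1 - A) ^ 2 + Q ^ 2 + R ^ 2 = 1 + z ^ 2) (hz : z ^ 2 ≤ Z ^ 2)
    (hQb : Z ^ 2 + 0.0975 ≤ Qb ^ 2) (hQb0 : 0 ≤ Qb) : Q ≤ Qb := by
  refine abs_le_of_sq_le_sq' ?_ hQb0 |>.2
  nlinarith [sq_nonneg R]

theorem abound {ν p : ℝ} (h1 : 1.0108 ≤ ν) (h2 : 0.94 < p) : 1 - ν * p ≤ 0.05 := by nlinarith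

theorem exists_prime {ν : ℝ} (h1 : 1.0108 ≤ ν) (s : ℝ) :
    ∃ s' : ℝ, 0 < s' ∧ ν ^ 2 * (1 + s ^ 2) = 1 + s' ^ 2 := by
  have hν2 : 1 < ν ^ 2 := by nlinarith
  have : 0 < ν ^ 2 * (1 + s ^ 2) - 1 := by nlinarith [sq_nonneg s]
  exact ⟨√(ν ^ 2 * (1 + s ^ 2) - 1), Real.sqrt_pos.2 this, by rw [Real.sq_sqrt this.le]; ring⟩

/-- The local optimality statement, with all constants abstract. -/
theorem localCore {ν κ c0 c1 c3 d0 d1 d3 s0 z0 ρ C3 D3 c l L sm Z Qb γ Pm Qm Rm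
      g13 g23 g31 g32 g33 s t p1 q1 r1 p2 q2 r2 : ℝ}
    (hν1 : 1.0108 ≤ ν)
    (hs0 : c1 = (κ - c3) * s0) (hz0 : d1 = (κ - d3) * z0)
    (hN : ν ^ 2 * (1 + s0 ^ 2) = 1 + z0 ^ 2)
    (hG : ν ^ 2 * (c0 + 2 * c1 * s0 + c3 * s0 ^ 2) = d0 + 2 * d1 * z0 + d3 * z0 ^ 2)
    (hz00 : 0 < z0) (hκ0 : 0 ≤ κ) (hc3 : |c3| ≤ C3) (hd3 : |d3| ≤ D3)
    (hκ : ν ^ 2 * C3 + D3 * ρ ^ 2 ≤ κ * (ν ^ 2 - ρ ^ 2))
    (hρ : ∀ s s' : ℝ, |s| ≤ sm → 0 ≤ s' → ν ^ 2 * (1 + s ^ 2) = 1 + s' ^ 2 →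
      ν ^ 2 * (s + s0) ≤ ρ * (s' + z0) ∧ -(ρ * (s' + z0)) ≤ ν ^ 2 * (s + s0) ∧ s' ≤ Z)
    (hl : 1 ≤ l * L) (hL : 0 < L) (hQb : Z ^ 2 + 0.0975 ≤ Qb ^ 2) (hQb0 : 0 ≤ Qb)
    (hγ : γ ≤ 2 - 0.05 * (1 + L ^ 2)) (hγ0 : 0 < γ) (hQ : 0 < Qm)
    (hfin : (Pm + Rm * L) * (Qb + Z) < γ * Qm)
    (hW1 : ∀ α σ τ : ℝ, 0.975 ≤ α → α ≤ 1 → 0 ≤ σ → σ ≤ (Qb + Z) / 2 → |τ| ≤ L * 0.025 →
      d0 * α + d1 * σ + g13 * τ ≤ Pm ∧ Qm ≤ d1 * α + d3 * σ + g23 * τ ∧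
      |g31 * α + g32 * σ + g33 * τ| ≤ Rm)
    (hW2 : ∀ α σ τ : ℝ, 0.975 ≤ α → α ≤ 1 → 0 ≤ σ → σ ≤ (Qb + Z) / 2 → |τ| ≤ L * 0.025 →
      d0 * α + d1 * σ + g31 * τ ≤ Pm ∧ Qm ≤ d1 * α + d3 * σ + g32 * τ ∧
      |g13 * α + g23 * σ + g33 * τ| ≤ Rm)
    (hc : ν < c)
    (n1 : p1 ^ 2 + q1 ^ 2 + r1 ^ 2 = 1 + s ^ 2) (n2 : p2 ^ 2 + q2 ^ 2 + r2 ^ 2 = 1 + t ^ 2)
    (gram : c0 + c1 * (s + t) + c3 * s * t = d0 * p1 * p2 + d1 * (p1 * q2 + q1 * p2) + d3 * q1 * q2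
      + g13 * p1 * r2 + g23 * q1 * r2 + g31 * r1 * p2 + g32 * r1 * q2 + g33 * r1 * r2)
    (w1 : c * (p1 + l * r1) ≤ 1) (w1' : c * (p1 - l * r1) ≤ 1)
    (w2 : c * (p2 + l * r2) ≤ 1) (w2' : c * (p2 - l * r2) ≤ 1)
    (hp1 : 0.94 < p1) (hp2 : 0.94 < p2) (hq1 : 0 < q1) (hq2 : 0 < q2)
    (hs : |s| ≤ sm) (ht : |t| ≤ sm) : False := by
  have hν0 : 0 < ν := by linarith
  obtain ⟨s', hs'0, hs'⟩ := exists_prime hν1 s
  obtain ⟨t', ht'0, ht'⟩ := exists_prime hν1 t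
  obtain ⟨a1, a2, a3⟩ := hρ s s' hs hs'0.le hs'
  obtain ⟨b1, b2, b3⟩ := hρ t t' ht ht'0.le ht'
  have hA := claimA hs0 hz0 hN hG hs' ht' (rho_bound hN hs' (by linarith) a1 a2)
    (rho_bound hN ht' (by linarith) b1 b2) (by positivity) hκ0 hc3 hd3 hκ
  obtain ⟨u1, u2⟩ := wedge hν0 hc hl hL (by linarith) w1 w1'
  obtain ⟨v1, v2⟩ := wedge hν0 hc hl hL (by linarith) w2 w2'
  have m1 : (1 - (1 - ν * p1)) ^ 2 + (ν * q1) ^ 2 + (ν * r1) ^ 2 = 1 + s' ^ 2 := by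
    linear_combination ν ^ 2 * n1 + hs'
  have m2 : (1 - (1 - ν * p2)) ^ 2 + (ν * q2) ^ 2 + (ν * r2) ^ 2 = 1 + t' ^ 2 := by
    linear_combination ν ^ 2 * n2 + ht'
  have k1 := abound hν1 hp1
  have k2 := abound hν1 hp2
  have gram' : ν ^ 2 * (c0 + c1 * (s + t) + c3 * s * t) =
      d0 * (ν * p1) * (ν * p2) + d1 * ((ν * p1) * (ν * q2) + (ν * q1) * (ν * p2))
      + d3 * (ν * q1) * (ν * q2) + g13 * (ν * p1) * (ν * r2) + g23 * (ν * q1) * (ν * r2)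
      + g31 * (ν * r1) * (ν * p2) + g32 * (ν * r1) * (ν * q2) + g33 * (ν * r1) * (ν * r2) := by
    rw [gram]; ring
  have hq1' : 0 < ν * q1 := by positivity
  have hq2' : 0 < ν * q2 := by positivity
  generalize ν * q1 = Q1 at *
  generalize ν * q2 = Q2 at *
  generalize ν * r1 = R1 at *
  generalize ν * r2 = R2 at *
  obtain ⟨A1, hA1⟩ : ∃ A1, A1 = 1 - ν * p1 := ⟨_, rfl⟩
  obtain ⟨A2, hA2⟩ : ∃ A2, A2 = 1 - ν * p2 := ⟨_, rfl⟩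
  have eP1 : ν * p1 = 1 - A1 := by linarith
  have eP2 : ν * p2 = 1 - A2 := by linarith
  rw [← hA1] at u1 u2 m1 k1
  rw [← hA2] at v1 v2 m2 k2
  rw [eP1, eP2] at gram'
  have z1 : s' ^ 2 ≤ Z ^ 2 := pow_le_pow_left₀ hs'0.le a3 2
  have z2 : t' ^ 2 ≤ Z ^ 2 := pow_le_pow_left₀ ht'0.le b3 2
  have y1 : Q1 ≤ Qb := qbound k1 m1 z1 hQb hQb0
  have y2 : Q2 ≤ Qb := qbound k2 m2 z2 hQb hQb0
  have x1 : |R1 / 2| ≤ L * 0.025 := by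
    have := mul_le_mul_of_nonneg_left k1 hL.le
    rw [abs_div, abs_two]; linarith only [this, u2]
  have x2 : |R2 / 2| ≤ L * 0.025 := by
    have := mul_le_mul_of_nonneg_left k2 hL.le
    rw [abs_div, abs_two]; linarith only [this, v2]
  obtain ⟨f1, f2, f3⟩ := hW1 (1 - A2 / 2) ((Q2 + t') / 2) (R2 / 2) (by linarith) (by linarith)
    (by linarith) (by linarith) x2
  obtain ⟨g1, g2, g3⟩ := hW2 (1 - A1 / 2) ((Q1 + s') / 2) (R1 / 2) (by linarith) (by linarith)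
    (by linarith) (by linarith) x1
  have B1 := halfB u1 k1 u2 m1 hq1'.le hs'0 (S := Qb + Z) (by linarith) hγ hγ0 f1 f2 f3 hQ hfin
  have B2 := halfB v1 k2 v2 m2 hq2'.le ht'0 (S := Qb + Z) (by linarith) hγ hγ0 g1 g2 g3 hQ hfin
  rw [gram'] at hA
  linarith only [hA, B1, B2]

end Pool.Agent.Lib.MP_5fb7d4_co
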