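import Mathlib
import Pool.Agent.Lib.MP_5fb7d4_co.Local

-- part Pool.Agent.Lib.MP_5fb7d4_co.Geo
section

set_option autoImplicit false

namespace Pool.Agent.Lib.MP_5fb7d4_co

open Matrix

abbrev V3 := Fin 3 → ℝ
abbrev M3 := Matrix (Fin 3) (Fin 3) ℝ

/-- The set of scale factors of passages. -/
def Pass (V : Set V3) : Set ℝ :=
  {c : ℝ | 0 < c ∧
        ∃ A ∈ Matrix.specialOrthogonalGroup (Fin 3) ℝ,
        ∃ B ∈ Matrix.specialOrthogonalGroup (Fin 3) ℝ,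
        ∃ w : Fin 2 → ℝ,
          (fun x : Fin 3 → ℝ => c • ![(A.mulVec x) 0, (A.mulVec x) 1] + w) '' convexHull ℝ V ⊆
            interior ((fun x : Fin 3 → ℝ => ![(B.mulVec x) 0, (B.mulVec x) 1]) '' convexHull ℝ V)}

/-- Support function form of the containment. -/
def Cond (V : Set V3) (c : ℝ) (u : V3) (Q : M3) : Prop :=
  ∀ w : V3, w ⬝ᵥ u = 0 → ∀ h : ℝ, (∀ v ∈ V, w ⬝ᵥ v ≤ h) → ∀ v ∈ V, c * ((Q *ᵥ w) ⬝ᵥ v) ≤ h

theorem dot_mulVec_tr (g : M3) (a b : V3) : (gᵀ *ᵥ a) ⬝ᵥ b = a ⬝ᵥ (g *ᵥ b) := by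
  rw [Matrix.dotProduct_mulVec, Matrix.mulVec_transpose]

theorem dot_orth {g : M3} (hg : gᵀ * g = 1) (a b : V3) : (g *ᵥ a) ⬝ᵥ (g *ᵥ b) = a ⬝ᵥ b := by
  rw [← dot_mulVec_tr, Matrix.mulVec_mulVec, hg, Matrix.one_mulVec]

theorem orth_of_mem {A : M3} (hA : A ∈ Matrix.specialOrthogonalGroup (Fin 3) ℝ) : Aᵀ * A = 1 := by
  rw [Matrix.mem_specialOrthogonalGroup_iff, Matrix.mem_orthogonalGroup_iff'] at hA
  exact hA.1

theorem orth_comm {g : M3} (hg : gᵀ * g = 1) : g * gᵀ = 1 := mul_eq_one_comm.1 hg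

theorem cond_of_pass {V : Set V3} (hneg : ∀ v ∈ V, -v ∈ V) {c : ℝ} (hc : c ∈ Pass V) :
    ∃ (u : V3) (Q : M3), u ≠ 0 ∧ Qᵀ * Q = 1 ∧ Cond V c u Q := by
  obtain ⟨-, A, hA, B, hB, t, hsub⟩ := hc
  have hA' := orth_of_mem hA
  have hB' := orth_of_mem hB
  refine ⟨B 2, Aᵀ * B, ?_, ?_, ?_⟩
  · intro h0
    have h1 := congrFun (congrFun (orth_comm hB') 2) 2
    rw [Matrix.mul_apply] at h1
    simp [h0] at h1
  · rw [Matrix.transpose_mul, Matrix.transpose_transpose, Matrix.mul_assoc, ← Matrix.mul_assoc A,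
      orth_comm hA', Matrix.one_mul, hB']
  · intro w hw h hh v hv
    have key : ∀ w : V3, (B *ᵥ w) 2 = 0 → (∀ v ∈ V, w ⬝ᵥ v ≤ h) → ∀ v ∈ V,
        (B *ᵥ w) 0 * (c * (A *ᵥ v) 0 + t 0) + (B *ᵥ w) 1 * (c * (A *ᵥ v) 1 + t 1) ≤ h := by
      intro w hn hh v hv
      have hK : ∀ k ∈ convexHull ℝ V, w ⬝ᵥ k ≤ h := by
        intro k hk
        have hconv : Convex ℝ {k : V3 | w ⬝ᵥ k ≤ h} :=
          convex_halfSpace_le ⟨fun a b => dotProduct_add w a b, fun r a => dotProduct_smul r w a⟩ h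
        exact convexHull_min hh hconv hk
      obtain ⟨k, hk, hk2⟩ := interior_subset (hsub ⟨v, subset_convexHull ℝ V hv, rfl⟩)
      have e0 := congrFun hk2 0
      have e1 := congrFun hk2 1
      simp only [Matrix.cons_val_zero, Matrix.cons_val_one, Pi.add_apply, Pi.smul_apply,
        smul_eq_mul] at e0 e1
      have h2 := hK k hk
      rw [← dot_orth hB', dotProduct, Fin.sum_univ_three, hn, e0, e1] at h2
      linarith
    have hn : (B *ᵥ w) 2 = 0 := by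
      rw [← hw, dotProduct_comm]; rfl
    have k1 := key w hn hh v hv
    have k2 := key (-w) (by rw [Matrix.mulVec_neg, Pi.neg_apply, hn, neg_zero])
      (fun v hv => by rw [neg_dotProduct, ← dotProduct_neg]; exact hh _ (hneg v hv)) (-v) (hneg v hv)
    rw [Matrix.mulVec_neg, Matrix.mulVec_neg] at k2
    simp only [Pi.neg_apply] at k2
    rw [← Matrix.mulVec_mulVec, dot_mulVec_tr, dotProduct, Fin.sum_univ_three, hn]
    linarith

/-- Symmetries of the vertex set. -/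
def Sym (V : Set V3) (g : M3) : Prop :=
  gᵀ * g = 1 ∧ (∀ v ∈ V, g *ᵥ v ∈ V) ∧ (∀ v ∈ V, gᵀ *ᵥ v ∈ V)

theorem Sym.one (V : Set V3) : Sym V 1 := by
  refine ⟨by simp, fun v hv => by simpa using hv, fun v hv => by simpa using hv⟩

theorem Sym.mul {V : Set V3} {g g' : M3} (h : Sym V g) (h' : Sym V g') : Sym V (g * g') := by
  refine ⟨?_, fun v hv => ?_, fun v hv => ?_⟩
  · rw [Matrix.transpose_mul, Matrix.mul_assoc, ← Matrix.mul_assoc gᵀ, h.1, Matrix.one_mul, h'.1]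
  · rw [← Matrix.mulVec_mulVec]; exact h.2.1 _ (h'.2.1 v hv)
  · rw [Matrix.transpose_mul, ← Matrix.mulVec_mulVec]; exact h'.2.2 _ (h.2.2 v hv)

theorem Cond.right {V : Set V3} {c : ℝ} {u : V3} {Q g : M3} (h : Cond V c u Q) (hg : Sym V g) :
    Cond V c (g *ᵥ u) (Q * gᵀ) := by
  intro w hw H hH v hv
  rw [← Matrix.mulVec_mulVec]
  refine h (gᵀ *ᵥ w) (by rw [dot_mulVec_tr, hw]) H (fun v' hv' => ?_) v hv
  rw [dot_mulVec_tr]
  exact hH _ (hg.2.1 v' hv')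

theorem Cond.left {V : Set V3} {c : ℝ} {u : V3} {Q g : M3} (h : Cond V c u Q) (hg : Sym V g) :
    Cond V c u (g * Q) := by
  intro w hw H hH v hv
  have := h w hw H hH (gᵀ *ᵥ v) (hg.2.2 v hv)
  rw [← Matrix.mulVec_mulVec, dotProduct_comm, ← dot_mulVec_tr, dotProduct_comm]
  exact this

theorem sym_finite {V : Set V3} (hfin : V.Finite)
    (hb : ∀ j : Fin 3, ∃ a ∈ V, ∃ b ∈ V, a + b = Pi.single j (2 : ℝ)) :
    {g : M3 | Sym V g}.Finite := by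
  let F : Set V3 := (fun p : V3 × V3 => (1 / 2 : ℝ) • (p.1 + p.2)) '' (V ×ˢ V)
  have hF : F.Finite := (hfin.prod hfin).image _
  have h1 : {f : Fin 3 → V3 | ∀ j, f j ∈ F}.Finite := Set.Finite.pi' fun _ => hF
  have h2 : ((fun g : M3 => (fun j i => g i j : Fin 3 → V3)) ⁻¹'
      {f : Fin 3 → V3 | ∀ j, f j ∈ F}).Finite := by
    refine h1.preimage ?_
    intro g _ g' _ hgg
    ext i j
    exact congrFun (congrFun hgg j) i
  refine h2.subset fun g hg j => ?_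
  obtain ⟨a, ha, b, hb', hab⟩ := hb j
  refine ⟨(g *ᵥ a, g *ᵥ b), ⟨hg.2.1 a ha, hg.2.1 b hb'⟩, ?_⟩
  ext i
  simp only [← Matrix.mulVec_add, hab, Matrix.mulVec_single, Pi.smul_apply, smul_eq_mul]
  simp [Matrix.col]
  ring

/-- Reflection in the plane orthogonal to a vector of length 2. -/
noncomputable def rf (ρ : V3) : M3 :=
  !![1 - ρ 0 * ρ 0 / 2, - (ρ 0 * ρ 1 / 2), - (ρ 0 * ρ 2 / 2);
     - (ρ 1 * ρ 0 / 2), 1 - ρ 1 * ρ 1 / 2, - (ρ 1 * ρ 2 / 2);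
     - (ρ 2 * ρ 0 / 2), - (ρ 2 * ρ 1 / 2), 1 - ρ 2 * ρ 2 / 2]

def Mirror (V : Set V3) (ρ : V3) : Prop := ρ ⬝ᵥ ρ = 4 ∧ ∀ v ∈ V, rf ρ *ᵥ v ∈ V

theorem rf_mulVec (ρ v : V3) : rf ρ *ᵥ v = v - ((ρ ⬝ᵥ v) / 2) • ρ := by
  ext i
  fin_cases i <;> simp [rf, Matrix.mulVec, dotProduct, Fin.sum_univ_three] <;> ring

theorem rf_transpose (ρ : V3) : (rf ρ)ᵀ = rf ρ := by
  ext i j
  fin_cases i <;> fin_cases j <;> simp [rf] <;> ring

theorem rf_det {ρ : V3} (h : ρ ⬝ᵥ ρ = 4) : (rf ρ).det = -1 := by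
  rw [dotProduct, Fin.sum_univ_three] at h
  rw [Matrix.det_fin_three]
  simp [rf]
  linear_combination (-1 / 2 : ℝ) * h

theorem Mirror.sym {V : Set V3} {ρ : V3} (h : Mirror V ρ) : Sym V (rf ρ) := by
  refine ⟨?_, h.2, by rw [rf_transpose]; exact h.2⟩
  have h1 := h.1
  rw [dotProduct, Fin.sum_univ_three] at h1
  rw [rf_transpose]
  ext i j
  fin_cases i <;> fin_cases j <;> simp [rf, Matrix.mul_apply, Fin.sum_univ_three] <;> grind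

/-- Unnormalised Cayley parametrisation of rotations. -/
noncomputable def Rot (x : V3) : M3 :=
  !![1 + x 0 ^ 2 - x 1 ^ 2 - x 2 ^ 2, 2 * (x 0 * x 1 - x 2), 2 * (x 0 * x 2 + x 1);
     2 * (x 0 * x 1 + x 2), 1 - x 0 ^ 2 + x 1 ^ 2 - x 2 ^ 2, 2 * (x 1 * x 2 - x 0);
     2 * (x 0 * x 2 - x 1), 2 * (x 1 * x 2 + x 0), 1 - x 0 ^ 2 - x 1 ^ 2 + x 2 ^ 2]

noncomputable def nq (x : V3) : ℝ := 1 + x 0 ^ 2 + x 1 ^ 2 + x 2 ^ 2

theorem nq_pos (x : V3) : 0 < nq x := by unfold nq; positivity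

theorem cayley {Q : M3} (hQ : Qᵀ * Q = 1) (hd : Q.det = 1) (ht : 0 ≤ Q.trace) :
    ∃ x : V3, nq x • Q = Rot x := by
  have hadj : Q.adjugate = Qᵀ := by
    have h1 : Q * Q.adjugate = 1 := by rw [Matrix.mul_adjugate, hd, one_smul]
    calc Q.adjugate = (Qᵀ * Q) * Q.adjugate := by rw [hQ, Matrix.one_mul]
      _ = Qᵀ := by rw [Matrix.mul_assoc, h1, Matrix.mul_one]
  have hQ' := orth_comm hQ
  rw [Matrix.adjugate_fin_three] at hadj
  rw [Matrix.trace_fin_three] at ht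
  have c := fun i j => congrFun (congrFun hQ i) j
  have r := fun i j => congrFun (congrFun hQ' i) j
  have a := fun i j => congrFun (congrFun hadj i) j
  have c00 := c 0 0; have c11 := c 1 1; have c22 := c 2 2
  have c01 := c 0 1; have c02 := c 0 2; have c12 := c 1 2
  have r00 := r 0 0; have r11 := r 1 1; have r22 := r 2 2
  have r01 := r 0 1; have r02 := r 0 2; have r12 := r 1 2
  have a00 := a 0 0; have a01 := a 0 1; have a02 := a 0 2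
  have a10 := a 1 0; have a11 := a 1 1; have a12 := a 1 2
  have a20 := a 2 0; have a21 := a 2 1; have a22 := a 2 2
  simp [Matrix.mul_apply, Fin.sum_univ_three] at c00 c11 c22 c01 c02 c12 r00 r11 r22 r01 r02 r12
  simp at a00 a01 a02 a10 a11 a12 a20 a21 a22
  clear c r a hadj hQ hQ' hd
  obtain ⟨t, htd⟩ : ∃ t, t = 1 + Q 0 0 + Q 1 1 + Q 2 2 := ⟨_, rfl⟩
  have htp : 0 < t := by linarith
  have ht0 : t ≠ 0 := htp.ne'
  refine ⟨![(Q 2 1 - Q 1 2) / t, (Q 0 2 - Q 2 0) / t, (Q 1 0 - Q 0 1) / t], ?_⟩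
  have e0 : (Q 2 1 - Q 1 2) ^ 2 = t * (1 + Q 0 0 - Q 1 1 - Q 2 2) := by rw [htd]; linarith
  have e1 : (Q 0 2 - Q 2 0) ^ 2 = t * (1 - Q 0 0 + Q 1 1 - Q 2 2) := by rw [htd]; linarith
  have e2 : (Q 1 0 - Q 0 1) ^ 2 = t * (1 - Q 0 0 - Q 1 1 + Q 2 2) := by rw [htd]; linarith
  have e01 : (Q 2 1 - Q 1 2) * (Q 0 2 - Q 2 0) = t * (Q 0 1 + Q 1 0) := by rw [htd]; linarith
  have e02 : (Q 2 1 - Q 1 2) * (Q 1 0 - Q 0 1) = t * (Q 0 2 + Q 2 0) := by rw [htd]; linarith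
  have e12 : (Q 0 2 - Q 2 0) * (Q 1 0 - Q 0 1) = t * (Q 1 2 + Q 2 1) := by rw [htd]; linarith
  have f0 : ((Q 2 1 - Q 1 2) / t) ^ 2 = (1 + Q 0 0 - Q 1 1 - Q 2 2) / t := by
    rw [div_pow, e0]; field_simp
  have f1 : ((Q 0 2 - Q 2 0) / t) ^ 2 = (1 - Q 0 0 + Q 1 1 - Q 2 2) / t := by
    rw [div_pow, e1]; field_simp
  have f2 : ((Q 1 0 - Q 0 1) / t) ^ 2 = (1 - Q 0 0 - Q 1 1 + Q 2 2) / t := by
    rw [div_pow, e2]; field_simp
  have f01 : ((Q 2 1 - Q 1 2) / t) * ((Q 0 2 - Q 2 0) / t) = (Q 0 1 + Q 1 0) / t := by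
    rw [div_mul_div_comm, e01]; field_simp
  have f02 : ((Q 2 1 - Q 1 2) / t) * ((Q 1 0 - Q 0 1) / t) = (Q 0 2 + Q 2 0) / t := by
    rw [div_mul_div_comm, e02]; field_simp
  have f12 : ((Q 0 2 - Q 2 0) / t) * ((Q 1 0 - Q 0 1) / t) = (Q 1 2 + Q 2 1) / t := by
    rw [div_mul_div_comm, e12]; field_simp
  ext i j
  fin_cases i <;> fin_cases j <;>
    simp only [nq, Rot, Matrix.smul_apply, smul_eq_mul, Matrix.of_apply, Matrix.cons_val',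
      Matrix.cons_val_zero, Matrix.cons_val_one, Matrix.cons_val_two, Matrix.cons_val_fin_one,
      Matrix.head_cons, Matrix.tail_cons, Matrix.head_fin_const, Fin.zero_eta, Fin.mk_one,
      Fin.reduceFinMk, Matrix.empty_val', f0, f1, f2, f01, f02, f12] <;>
    field_simp <;> rw [htd] <;> ring

theorem trace_rf_rf_Rot (ρ σ x : V3) (hρ : ρ ⬝ᵥ ρ = 4) (hσ : σ ⬝ᵥ σ = 4) :
    (rf ρ * rf σ * Rot x).trace = (ρ ⬝ᵥ σ + (ρ ⨯₃ σ) ⬝ᵥ x) ^ 2 / 4 - nq x := by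
  rw [dotProduct, Fin.sum_univ_three] at hρ hσ
  simp [Matrix.trace_fin_three, Fin.sum_univ_three, rf, Rot, nq, dotProduct, cross_apply]
  linear_combination (-1 / 2 - (x 0 ^ 2 + x 1 ^ 2 + x 2 ^ 2) / 2
      + (x 0 * σ 0 + x 1 * σ 1 + x 2 * σ 2) ^ 2 / 4
      - (σ 0 * σ 0 + σ 1 * σ 1 + σ 2 * σ 2 - 4) * (x 0 ^ 2 + x 1 ^ 2 + x 2 ^ 2) / 4) * hρ
    + (-1 / 2 - (x 0 ^ 2 + x 1 ^ 2 + x 2 ^ 2) / 2
      + (x 0 * ρ 0 + x 1 * ρ 1 + x 2 * ρ 2) ^ 2 / 4) * hσ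

theorem trace_Rot (x : V3) : (Rot x).trace = 4 - nq x := by
  simp [Matrix.trace_fin_three, Rot, nq]
  ring

/-- Polynomial form of the support function condition. -/
def CondX (V : Set V3) (c : ℝ) (u x : V3) : Prop :=
  ∀ w : V3, w ⬝ᵥ u = 0 → ∀ h : ℝ, (∀ v ∈ V, w ⬝ᵥ v ≤ h) →
    ∀ v ∈ V, c * ((Rot x *ᵥ w) ⬝ᵥ v) ≤ h * nq x

/-- Dirichlet domain inequalities. -/
def Dir (V : Set V3) (x : V3) : Prop :=
  ∀ ρ σ : V3, Mirror V ρ → Mirror V σ → ρ ⬝ᵥ σ + (ρ ⨯₃ σ) ⬝ᵥ x ≤ 4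

theorem reduce {V : Set V3} (hfin : V.Finite) (hneg : ∀ v ∈ V, -v ∈ V)
    (hb : ∀ j : Fin 3, ∃ a ∈ V, ∃ b ∈ V, a + b = Pi.single j (2 : ℝ))
    (m0 : Mirror V ![2, 0, 0]) (m1 : Mirror V ![0, 2, 0]) (m2 : Mirror V ![0, 0, 2])
    (p : V3) {c : ℝ} (hc : c ∈ Pass V) :
    ∃ u x : V3, u ≠ 0 ∧ (∀ ρ, Mirror V ρ → 0 < ρ ⬝ᵥ p → 0 ≤ ρ ⬝ᵥ u) ∧ CondX V c u x ∧ Dir V x := by
  obtain ⟨u0, Q0, hu0, hQ0, hC0⟩ := cond_of_pass hneg hc
  have hG := sym_finite hfin hb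
  obtain ⟨g, hg, hgmax⟩ := Set.exists_max_image _ (fun g : M3 => (g *ᵥ u0) ⬝ᵥ p) hG ⟨1, Sym.one V⟩
  have hg : Sym V g := hg
  have hC1 := hC0.right hg
  have hQ1 : (Q0 * gᵀ)ᵀ * (Q0 * gᵀ) = 1 := by
    rw [Matrix.transpose_mul, Matrix.transpose_transpose, Matrix.mul_assoc, ← Matrix.mul_assoc Q0ᵀ,
      hQ0, Matrix.one_mul, orth_comm hg.1]
  generalize Q0 * gᵀ = Q1 at hC1 hQ1
  have hdet : Q1.det = 1 ∨ Q1.det = -1 := by
    have := congrArg Matrix.det hQ1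
    rw [Matrix.det_mul, Matrix.det_transpose, Matrix.det_one] at this
    exact mul_self_eq_one_iff.1 this
  have hG' : {g' : M3 | Sym V g' ∧ (g' * Q1).det = 1}.Finite := hG.subset fun g' h => h.1
  have hne : {g' : M3 | Sym V g' ∧ (g' * Q1).det = 1}.Nonempty := by
    rcases hdet with h | h
    · exact ⟨1, Sym.one V, by rw [Matrix.one_mul, h]⟩
    · exact ⟨rf ![2, 0, 0], m0.sym, by rw [Matrix.det_mul, rf_det m0.1, h]; norm_num⟩
  obtain ⟨g', ⟨hg', hd'⟩, hmax⟩ := Set.exists_max_image _ (fun g' : M3 => (g' * Q1).trace) hG' hne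
  have hC2 := hC1.left hg'
  have hQ2 : (g' * Q1)ᵀ * (g' * Q1) = 1 := by
    rw [Matrix.transpose_mul, Matrix.mul_assoc, ← Matrix.mul_assoc g'ᵀ, hg'.1, Matrix.one_mul, hQ1]
  have hD : ∀ ρ σ : V3, Mirror V ρ → Mirror V σ →
      (rf ρ * rf σ * (g' * Q1)).trace ≤ (g' * Q1).trace := by
    intro ρ σ hρ hσ
    have := hmax (rf ρ * rf σ * g') ⟨(hρ.sym.mul hσ.sym).mul hg', by
      rw [Matrix.mul_assoc, Matrix.det_mul, Matrix.det_mul, rf_det hρ.1, rf_det hσ.1, hd']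
      norm_num⟩
    simpa only [Matrix.mul_assoc] using this
  generalize g' * Q1 = Q at hC2 hQ2 hD hd'
  have htr : 0 ≤ Q.trace := by
    have t01 := hD _ _ m0 m1
    have t02 := hD _ _ m0 m2
    have t12 := hD _ _ m1 m2
    simp [Matrix.trace_fin_three, rf, Matrix.vecMul, dotProduct, Fin.sum_univ_three] at t01 t02 t12
    rw [Matrix.trace_fin_three]
    linarith
  obtain ⟨x, hx⟩ := cayley hQ2 hd' htr
  have hn := nq_pos x
  refine ⟨g *ᵥ u0, x, ?_, ?_, ?_, ?_⟩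
  · intro h0
    apply hu0
    have : (gᵀ * g) *ᵥ u0 = 0 := by rw [← Matrix.mulVec_mulVec, h0, Matrix.mulVec_zero]
    rwa [hg.1, Matrix.one_mulVec] at this
  · intro ρ hρ hp
    have h1 := hgmax (rf ρ * g) (hρ.sym.mul hg)
    rw [← Matrix.mulVec_mulVec, rf_mulVec, sub_dotProduct, smul_dotProduct, smul_eq_mul] at h1
    by_contra hlt
    push Not at hlt
    nlinarith [mul_pos (neg_pos.2 hlt) hp]
  · intro w hw h hh v hv
    have := hC2 w hw h hh v hv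
    rw [← hx, Matrix.smul_mulVec, smul_dotProduct, smul_eq_mul]
    nlinarith
  · intro ρ σ hρ hσ
    have h1 := hD ρ σ hρ hσ
    have h2 := trace_rf_rf_Rot ρ σ x hρ.1 hσ.1
    have h3 := trace_Rot x
    rw [← hx] at h2 h3
    rw [Matrix.mul_smul, Matrix.trace_smul, smul_eq_mul] at h2
    rw [Matrix.trace_smul, smul_eq_mul] at h3
    have h4 : (ρ ⬝ᵥ σ + (ρ ⨯₃ σ) ⬝ᵥ x) ^ 2 ≤ 4 ^ 2 := by nlinarith
    exact (abs_le_of_sq_le_sq' h4 (by norm_num)).2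

theorem Dir.box {V : Set V3} {x : V3} (h : Dir V x)
    (m0 : Mirror V ![2, 0, 0]) (m1 : Mirror V ![0, 2, 0]) (m2 : Mirror V ![0, 0, 2]) :
    (-1 ≤ x 0 ∧ x 0 ≤ 1) ∧ (-1 ≤ x 1 ∧ x 1 ≤ 1) ∧ (-1 ≤ x 2 ∧ x 2 ≤ 1) := by
  have a01 := h _ _ m0 m1
  have a10 := h _ _ m1 m0
  have a02 := h _ _ m0 m2
  have a20 := h _ _ m2 m0
  have a12 := h _ _ m1 m2
  have a21 := h _ _ m2 m1
  simp [cross_apply, dotProduct, Fin.sum_univ_three] at a01 a10 a02 a20 a12 a21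
  refine ⟨⟨?_, ?_⟩, ⟨?_, ?_⟩, ⟨?_, ?_⟩⟩ <;> linarith

end Pool.Agent.Lib.MP_5fb7d4_co
end

-- part Pool.Agent.Lib.MP_5fb7d4_co.BB
section

set_option autoImplicit false

namespace Pool.Agent.Lib.MP_5fb7d4_co

/-- Integer coefficients of a quadratic polynomial in three variables. -/
structure Q10 where
  c0 : Int
  c1 : Int
  c2 : Int
  c3 : Int
  c11 : Int
  c22 : Int
  c33 : Int
  c12 : Int
  c13 : Int
  c23 : Int
deriving DecidableEq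

def Q10.ev (q : Q10) (y1 y2 y3 : ℝ) : ℝ :=
  q.c0 + 2 * q.c1 * y1 + 2 * q.c2 * y2 + 2 * q.c3 * y3 + q.c11 * y1 ^ 2 + q.c22 * y2 ^ 2
    + q.c33 * y3 ^ 2 + 4 * q.c12 * y1 * y2 + 4 * q.c13 * y1 * y3 + 4 * q.c23 * y2 * y3

def Q10.zero : Q10 := ⟨0, 0, 0, 0, 0, 0, 0, 0, 0, 0⟩

def Q10.axpy (m : Int) (p q : Q10) : Q10 :=
  ⟨m * p.c0 + q.c0, m * p.c1 + q.c1, m * p.c2 + q.c2, m * p.c3 + q.c3, m * p.c11 + q.c11,
   m * p.c22 + q.c22, m * p.c33 + q.c33, m * p.c12 + q.c12, m * p.c13 + q.c13, m * p.c23 + q.c23⟩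

theorem Q10.ev_zero (y1 y2 y3 : ℝ) : Q10.zero.ev y1 y2 y3 = 0 := by simp [Q10.ev, Q10.zero]

theorem Q10.ev_axpy (m : Int) (p q : Q10) (y1 y2 y3 : ℝ) :
    (Q10.axpy m p q).ev y1 y2 y3 = m * p.ev y1 y2 y3 + q.ev y1 y2 y3 := by
  simp only [Q10.ev, Q10.axpy]; push_cast; ring

theorem bern_real {A B C lo hi y : ℝ} (h1 : lo ≤ y) (h2 : y ≤ hi)
    (p1 : 0 < A + B * (lo + lo) + C * (lo * lo)) (p2 : 0 < A + B * (lo + hi) + C * (lo * hi))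
    (p3 : 0 < A + B * (hi + hi) + C * (hi * hi)) : 0 < A + 2 * B * y + C * y ^ 2 := by
  rcases eq_or_lt_of_le (h1.trans h2) with h | h
  · have : y = lo := le_antisymm (h ▸ h2) h1
    subst this
    linarith
  · have key : (hi - lo) ^ 2 * (A + 2 * B * y + C * y ^ 2) =
        (A + B * (lo + lo) + C * (lo * lo)) * (hi - y) ^ 2
        + 2 * (A + B * (lo + hi) + C * (lo * hi)) * ((hi - y) * (y - lo))
        + (A + B * (hi + hi) + C * (hi * hi)) * (y - lo) ^ 2 := by ring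
    have h3 : 0 ≤ hi - y := by linarith
    have h4 : 0 ≤ y - lo := by linarith
    have h5 : 0 < (hi - lo) ^ 2 * (A + 2 * B * y + C * y ^ 2) := by
      rw [key]
      rcases eq_or_lt_of_le h3 with h6 | h6
      · have : 0 < y - lo := by linarith
        positivity
      · positivity
    exact pos_of_mul_pos_of_pos_left' h5 (by positivity)
where pos_of_mul_pos_of_pos_left' {a b : ℝ} (h : 0 < a * b) (ha : 0 ≤ a) : 0 < b := by
        by_contra hb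
        push Not at hb
        nlinarith

def b1 (a0 a1 a11 lo hi : Int) : Bool :=
  decide (0 < a0 + a1 * (lo + lo) + a11 * (lo * lo)) &&
  decide (0 < a0 + a1 * (lo + hi) + a11 * (lo * hi)) &&
  decide (0 < a0 + a1 * (hi + hi) + a11 * (hi * hi))

theorem b1_sound {a0 a1 a11 lo hi : Int} (h : b1 a0 a1 a11 lo hi = true) {y : ℝ}
    (h1 : (lo : ℝ) ≤ y) (h2 : y ≤ hi) : (0 : ℝ) < a0 + 2 * a1 * y + a11 * y ^ 2 := by
  simp only [b1, Bool.and_eq_true, decide_eq_true_eq] at h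
  obtain ⟨⟨p1, p2⟩, p3⟩ := h
  refine bern_real h1 h2 ?_ ?_ ?_
  · exact_mod_cast p1
  · exact_mod_cast p2
  · exact_mod_cast p3

def b2 (a0 a2 a3 a22 a33 a23 lo hi l3 h3 : Int) : Bool :=
  b1 (a0 + a2 * (lo + lo) + a22 * (lo * lo)) (a3 + a23 * (lo + lo)) a33 l3 h3 &&
  b1 (a0 + a2 * (lo + hi) + a22 * (lo * hi)) (a3 + a23 * (lo + hi)) a33 l3 h3 &&
  b1 (a0 + a2 * (hi + hi) + a22 * (hi * hi)) (a3 + a23 * (hi + hi)) a33 l3 h3

theorem b2_sound {a0 a2 a3 a22 a33 a23 lo hi l3 h3 : Int}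
    (h : b2 a0 a2 a3 a22 a33 a23 lo hi l3 h3 = true) {y z : ℝ}
    (h1 : (lo : ℝ) ≤ y) (h2 : y ≤ hi) (g1 : (l3 : ℝ) ≤ z) (g2 : z ≤ h3) :
    (0 : ℝ) < a0 + 2 * a2 * y + 2 * a3 * z + a22 * y ^ 2 + a33 * z ^ 2 + 4 * a23 * y * z := by
  simp only [b2, Bool.and_eq_true] at h
  obtain ⟨⟨p1, p2⟩, p3⟩ := h
  have q1 := b1_sound p1 g1 g2
  have q2 := b1_sound p2 g1 g2
  have q3 := b1_sound p3 g1 g2
  push_cast at q1 q2 q3
  have := bern_real (A := a0 + 2 * a3 * z + a33 * z ^ 2) (B := a2 + 2 * a23 * z) (C := a22) h1 h2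
    (by linarith) (by linarith) (by linarith)
  linarith

structure Box where
  l1 : Int
  h1 : Int
  l2 : Int
  h2 : Int
  l3 : Int
  h3 : Int

def Box.In (B : Box) (y1 y2 y3 : ℝ) : Prop :=
  ((B.l1 : ℝ) ≤ y1 ∧ y1 ≤ B.h1) ∧ ((B.l2 : ℝ) ≤ y2 ∧ y2 ≤ B.h2) ∧ ((B.l3 : ℝ) ≤ y3 ∧ y3 ≤ B.h3)

def b3s (q : Q10) (s p : Int) (B : Box) : Bool :=
  b2 (q.c0 + q.c1 * s + q.c11 * p) (q.c2 + q.c12 * s) (q.c3 + q.c13 * s) q.c22 q.c33 q.c23
    B.l2 B.h2 B.l3 B.h3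

def b3 (q : Q10) (B : Box) : Bool :=
  b3s q (B.l1 + B.l1) (B.l1 * B.l1) B && b3s q (B.l1 + B.h1) (B.l1 * B.h1) B &&
  b3s q (B.h1 + B.h1) (B.h1 * B.h1) B

theorem b3_sound {q : Q10} {B : Box} (h : b3 q B = true) {y1 y2 y3 : ℝ} (hy : B.In y1 y2 y3) :
    0 < q.ev y1 y2 y3 := by
  simp only [b3, b3s, Bool.and_eq_true] at h
  obtain ⟨⟨p1, p2⟩, p3⟩ := h
  obtain ⟨⟨h1, h2⟩, ⟨g1, g2⟩, ⟨f1, f2⟩⟩ := hy
  have q1 := b2_sound p1 g1 g2 f1 f2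
  have q2 := b2_sound p2 g1 g2 f1 f2
  have q3 := b2_sound p3 g1 g2 f1 f2
  push_cast at q1 q2 q3
  have := bern_real
    (A := q.c0 + 2 * q.c2 * y2 + 2 * q.c3 * y3 + q.c22 * y2 ^ 2 + q.c33 * y3 ^ 2 + 4 * q.c23 * y2 * y3)
    (B := q.c1 + 2 * q.c12 * y2 + 2 * q.c13 * y3) (C := q.c11) h1 h2
    (by linarith) (by linarith) (by linarith)
  unfold Q10.ev
  linarith

/-- One quadratic polynomial for each vertex of the base triangle. -/
structure A3 where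
  p : Q10
  q : Q10
  r : Q10
deriving DecidableEq

def A3.ev (A : A3) (b1 b2 b3 y1 y2 y3 : ℝ) : ℝ :=
  b1 * A.p.ev y1 y2 y3 + b2 * A.q.ev y1 y2 y3 + b3 * A.r.ev y1 y2 y3

def A3.zero : A3 := ⟨Q10.zero, Q10.zero, Q10.zero⟩

def A3.axpy (m : Int) (A C : A3) : A3 :=
  ⟨Q10.axpy m A.p C.p, Q10.axpy m A.q C.q, Q10.axpy m A.r C.r⟩

def A3.at (A : A3) (s t u : Int) : Q10 :=
  Q10.axpy s A.p (Q10.axpy t A.q (Q10.axpy u A.r Q10.zero))

structure Tri where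
  a1 : Int
  a2 : Int
  a3 : Int
  b1 : Int
  b2 : Int
  b3 : Int
  c1 : Int
  c2 : Int
  c3 : Int

def Tri.In (P : Tri) (x1 x2 x3 : ℝ) : Prop :=
  ∃ r s t : ℝ, 0 ≤ r ∧ 0 ≤ s ∧ 0 ≤ t ∧ 0 < r + s + t ∧
    x1 = r * P.a1 + s * P.b1 + t * P.c1 ∧ x2 = r * P.a2 + s * P.b2 + t * P.c2 ∧
    x3 = r * P.a3 + s * P.b3 + t * P.c3

def posOn (A : A3) (P : Tri) (B : Box) : Bool :=
  b3 (A.at P.a1 P.a2 P.a3) B && b3 (A.at P.b1 P.b2 P.b3) B && b3 (A.at P.c1 P.c2 P.c3) B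

theorem posOn_sound {A : A3} {P : Tri} {B : Box} (h : posOn A P B = true)
    {x1 x2 x3 y1 y2 y3 : ℝ} (hx : P.In x1 x2 x3) (hy : B.In y1 y2 y3) :
    0 < A.ev x1 x2 x3 y1 y2 y3 := by
  simp only [posOn, Bool.and_eq_true] at h
  obtain ⟨⟨p1, p2⟩, p3⟩ := h
  have q1 := b3_sound p1 hy
  have q2 := b3_sound p2 hy
  have q3 := b3_sound p3 hy
  simp only [A3.at, Q10.ev_axpy, Q10.ev_zero, add_zero] at q1 q2 q3
  obtain ⟨r, s, t, hr, hs, ht, hpos, rfl, rfl, rfl⟩ := hx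
  unfold A3.ev
  generalize A.p.ev y1 y2 y3 = e1 at *
  generalize A.q.ev y1 y2 y3 = e2 at *
  generalize A.r.ev y1 y2 y3 = e3 at *
  have key : (r * P.a1 + s * P.b1 + t * P.c1) * e1 + (r * P.a2 + s * P.b2 + t * P.c2) * e2
      + (r * P.a3 + s * P.b3 + t * P.c3) * e3 =
      r * (P.a1 * e1 + (P.a2 * e2 + P.a3 * e3)) + s * (P.b1 * e1 + (P.b2 * e2 + P.b3 * e3))
      + t * (P.c1 * e1 + (P.c2 * e2 + P.c3 * e3)) := by ring
  rw [key]
  generalize (P.a1 * e1 + (P.a2 * e2 + P.a3 * e3) : ℝ) = f1 at *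
  generalize (P.b1 * e1 + (P.b2 * e2 + P.b3 * e3) : ℝ) = f2 at *
  generalize (P.c1 * e1 + (P.c2 * e2 + P.c3 * e3) : ℝ) = f3 at *
  rcases eq_or_lt_of_le hr with h1 | h1
  · rcases eq_or_lt_of_le hs with h2 | h2
    · have : 0 < t := by linarith
      positivity
    · positivity
  · positivity

def sumL (tbl : List A3) : List (Nat × Nat) → A3
  | [] => A3.zero
  | km :: l => A3.axpy (km.2 : Int) (tbl.getD km.1 A3.zero) (sumL tbl l)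

theorem sumL_nonpos {tbl : List A3} {x1 x2 x3 y1 y2 y3 : ℝ}
    (h : ∀ A ∈ tbl, A.ev x1 x2 x3 y1 y2 y3 ≤ 0) (l : List (Nat × Nat)) :
    (sumL tbl l).ev x1 x2 x3 y1 y2 y3 ≤ 0 := by
  have hz : A3.zero.ev x1 x2 x3 y1 y2 y3 = 0 := by simp [A3.ev, A3.zero, Q10.ev_zero]
  induction l with
  | nil => exact hz.le
  | cons km l ih =>
    have h1 : (tbl.getD km.1 A3.zero).ev x1 x2 x3 y1 y2 y3 ≤ 0 := by
      rw [List.getD_eq_getElem?_getD]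
      cases hk : tbl[km.1]? with
      | none => exact hz.le
      | some A => exact h A (List.mem_of_getElem? hk)
    have h2 : (sumL tbl (km :: l)).ev x1 x2 x3 y1 y2 y3 =
        (km.2 : ℝ) * (tbl.getD km.1 A3.zero).ev x1 x2 x3 y1 y2 y3
          + (sumL tbl l).ev x1 x2 x3 y1 y2 y3 := by
      simp only [sumL, A3.ev, A3.axpy, Q10.ev_axpy]; push_cast; ring
    rw [h2]
    have : (0 : ℝ) ≤ km.2 := Nat.cast_nonneg _
    nlinarith

/-- Subdivision certificate. -/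
inductive T where
  | lp (l : List (Nat × Nat)) : T
  | loc (i : Nat) : T
  | x1 (l r : T) : T
  | x2 (l r : T) : T
  | x3 (l r : T) : T
  | u1 (l r : T) : T
  | u2 (l r : T) : T
  | u3 (l r : T) : T

def check (tbl : List A3) (locs : List (List A3)) : T → Tri → Box → Bool
  | .lp l, P, B => posOn (sumL tbl l) P B
  | .loc i, P, B => decide (i < locs.length) && (locs.getD i []).all fun A => posOn A P B
  | .x1 l r, P, B =>
      check tbl locs l P { B with h1 := (B.l1 + B.h1) / 2 } &&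
      check tbl locs r P { B with l1 := (B.l1 + B.h1) / 2 }
  | .x2 l r, P, B =>
      check tbl locs l P { B with h2 := (B.l2 + B.h2) / 2 } &&
      check tbl locs r P { B with l2 := (B.l2 + B.h2) / 2 }
  | .x3 l r, P, B =>
      check tbl locs l P { B with h3 := (B.l3 + B.h3) / 2 } &&
      check tbl locs r P { B with l3 := (B.l3 + B.h3) / 2 }
  | .u1 l r, P, B =>
      check tbl locs l ⟨2 * P.a1, 2 * P.a2, 2 * P.a3, P.a1 + P.b1, P.a2 + P.b2, P.a3 + P.b3,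
        2 * P.c1, 2 * P.c2, 2 * P.c3⟩ B &&
      check tbl locs r ⟨P.a1 + P.b1, P.a2 + P.b2, P.a3 + P.b3, 2 * P.b1, 2 * P.b2, 2 * P.b3,
        2 * P.c1, 2 * P.c2, 2 * P.c3⟩ B
  | .u2 l r, P, B =>
      check tbl locs l ⟨2 * P.a1, 2 * P.a2, 2 * P.a3, 2 * P.b1, 2 * P.b2, 2 * P.b3,
        P.b1 + P.c1, P.b2 + P.c2, P.b3 + P.c3⟩ B &&
      check tbl locs r ⟨2 * P.a1, 2 * P.a2, 2 * P.a3, P.b1 + P.c1, P.b2 + P.c2, P.b3 + P.c3,
        2 * P.c1, 2 * P.c2, 2 * P.c3⟩ B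
  | .u3 l r, P, B =>
      check tbl locs l ⟨P.c1 + P.a1, P.c2 + P.a2, P.c3 + P.a3, 2 * P.b1, 2 * P.b2, 2 * P.b3,
        2 * P.c1, 2 * P.c2, 2 * P.c3⟩ B &&
      check tbl locs r ⟨2 * P.a1, 2 * P.a2, 2 * P.a3, 2 * P.b1, 2 * P.b2, 2 * P.b3,
        P.c1 + P.a1, P.c2 + P.a2, P.c3 + P.a3⟩ B

theorem check_sound {tbl : List A3} {locs : List (List A3)} {x1 x2 x3 y1 y2 y3 : ℝ}
    (h : ∀ A ∈ tbl, A.ev x1 x2 x3 y1 y2 y3 ≤ 0)
    (hl : ∀ L ∈ locs, ¬ ∀ A ∈ L, 0 < A.ev x1 x2 x3 y1 y2 y3) (t : T) :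
    ∀ (P : Tri) (B : Box), check tbl locs t P B = true → P.In x1 x2 x3 → B.In y1 y2 y3 → False := by
  induction t with
  | lp l =>
    intro P B hc hx hy
    exact absurd (posOn_sound hc hx hy) (not_lt.2 (sumL_nonpos h l))
  | loc i =>
    intro P B hc hx hy
    simp only [check, Bool.and_eq_true, decide_eq_true_eq, List.all_eq_true] at hc
    obtain ⟨hi, hc⟩ := hc
    refine hl (locs.getD i []) ?_ fun A hA => posOn_sound (hc A hA) hx hy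
    rw [List.getD_eq_getElem _ _ hi]
    exact List.getElem_mem hi
  | x1 l r ihl ihr =>
    intro P B hc hx hy
    simp only [check, Bool.and_eq_true] at hc
    rcases le_total y1 (((B.l1 + B.h1) / 2 : Int) : ℝ) with h1 | h1
    · exact ihl _ _ hc.1 hx ⟨⟨hy.1.1, h1⟩, hy.2.1, hy.2.2⟩
    · exact ihr _ _ hc.2 hx ⟨⟨h1, hy.1.2⟩, hy.2.1, hy.2.2⟩
  | x2 l r ihl ihr =>
    intro P B hc hx hy
    simp only [check, Bool.and_eq_true] at hc
    rcases le_total y2 (((B.l2 + B.h2) / 2 : Int) : ℝ) with h1 | h1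
    · exact ihl _ _ hc.1 hx ⟨hy.1, ⟨hy.2.1.1, h1⟩, hy.2.2⟩
    · exact ihr _ _ hc.2 hx ⟨hy.1, ⟨h1, hy.2.1.2⟩, hy.2.2⟩
  | x3 l r ihl ihr =>
    intro P B hc hx hy
    simp only [check, Bool.and_eq_true] at hc
    rcases le_total y3 (((B.l3 + B.h3) / 2 : Int) : ℝ) with h1 | h1
    · exact ihl _ _ hc.1 hx ⟨hy.1, hy.2.1, ⟨hy.2.2.1, h1⟩⟩
    · exact ihr _ _ hc.2 hx ⟨hy.1, hy.2.1, ⟨h1, hy.2.2.2⟩⟩
  | u1 l r ihl ihr =>
    intro P B hc hx hy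
    simp only [check, Bool.and_eq_true] at hc
    obtain ⟨r, s, t, hr, hs, ht, hpos, e1, e2, e3⟩ := hx
    rcases le_total s r with h1 | h1
    · refine ihl _ _ hc.1 ⟨(r - s) / 2, s, t / 2, by linarith, hs, by linarith, by linarith,
        ?_, ?_, ?_⟩ hy <;> push_cast <;> linarith
    · refine ihr _ _ hc.2 ⟨r, (s - r) / 2, t / 2, hr, by linarith, by linarith, by linarith,
        ?_, ?_, ?_⟩ hy <;> push_cast <;> linarith
  | u2 l r ihl ihr =>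
    intro P B hc hx hy
    simp only [check, Bool.and_eq_true] at hc
    obtain ⟨r, s, t, hr, hs, ht, hpos, e1, e2, e3⟩ := hx
    rcases le_total t s with h1 | h1
    · refine ihl _ _ hc.1 ⟨r / 2, (s - t) / 2, t, by linarith, by linarith, ht, by linarith,
        ?_, ?_, ?_⟩ hy <;> push_cast <;> linarith
    · refine ihr _ _ hc.2 ⟨r / 2, s, (t - s) / 2, by linarith, hs, by linarith, by linarith,
        ?_, ?_, ?_⟩ hy <;> push_cast <;> linarith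
  | u3 l r ihl ihr =>
    intro P B hc hx hy
    simp only [check, Bool.and_eq_true] at hc
    obtain ⟨r, s, t, hr, hs, ht, hpos, e1, e2, e3⟩ := hx
    rcases le_total r t with h1 | h1
    · refine ihl _ _ hc.1 ⟨r, s / 2, (t - r) / 2, hr, by linarith, by linarith, by linarith,
        ?_, ?_, ?_⟩ hy <;> push_cast <;> linarith
    · refine ihr _ _ hc.2 ⟨(r - t) / 2, s / 2, t, by linarith, by linarith, ht, by linarith,
        ?_, ?_, ?_⟩ hy <;> push_cast <;> linarith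

end Pool.Agent.Lib.MP_5fb7d4_co
end

-- part Pool.Agent.Lib.MP_5fb7d4_co.Zp
section

set_option autoImplicit false

namespace Pool.Agent.Lib.MP_5fb7d4_co

open Matrix

theorem phi_sq : Real.goldenRatio ^ 2 = Real.goldenRatio + 1 := Real.goldenRatio_sq

theorem phi_lb : (1618033988749 / 1000000000000 : ℝ) < Real.goldenRatio := by
  have : (2236067977498 / 1000000000000 : ℝ) < √5 := Real.lt_sqrt_of_sq_lt (by norm_num)
  rw [Real.goldenRatio]; linarith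

theorem phi_ub : Real.goldenRatio < (1618033988750 / 1000000000000 : ℝ) := by
  have : √5 < (2236067977500 / 1000000000000 : ℝ) := (Real.sqrt_lt' (by norm_num)).2 (by norm_num)
  rw [Real.goldenRatio]; linarith

/-- The number `a + b φ`. -/
structure Zp where
  a : Int
  b : Int
deriving DecidableEq

namespace Zp

noncomputable def val (z : Zp) : ℝ := z.a + z.b * Real.goldenRatio
def add (z w : Zp) : Zp := ⟨z.a + w.a, z.b + w.b⟩
def sub (z w : Zp) : Zp := ⟨z.a - w.a, z.b - w.b⟩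
def mul (z w : Zp) : Zp := ⟨z.a * w.a + z.b * w.b, z.a * w.b + z.b * w.a + z.b * w.b⟩
def sm (m : Int) (z : Zp) : Zp := ⟨m * z.a, m * z.b⟩
def lo (z : Zp) : Int :=
  z.a * 1000000000000 + z.b * (if 0 ≤ z.b then 1618033988749 else 1618033988750)

theorem val_add (z w : Zp) : (z.add w).val = z.val + w.val := by
  simp only [val, add]; push_cast; ring
theorem val_sub (z w : Zp) : (z.sub w).val = z.val - w.val := by
  simp only [val, sub]; push_cast; ring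
theorem val_mul (z w : Zp) : (z.mul w).val = z.val * w.val := by
  simp only [val, mul]; push_cast; linear_combination (-(z.b : ℝ) * w.b) * phi_sq
theorem val_sm (m : Int) (z : Zp) : (sm m z).val = m * z.val := by
  simp only [val, sm]; push_cast; ring
theorem lo_le (z : Zp) : (z.lo : ℝ) ≤ 1000000000000 * z.val := by
  have h1 := phi_lb
  have h2 := phi_ub
  simp only [val, lo]
  split_ifs with h
  · have : (0 : ℝ) ≤ z.b := by exact_mod_cast h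
    push_cast; nlinarith
  · have : (z.b : ℝ) ≤ 0 := by exact_mod_cast (not_le.1 h).le
    push_cast; nlinarith
def nonneg (z : Zp) : Bool := decide (0 ≤ z.lo)
theorem nonneg_sound {z : Zp} (h : z.nonneg = true) : 0 ≤ z.val := by
  have h1 : (0 : ℝ) ≤ z.lo := by
    simp only [nonneg, decide_eq_true_eq] at h; exact_mod_cast h
  have := z.lo_le
  linarith

end Zp

structure Z3 where
  x : Zp
  y : Zp
  z : Zp
deriving DecidableEq

namespace Z3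

noncomputable def val (v : Z3) : V3 := ![v.x.val, v.y.val, v.z.val]
def dot (v w : Z3) : Zp := ((v.x.mul w.x).add (v.y.mul w.y)).add (v.z.mul w.z)
def cross (v w : Z3) : Z3 :=
  ⟨(v.y.mul w.z).sub (v.z.mul w.y), (v.z.mul w.x).sub (v.x.mul w.z), (v.x.mul w.y).sub (v.y.mul w.x)⟩
def sm (m : Int) (v : Z3) : Z3 := ⟨Zp.sm m v.x, Zp.sm m v.y, Zp.sm m v.z⟩
def mul (m : Zp) (v : Z3) : Z3 := ⟨m.mul v.x, m.mul v.y, m.mul v.z⟩
def sub (v w : Z3) : Z3 := ⟨v.x.sub w.x, v.y.sub w.y, v.z.sub w.z⟩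

theorem val_dot (v w : Z3) : (v.dot w).val = v.val ⬝ᵥ w.val := by
  simp [dot, val, Zp.val_add, Zp.val_mul, dotProduct, Fin.sum_univ_three]
theorem val_cross (v w : Z3) : (v.cross w).val = v.val ⨯₃ w.val := by
  simp [cross, val, Zp.val_sub, Zp.val_mul, cross_apply]
theorem val_sm (m : Int) (v : Z3) : (sm m v).val = (m : ℝ) • v.val := by
  simp [sm, val, Zp.val_sm]
theorem val_mul (m : Zp) (v : Z3) : (mul m v).val = m.val • v.val := by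
  simp [mul, val, Zp.val_mul]
theorem val_sub (v w : Z3) : (v.sub w).val = v.val - w.val := by
  simp [sub, val, Zp.val_sub]

end Z3

/-- Quadratic polynomial with coefficients in `ℤ[φ]`. -/
structure F10 where
  f0 : Zp
  f1 : Zp
  f2 : Zp
  f3 : Zp
  f11 : Zp
  f22 : Zp
  f33 : Zp
  f12 : Zp
  f13 : Zp
  f23 : Zp

noncomputable def F10.ev (f : F10) (x : V3) : ℝ :=
  f.f0.val + f.f1.val * x 0 + f.f2.val * x 1 + f.f3.val * x 2 + f.f11.val * x 0 ^ 2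
    + f.f22.val * x 1 ^ 2 + f.f33.val * x 2 ^ 2 + f.f12.val * x 0 * x 1 + f.f13.val * x 0 * x 2
    + f.f23.val * x 1 * x 2

def mkQ (f : F10) : Q10 :=
  ⟨67108864 * ((((((((((f.f0.sub f.f1).sub f.f2).sub f.f3).add f.f11).add f.f22).add f.f33).add
      f.f12).add f.f13).add f.f23).lo),
   8192 * (((f.f1.sub (Zp.sm 2 f.f11)).sub f.f12).sub f.f13).lo,
   8192 * (((f.f2.sub (Zp.sm 2 f.f22)).sub f.f12).sub f.f23).lo,
   8192 * (((f.f3.sub (Zp.sm 2 f.f33)).sub f.f13).sub f.f23).lo,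
   4 * f.f11.lo, 4 * f.f22.lo, 4 * f.f33.lo, f.f12.lo, f.f13.lo, f.f23.lo⟩

theorem mkQ_le (f : F10) {x : V3} (h0 : -1 ≤ x 0) (h1 : -1 ≤ x 1) (h2 : -1 ≤ x 2) :
    (mkQ f).ev (4096 * (x 0 + 1)) (4096 * (x 1 + 1)) (4096 * (x 2 + 1)) ≤
      67108864000000000000 * f.ev x := by
  have e0 := Zp.lo_le (((((((((f.f0.sub f.f1).sub f.f2).sub f.f3).add f.f11).add f.f22).add
      f.f33).add f.f12).add f.f13).add f.f23)
  have e1 := Zp.lo_le (((f.f1.sub (Zp.sm 2 f.f11)).sub f.f12).sub f.f13)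
  have e2 := Zp.lo_le (((f.f2.sub (Zp.sm 2 f.f22)).sub f.f12).sub f.f23)
  have e3 := Zp.lo_le (((f.f3.sub (Zp.sm 2 f.f33)).sub f.f13).sub f.f23)
  have e11 := Zp.lo_le f.f11
  have e22 := Zp.lo_le f.f22
  have e33 := Zp.lo_le f.f33
  have e12 := Zp.lo_le f.f12
  have e13 := Zp.lo_le f.f13
  have e23 := Zp.lo_le f.f23
  simp only [Zp.val_add, Zp.val_sub, Zp.val_sm] at e0 e1 e2 e3
  have p0 : 0 ≤ x 0 + 1 := by linarith
  have p1 : 0 ≤ x 1 + 1 := by linarith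
  have p2 : 0 ≤ x 2 + 1 := by linarith
  have m1 := mul_le_mul_of_nonneg_right e1 p0
  have m2 := mul_le_mul_of_nonneg_right e2 p1
  have m3 := mul_le_mul_of_nonneg_right e3 p2
  have m11 := mul_le_mul_of_nonneg_right e11 (mul_nonneg p0 p0)
  have m22 := mul_le_mul_of_nonneg_right e22 (mul_nonneg p1 p1)
  have m33 := mul_le_mul_of_nonneg_right e33 (mul_nonneg p2 p2)
  have m12 := mul_le_mul_of_nonneg_right e12 (mul_nonneg p0 p1)
  have m13 := mul_le_mul_of_nonneg_right e13 (mul_nonneg p0 p2)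
  have m23 := mul_le_mul_of_nonneg_right e23 (mul_nonneg p1 p2)
  simp only [Q10.ev, mkQ, F10.ev]
  push_cast at *
  linarith

/-- The form `l ⟨R(x)(u × d), c⟩ - ⟨u, g⟩ (1 + |x|²)`. -/
structure Spec where
  l : Int
  d : Z3
  c : Z3
  g : Z3

noncomputable def Spec.form (s : Spec) (u x : V3) : ℝ :=
  s.l * ((Rot x *ᵥ (u ⨯₃ s.d.val)) ⬝ᵥ s.c.val) - (u ⬝ᵥ s.g.val) * nq x

def formOf (l : Int) (w c : Z3) (h : Zp) : F10 :=
  ⟨(Zp.sm l (w.dot c)).sub h,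
   Zp.sm (2 * l) (w.cross c).x, Zp.sm (2 * l) (w.cross c).y, Zp.sm (2 * l) (w.cross c).z,
   (Zp.sm l ((Zp.sm 2 (w.x.mul c.x)).sub (w.dot c))).sub h,
   (Zp.sm l ((Zp.sm 2 (w.y.mul c.y)).sub (w.dot c))).sub h,
   (Zp.sm l ((Zp.sm 2 (w.z.mul c.z)).sub (w.dot c))).sub h,
   Zp.sm (2 * l) ((w.x.mul c.y).add (w.y.mul c.x)),
   Zp.sm (2 * l) ((w.x.mul c.z).add (w.z.mul c.x)),
   Zp.sm (2 * l) ((w.y.mul c.z).add (w.z.mul c.y))⟩

def Spec.at (s : Spec) (U : Z3) : F10 := formOf s.l (U.cross s.d) s.c (U.dot s.g)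

theorem Spec.at_ev (s : Spec) (U : Z3) (x : V3) : (s.at U).ev x = s.form U.val x := by
  simp [Spec.at, formOf, F10.ev, Spec.form, Zp.val_add, Zp.val_sub, Zp.val_sm, Zp.val_mul, Z3.dot,
    Z3.cross, Z3.val, Rot, nq, cross_apply, Matrix.mulVec, dotProduct, Fin.sum_univ_three]
  ring

theorem Spec.form_comb (s : Spec) (b1 b2 b3 : ℝ) (u1 u2 u3 x : V3) :
    s.form (b1 • u1 + b2 • u2 + b3 • u3) x =
      b1 * s.form u1 x + b2 * s.form u2 x + b3 * s.form u3 x := by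
  simp only [Spec.form, map_add, map_smul, LinearMap.add_apply, LinearMap.smul_apply,
    Matrix.mulVec_add, Matrix.mulVec_smul, add_dotProduct, smul_dotProduct, smul_eq_mul]
  ring

def mkA (U1 U2 U3 : Z3) (s : Spec) : A3 := ⟨mkQ (s.at U1), mkQ (s.at U2), mkQ (s.at U3)⟩

theorem mkA_le (U1 U2 U3 : Z3) (s : Spec) {x : V3} (h0 : -1 ≤ x 0) (h1 : -1 ≤ x 1) (h2 : -1 ≤ x 2)
    {b1 b2 b3 : ℝ} (p1 : 0 ≤ b1) (p2 : 0 ≤ b2) (p3 : 0 ≤ b3) :
    (mkA U1 U2 U3 s).ev b1 b2 b3 (4096 * (x 0 + 1)) (4096 * (x 1 + 1)) (4096 * (x 2 + 1)) ≤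
      67108864000000000000 * s.form (b1 • U1.val + b2 • U2.val + b3 • U3.val) x := by
  have e1 := mul_le_mul_of_nonneg_left (mkQ_le (s.at U1) h0 h1 h2) p1
  have e2 := mul_le_mul_of_nonneg_left (mkQ_le (s.at U2) h0 h1 h2) p2
  have e3 := mul_le_mul_of_nonneg_left (mkQ_le (s.at U3) h0 h1 h2) p3
  rw [Spec.at_ev] at e1 e2 e3
  rw [Spec.form_comb]
  simp only [A3.ev, mkA]
  linarith

def dirF (p : Z3 × Z3) : F10 :=
  ⟨(p.1.dot p.2).sub ⟨4, 0⟩, (p.1.cross p.2).x, (p.1.cross p.2).y, (p.1.cross p.2).z,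
   ⟨0, 0⟩, ⟨0, 0⟩, ⟨0, 0⟩, ⟨0, 0⟩, ⟨0, 0⟩, ⟨0, 0⟩⟩

def mkD (p : Z3 × Z3) : A3 := ⟨mkQ (dirF p), mkQ (dirF p), mkQ (dirF p)⟩

theorem dirF_ev (p : Z3 × Z3) (x : V3) :
    (dirF p).ev x = p.1.val ⬝ᵥ p.2.val + (p.1.val ⨯₃ p.2.val) ⬝ᵥ x - 4 := by
  simp [dirF, F10.ev, Zp.val_add, Zp.val_sub, Zp.val_mul, Z3.dot,
    Z3.cross, Z3.val, cross_apply, dotProduct, Fin.sum_univ_three]
  simp [Zp.val]
  ring

def mirOK (Vl : List Z3) (ρ : Z3) : Bool :=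
  decide (ρ.dot ρ = ⟨4, 0⟩) &&
    Vl.all fun v => Vl.any fun v' => decide (Z3.sm 2 v' = (Z3.sm 2 v).sub (Z3.mul (ρ.dot v) ρ))

theorem mirOK_sound {Vl : List Z3} {V : Set V3} (hV : ∀ v, v ∈ V ↔ ∃ z ∈ Vl, z.val = v)
    {ρ : Z3} (h : mirOK Vl ρ = true) : Mirror V ρ.val := by
  simp only [mirOK, Bool.and_eq_true, decide_eq_true_eq, List.all_eq_true, List.any_eq_true] at h
  obtain ⟨h1, h2⟩ := h
  refine ⟨?_, fun v hv => ?_⟩
  · rw [← Z3.val_dot, h1]; simp [Zp.val]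
  · obtain ⟨z, hz, rfl⟩ := (hV v).1 hv
    obtain ⟨z', hz', e⟩ := h2 z hz
    refine (hV _).2 ⟨z', hz', ?_⟩
    have e' := congrArg Z3.val e
    rw [Z3.val_sub, Z3.val_sm, Z3.val_sm, Z3.val_mul, Z3.val_dot] at e'
    rw [rf_mulVec]
    ext i
    have := congrFun e' i
    simp only [Pi.sub_apply, Pi.smul_apply, smul_eq_mul] at this ⊢
    push_cast at this
    linarith

/-- The line through `e.1` with direction `e.2` supports the shadow in direction `U`. -/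
def silOK (Vl : List Z3) (U : Z3) (e : Z3 × Z3) : Bool :=
  ((U.cross e.2).dot e.1).nonneg &&
    Vl.all fun v => (((U.cross e.2).dot e.1).sub ((U.cross e.2).dot v)).nonneg

def tblOf (Vl : List Z3) (U1 U2 U3 : Z3) (edges pairs : List (Z3 × Z3)) (ln ld : Int) : List A3 :=
  pairs.map mkD ++ edges.flatMap fun e => Vl.map fun c =>
    mkA U1 U2 U3 ⟨ln, e.2, c, Z3.sm ld (e.2.cross e.1)⟩

def locsOf (U1 U2 U3 : Z3) (locS : List (List Spec)) : List (List A3) :=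
  locS.map fun L => L.map (mkA U1 U2 U3)

theorem sil_bound {Vl : List Z3} {U : Z3} {e : Z3 × Z3} (h : silOK Vl U e = true) :
    0 ≤ (U.val ⨯₃ e.2.val) ⬝ᵥ e.1.val ∧
      ∀ z ∈ Vl, (U.val ⨯₃ e.2.val) ⬝ᵥ z.val ≤ (U.val ⨯₃ e.2.val) ⬝ᵥ e.1.val := by
  simp only [silOK, Bool.and_eq_true, List.all_eq_true] at h
  refine ⟨?_, fun z hz => ?_⟩
  · have := Zp.nonneg_sound h.1
    rwa [Z3.val_dot, Z3.val_cross] at this
  · have := Zp.nonneg_sound (h.2 z hz)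
    rw [Zp.val_sub, Z3.val_dot, Z3.val_dot, Z3.val_cross] at this
    linarith

theorem sil_comb {Vl : List Z3} {V : Set V3} (hV : ∀ v, v ∈ V ↔ ∃ z ∈ Vl, z.val = v)
    {U1 U2 U3 : Z3} {e : Z3 × Z3} (h1 : silOK Vl U1 e = true) (h2 : silOK Vl U2 e = true)
    (h3 : silOK Vl U3 e = true) {b1 b2 b3 : ℝ} (p1 : 0 ≤ b1) (p2 : 0 ≤ b2) (p3 : 0 ≤ b3) :
    0 ≤ ((b1 • U1.val + b2 • U2.val + b3 • U3.val) ⨯₃ e.2.val) ⬝ᵥ e.1.val ∧
      ∀ v ∈ V, ((b1 • U1.val + b2 • U2.val + b3 • U3.val) ⨯₃ e.2.val) ⬝ᵥ v ≤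
        ((b1 • U1.val + b2 • U2.val + b3 • U3.val) ⨯₃ e.2.val) ⬝ᵥ e.1.val := by
  obtain ⟨a1, c1⟩ := sil_bound h1
  obtain ⟨a2, c2⟩ := sil_bound h2
  obtain ⟨a3, c3⟩ := sil_bound h3
  simp only [map_add, map_smul, LinearMap.add_apply, LinearMap.smul_apply, add_dotProduct,
    smul_dotProduct, smul_eq_mul]
  refine ⟨by positivity, fun v hv => ?_⟩
  obtain ⟨z, hz, rfl⟩ := (hV v).1 hv
  have e1 := mul_le_mul_of_nonneg_left (c1 z hz) p1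
  have e2 := mul_le_mul_of_nonneg_left (c2 z hz) p2
  have e3 := mul_le_mul_of_nonneg_left (c3 z hz) p3
  linarith

theorem cross_dot_self (u d : V3) : (u ⨯₃ d) ⬝ᵥ u = 0 := by
  rw [dotProduct_comm]; exact dot_self_cross u d

theorem triple_eq (u d a : V3) : u ⬝ᵥ (d ⨯₃ a) = (u ⨯₃ d) ⬝ᵥ a := by
  simp [cross_apply, dotProduct, Fin.sum_univ_three]; ring

def P0 : Tri := ⟨1, 0, 0, 0, 1, 0, 0, 0, 1⟩
def B0 : Box := ⟨0, 8192, 0, 8192, 0, 8192⟩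

theorem top_sound {Vl : List Z3} {V : Set V3} (hV : ∀ v, v ∈ V ↔ ∃ z ∈ Vl, z.val = v)
    {U1 U2 U3 : Z3} {edges pairs : List (Z3 × Z3)} {locS : List (List Spec)} {ln ld : Int} {t : T}
    (hsil : (edges.all fun e => silOK Vl U1 e && silOK Vl U2 e && silOK Vl U3 e) = true)
    (hpairs : (pairs.all fun p => mirOK Vl p.1 && mirOK Vl p.2) = true)
    (hcheck : check (tblOf Vl U1 U2 U3 edges pairs ln ld) (locsOf U1 U2 U3 locS) t P0 B0 = true)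
    {c b1 b2 b3 : ℝ} {u x : V3} (p1 : 0 ≤ b1) (p2 : 0 ≤ b2) (p3 : 0 ≤ b3) (hu0 : u ≠ 0)
    (hu : u = b1 • U1.val + b2 • U2.val + b3 • U3.val) (hln : 0 < ln) (hld : 0 < ld)
    (hc : (ln : ℝ) ≤ c * ld) (hC : CondX V c u x) (hD : Dir V x)
    (hx : (-1 ≤ x 0 ∧ x 0 ≤ 1) ∧ (-1 ≤ x 1 ∧ x 1 ≤ 1) ∧ (-1 ≤ x 2 ∧ x 2 ≤ 1))
    (hloc : ∀ L ∈ locS, ¬ ∀ s ∈ L, 0 < s.form u x) : False := by
  obtain ⟨⟨x0, x0'⟩, ⟨x1, x1'⟩, ⟨x2, x2'⟩⟩ := hx
  have hln' : (0 : ℝ) < ln := by exact_mod_cast hln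
  have hld' : (0 : ℝ) < ld := by exact_mod_cast hld
  refine check_sound (x1 := b1) (x2 := b2) (x3 := b3) (y1 := 4096 * (x 0 + 1))
    (y2 := 4096 * (x 1 + 1)) (y3 := 4096 * (x 2 + 1)) ?_ ?_ t P0 B0 hcheck ?_ ?_
  · intro A hA
    simp only [tblOf, List.mem_append, List.mem_map, List.mem_flatMap] at hA
    rcases hA with ⟨p, hp, rfl⟩ | ⟨e, he, z, hz, rfl⟩
    · simp only [List.all_eq_true, Bool.and_eq_true] at hpairs
      have h1 := hD _ _ (mirOK_sound hV (hpairs p hp).1) (mirOK_sound hV (hpairs p hp).2)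
      have h2 := mkQ_le (dirF p) x0 x1 x2
      rw [dirF_ev] at h2
      have h3 : (mkQ (dirF p)).ev (4096 * (x 0 + 1)) (4096 * (x 1 + 1)) (4096 * (x 2 + 1)) ≤ 0 := by
        linarith
      simp only [A3.ev, mkD]
      have := mul_nonpos_of_nonneg_of_nonpos p1 h3
      have := mul_nonpos_of_nonneg_of_nonpos p2 h3
      have := mul_nonpos_of_nonneg_of_nonpos p3 h3
      linarith
    · simp only [List.all_eq_true, Bool.and_eq_true] at hsil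
      obtain ⟨⟨s1, s2⟩, s3⟩ := hsil e he
      obtain ⟨h1, h2⟩ := sil_comb hV s1 s2 s3 p1 p2 p3
      rw [← hu] at h1 h2
      have h3 := hC _ (cross_dot_self u e.2.val) _ h2 z.val ((hV _).2 ⟨z, hz, rfl⟩)
      refine (mkA_le U1 U2 U3 _ x0 x1 x2 p1 p2 p3).trans ?_
      rw [← hu]
      simp only [Spec.form, Z3.val_sm, Z3.val_cross, dotProduct_smul, smul_eq_mul, triple_eq]
      have h4 := mul_nonneg h1 (nq_pos x).le
      generalize (Rot x *ᵥ (u ⨯₃ e.2.val)) ⬝ᵥ z.val = X at *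
      generalize (u ⨯₃ e.2.val) ⬝ᵥ e.1.val = H at *
      have h5 : ln * X ≤ ld * (H * nq x) := by
        rcases le_total X 0 with h | h
        · have := mul_nonpos_of_nonneg_of_nonpos hln'.le h
          have := mul_nonneg hld'.le h4
          linarith
        · have := mul_le_mul_of_nonneg_right hc h
          have := mul_le_mul_of_nonneg_left h3 hld'.le
          linarith
      linarith
  · intro L hL hall
    simp only [locsOf, List.mem_map] at hL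
    obtain ⟨L', hL', rfl⟩ := hL
    refine hloc L' hL' fun s hs => ?_
    have h1 := hall _ (List.mem_map.2 ⟨s, hs, rfl⟩)
    have h2 := mkA_le U1 U2 U3 s x0 x1 x2 p1 p2 p3
    rw [← hu] at h2
    linarith
  · refine ⟨b1, b2, b3, p1, p2, p3, ?_, by simp [P0], by simp [P0], by simp [P0]⟩
    by_contra h
    have e1 : b1 = 0 := by linarith
    have e2 : b2 = 0 := by linarith
    have e3 : b3 = 0 := by linarith
    apply hu0
    rw [hu, e1, e2, e3]; simp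
  · simp only [Box.In, B0]
    push_cast
    refine ⟨⟨?_, ?_⟩, ⟨?_, ?_⟩, ⟨?_, ?_⟩⟩ <;> linarith

end Pool.Agent.Lib.MP_5fb7d4_co
end

-- part Pool.Agent.Lib.MP_5fb7d4_co.Alg
section

set_option autoImplicit false

namespace Pool.Agent.Lib.MP_5fb7d4_co

noncomputable abbrev ph : ℝ := Real.goldenRatio

noncomputable def kap : ℝ := (5 / 2 * ph + √(17 / 4 + 33 / 4 * ph)) / 2

theorem ph_lb : (1.6180339 : ℝ) < ph := lt_trans (by norm_num) phi_lb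
theorem ph_ub : ph < (1.618034 : ℝ) := lt_trans phi_ub (by norm_num)

theorem kap_sq : kap ^ 2 = 5 / 2 * ph * kap - (1 - ph) / 2 := by
  have h1 : √(17 / 4 + 33 / 4 * ph) ^ 2 = 17 / 4 + 33 / 4 * ph :=
    Real.sq_sqrt (by have := ph_lb; positivity)
  have h2 : ph ^ 2 = ph + 1 := phi_sq
  unfold kap
  linear_combination (1 / 4 : ℝ) * h1 - (25 / 16 : ℝ) * h2

theorem kap_lb : (4.120087 : ℝ) < kap := by
  have h := ph_lb
  have : (4.1950895 : ℝ) < √(17 / 4 + 33 / 4 * ph) := Real.lt_sqrt_of_sq_lt (by linarith)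
  unfold kap; linarith

theorem kap_ub : kap < (4.120088 : ℝ) := by
  have h := ph_ub
  have : √(17 / 4 + 33 / 4 * ph) < (4.195091 : ℝ) := (Real.sqrt_lt' (by norm_num)).2 (by linarith)
  unfold kap; linarith

theorem phk_lb : (6.6664404 : ℝ) < ph * kap := by
  have := ph_lb; have := kap_lb; nlinarith
theorem phk_ub : ph * kap < (6.6664425 : ℝ) := by
  have := ph_ub; have := kap_ub; have := ph_lb; have := kap_lb; nlinarith

noncomputable def nu : ℝ := √(47 / 45 + 28 / 15 * ph - 2 / 3 * kap - 2 / 45 * (ph * kap))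

theorem nu_sq : nu ^ 2 = 47 / 45 + 28 / 15 * ph - 2 / 3 * kap - 2 / 45 * (ph * kap) := by
  have := ph_lb; have := kap_ub; have := phk_ub
  exact Real.sq_sqrt (by linarith)

theorem nu_sq_lb : (1.02176 : ℝ) < nu ^ 2 := by
  have := ph_lb; have := kap_ub; have := phk_ub
  rw [nu_sq]; linarith

theorem nu_sq_ub : nu ^ 2 < (1.02177 : ℝ) := by
  have := ph_ub; have := kap_lb; have := phk_lb
  rw [nu_sq]; linarith

theorem nu_nonneg : 0 ≤ nu := Real.sqrt_nonneg _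

theorem nu_lb : (1.0108 : ℝ) < nu := by
  have := nu_sq_lb; have := nu_nonneg; nlinarith

theorem nu_ub : nu < (1.0109 : ℝ) := by
  have := nu_sq_ub; have := nu_nonneg; nlinarith

theorem nu_root : 2025 * nu ^ 8 - 11970 * nu ^ 6 + 17009 * nu ^ 4 - 9000 * nu ^ 2 + 2000 = 0 := by
  have h1 := nu_sq
  have h2 := kap_sq
  have h3 : ph ^ 2 = ph + 1 := phi_sq
  have e : 2025 * nu ^ 8 - 11970 * nu ^ 6 + 17009 * nu ^ 4 - 9000 * nu ^ 2 + 2000 =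
      2025 * (nu ^ 2) ^ 4 - 11970 * (nu ^ 2) ^ 3 + 17009 * (nu ^ 2) ^ 2 - 9000 * nu ^ 2 + 2000 := by
    ring
  rw [e]
  generalize nu ^ 2 = t at *
  generalize kap = k at *
  generalize ph = p at *
  grind

theorem abs3 {g1 g2 g3 a b c G1 G2 G3 A B C : ℝ} (h1 : |g1| ≤ G1) (h2 : |g2| ≤ G2) (h3 : |g3| ≤ G3)
    (ha : |a| ≤ A) (hb : |b| ≤ B) (hc : |c| ≤ C) :
    |g1 * a + g2 * b + g3 * c| ≤ G1 * A + G2 * B + G3 * C := by
  have e1 : |g1 * a| ≤ G1 * A := by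
    rw [abs_mul]; exact mul_le_mul h1 ha (abs_nonneg _) ((abs_nonneg _).trans h1)
  have e2 : |g2 * b| ≤ G2 * B := by
    rw [abs_mul]; exact mul_le_mul h2 hb (abs_nonneg _) ((abs_nonneg _).trans h2)
  have e3 : |g3 * c| ≤ G3 * C := by
    rw [abs_mul]; exact mul_le_mul h3 hc (abs_nonneg _) ((abs_nonneg _).trans h3)
  have := abs_add_three (g1 * a) (g2 * b) (g3 * c)
  linarith

theorem abs1 {g c G C : ℝ} (h : |g| ≤ G) (hc : |c| ≤ C) : -(G * C) ≤ g * c ∧ g * c ≤ G * C := by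
  rw [← abs_le, abs_mul]; exact mul_le_mul h hc (abs_nonneg _) ((abs_nonneg _).trans h)

theorem WI {g1 g2 h1 h2 h3 α σ τ : ℝ} (a1 : |g1| ≤ 1 / 2) (a2 : |g2| ≤ 0.30902)
    (b1 : |h1| ≤ 1 / 2) (b2 : |h2| ≤ 0.30902) (b3 : |h3| ≤ 0.80902)
    (c1 : 0.975 ≤ α) (c2 : α ≤ 1) (c3 : 0 ≤ σ) (c4 : σ ≤ (0.4003 + 0.2504) / 2)
    (c5 : |τ| ≤ 1.6181 * 0.025) :
    (ph - 1) / 2 * α + ph / 2 * σ + g1 * τ ≤ 0.593 ∧ 0.613 ≤ ph / 2 * α + -1 / 2 * σ + g2 * τ ∧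
      |h1 * α + h2 * σ + h3 * τ| ≤ 0.634 := by
  have := ph_lb; have := ph_ub
  have e1 := abs1 a1 c5
  have e2 := abs1 a2 c5
  have e3 := abs3 b1 b2 b3 (a := α) (A := 1) (b := σ) (B := 0.32535) (abs_le.2 ⟨by linarith, c2⟩)
    (abs_le.2 ⟨by linarith, by linarith⟩) c5
  refine ⟨by nlinarith [e1.2], by nlinarith [e2.1], by linarith⟩

theorem WD {g1 g2 h1 h2 h3 α σ τ : ℝ} (a1 : |g1| ≤ 0.30902) (a2 : |g2| ≤ 1 / 2)
    (b1 : |h1| ≤ 0.30902) (b2 : |h2| ≤ 1 / 2) (b3 : |h3| ≤ 0.80902)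
    (c1 : 0.975 ≤ α) (c2 : α ≤ 1) (c3 : 0 ≤ σ) (c4 : σ ≤ (0.4597 + 0.3373) / 2)
    (c5 : |τ| ≤ 2.6181 * 0.025) :
    -1 / 2 * α + ph / 2 * σ + g1 * τ ≤ -0.144 ∧ 0.755 ≤ ph / 2 * α + (ph - 1) / 2 * σ + g2 * τ ∧
      |h1 * α + h2 * σ + h3 * τ| ≤ 0.562 := by
  have := ph_lb; have := ph_ub
  have e1 := abs1 a1 c5
  have e2 := abs1 a2 c5
  have e3 := abs3 b1 b2 b3 (a := α) (A := 1) (b := σ) (B := 0.3985) (abs_le.2 ⟨by linarith, c2⟩)
    (abs_le.2 ⟨by linarith, by linarith⟩) c5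
  refine ⟨by nlinarith [e1.2], by nlinarith [e2.1], by linarith⟩

theorem rhoI {n s0 z0 s s' : ℝ} (n1 : 1.02176 < n) (n2 : n < 1.02177) (a1 : 0.0933 < s0)
    (a2 : s0 < 0.0934) (b1 : 0.1751 < z0) (hs : |s| ≤ 0.2) (h0 : 0 ≤ s')
    (h : n * (1 + s ^ 2) = 1 + s' ^ 2) :
    n * (s + s0) ≤ 0.85 * (s' + z0) ∧ -(0.85 * (s' + z0)) ≤ n * (s + s0) ∧ s' ≤ 0.2504 := by
  obtain ⟨s1, s2⟩ := abs_le.1 hs
  have l1 : 1.02176 * (1 + s ^ 2) ≤ 1 + s' ^ 2 := by nlinarith [sq_nonneg s]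
  have l2 : 1 + s' ^ 2 ≤ 1.02177 * (1 + s ^ 2) := by nlinarith [sq_nonneg s]
  have l3 : s ^ 2 ≤ 0.04 := by nlinarith
  have l4 : 0.147 ≤ s' := by nlinarith [sq_nonneg s]
  have l5 : s ≤ s' := by nlinarith [sq_nonneg s]
  refine ⟨?_, by nlinarith, by nlinarith⟩
  rcases le_total s 0.147 with h1 | h1
  · nlinarith
  · nlinarith

theorem rhoD {n s0 z0 s s' : ℝ} (n1 : 1.02176 < n) (n2 : n < 1.02177) (a1 : 0.151 < s0)
    (a2 : s0 < 0.15102) (b1 : 0.2122 < z0) (hs : |s| ≤ 0.3) (h0 : 0 ≤ s')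
    (h : n * (1 + s ^ 2) = 1 + s' ^ 2) :
    n * (s + s0) ≤ 0.87 * (s' + z0) ∧ -(0.87 * (s' + z0)) ≤ n * (s + s0) ∧ s' ≤ 0.3373 := by
  obtain ⟨s1, s2⟩ := abs_le.1 hs
  have l1 : 1.02176 * (1 + s ^ 2) ≤ 1 + s' ^ 2 := by nlinarith [sq_nonneg s]
  have l2 : 1 + s' ^ 2 ≤ 1.02177 * (1 + s ^ 2) := by nlinarith [sq_nonneg s]
  have l3 : s ^ 2 ≤ 0.09 := by nlinarith
  have l4 : 0.147 ≤ s' := by nlinarith [sq_nonneg s]
  refine ⟨?_, by nlinarith, by nlinarith⟩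
  rcases le_total s 0.1 with h1 | h1
  · nlinarith
  · have l5 : 1.1745 * s - 0.034 ≤ s' := by
      refine abs_le_of_sq_le_sq' ?_ h0 |>.2
      nlinarith
    nlinarith

theorem locI {c g13 g23 g31 g32 g33 s t p1 q1 r1 p2 q2 r2 : ℝ}
    (a13 : |g13| ≤ 1 / 2) (a23 : |g23| ≤ 0.30902) (a31 : |g31| ≤ 1 / 2) (a32 : |g32| ≤ 0.30902)
    (a33 : |g33| ≤ 0.80902) (hc : nu < c)
    (n1 : p1 ^ 2 + q1 ^ 2 + r1 ^ 2 = 1 + s ^ 2) (n2 : p2 ^ 2 + q2 ^ 2 + r2 ^ 2 = 1 + t ^ 2)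
    (gram : 1 / 2 + (ph - 1) / 2 * (s + t) + ph / 2 * s * t =
      (ph - 1) / 2 * p1 * p2 + ph / 2 * (p1 * q2 + q1 * p2) + -1 / 2 * q1 * q2
      + g13 * p1 * r2 + g23 * q1 * r2 + g31 * r1 * p2 + g32 * r1 * q2 + g33 * r1 * r2)
    (w1 : c * (p1 + (ph - 1) * r1) ≤ 1) (w1' : c * (p1 - (ph - 1) * r1) ≤ 1)
    (w2 : c * (p2 + (ph - 1) * r2) ≤ 1) (w2' : c * (p2 - (ph - 1) * r2) ≤ 1)
    (hp1 : 0.94 < p1) (hp2 : 0.94 < p2) (hq1 : 0 < q1) (hq2 : 0 < q2)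
    (hs : |s| ≤ 0.2) (ht : |t| ≤ 0.2) : False := by
  have f1 := ph_lb; have f2 := ph_ub; have k1 := kap_lb; have k2 := kap_ub
  have m1 := phk_lb; have m2 := phk_ub; have v1 := nu_sq_lb; have v2 := nu_sq_ub
  have h1 := nu_sq
  have h2 := kap_sq
  have h3 : ph ^ 2 = ph + 1 := phi_sq
  refine localCore (ν := nu) (κ := kap) (s0 := 8 / 5 - 6 / 5 * ph + 7 / 5 * kap - 4 / 5 * (ph * kap))
    (z0 := 4 / 3 + 1 / 3 * ph + 2 / 3 * kap - 2 / 3 * (ph * kap)) (ρ := 0.85) (C3 := 0.80902)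
    (D3 := 1 / 2) (L := 1.6181) (sm := 0.2) (Z := 0.2504) (Qb := 0.4003) (γ := 1.819)
    (Pm := 0.593) (Qm := 0.613) (Rm := 0.634) nu_lb.le ?_ ?_ ?_ ?_ (by linarith) (by linarith)
    (abs_le.2 ⟨by linarith, by linarith⟩) (by norm_num [abs_le]) (by nlinarith)
    (fun s s' hs h0 h => rhoI v1 v2 (by linarith) (by linarith) (by linarith) hs h0 h)
    (by linarith) (by norm_num) (by norm_num) (by norm_num) (by norm_num) (by norm_num)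
    (by norm_num) (by norm_num)
    (fun α σ τ c1 c2 c3 c4 c5 => WI a13 a23 a31 a32 a33 c1 c2 c3 c4 c5)
    (fun α σ τ c1 c2 c3 c4 c5 => WI a31 a32 a13 a23 a33 c1 c2 c3 c4 c5)
    hc n1 n2 gram w1 w1' w2 w2' hp1 hp2 hq1 hq2 hs ht
  all_goals
    clear * - h1 h2 h3
    generalize nu ^ 2 = t at *
    generalize kap = k at *
    generalize ph = p at *
    grind

theorem locD {c g13 g23 g31 g32 g33 s t p1 q1 r1 p2 q2 r2 : ℝ}
    (a13 : |g13| ≤ 0.30902) (a23 : |g23| ≤ 1 / 2) (a31 : |g31| ≤ 0.30902) (a32 : |g32| ≤ 1 / 2)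
    (a33 : |g33| ≤ 0.80902) (hc : nu < c)
    (n1 : p1 ^ 2 + q1 ^ 2 + r1 ^ 2 = 1 + s ^ 2) (n2 : p2 ^ 2 + q2 ^ 2 + r2 ^ 2 = 1 + t ^ 2)
    (gram : -((ph - 1) / 2) + 1 / 2 * (s + t) + ph / 2 * s * t =
      -1 / 2 * p1 * p2 + ph / 2 * (p1 * q2 + q1 * p2) + (ph - 1) / 2 * q1 * q2
      + g13 * p1 * r2 + g23 * q1 * r2 + g31 * r1 * p2 + g32 * r1 * q2 + g33 * r1 * r2)
    (w1 : c * (p1 + (2 - ph) * r1) ≤ 1) (w1' : c * (p1 - (2 - ph) * r1) ≤ 1)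
    (w2 : c * (p2 + (2 - ph) * r2) ≤ 1) (w2' : c * (p2 - (2 - ph) * r2) ≤ 1)
    (hp1 : 0.94 < p1) (hp2 : 0.94 < p2) (hq1 : 0 < q1) (hq2 : 0 < q2)
    (hs : |s| ≤ 0.3) (ht : |t| ≤ 0.3) : False := by
  have f1 := ph_lb; have f2 := ph_ub; have k1 := kap_lb; have k2 := kap_ub
  have m1 := phk_lb; have m2 := phk_ub; have v1 := nu_sq_lb; have v2 := nu_sq_ub
  have h1 := nu_sq
  have h2 := kap_sq
  have h3 : ph ^ 2 = ph + 1 := phi_sq
  refine localCore (ν := nu) (κ := kap) (s0 := -6 / 5 + 2 / 5 * ph - 4 / 5 * kap + 3 / 5 * (ph * kap))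
    (z0 := 1 / 5 - 7 / 5 * ph + 6 / 5 * kap - 2 / 5 * (ph * kap)) (ρ := 0.87) (C3 := 0.80902)
    (D3 := 0.30902) (L := 2.6181) (sm := 0.3) (Z := 0.3373) (Qb := 0.4597) (γ := 1.607)
    (Pm := -0.144) (Qm := 0.755) (Rm := 0.562) nu_lb.le ?_ ?_ ?_ ?_ (by linarith) (by linarith)
    (abs_le.2 ⟨by linarith, by linarith⟩) (abs_le.2 ⟨by linarith, by linarith⟩) (by nlinarith)
    (fun s s' hs h0 h => rhoD v1 v2 (by linarith) (by linarith) (by linarith) hs h0 h)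
    (by linarith) (by norm_num) (by norm_num) (by norm_num) (by norm_num) (by norm_num)
    (by norm_num) (by norm_num)
    (fun α σ τ c1 c2 c3 c4 c5 => WD a13 a23 a31 a32 a33 c1 c2 c3 c4 c5)
    (fun α σ τ c1 c2 c3 c4 c5 => WD a31 a32 a13 a23 a33 c1 c2 c3 c4 c5)
    hc n1 n2 gram w1 w1' w2 w2' hp1 hp2 hq1 hq2 hs ht
  all_goals
    clear * - h1 h2 h3
    generalize nu ^ 2 = t at *
    generalize kap = k at *
    generalize ph = p at *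
    grind

end Pool.Agent.Lib.MP_5fb7d4_co
end
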