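import Pool.Agent.Lib.MP_5fb7d4_co.Data

set_option autoImplicit false

namespace Pool.Agent.Lib.MP_5fb7d4_co

def treeD0 : T :=
(.x2 (.x2 (.lp [(0, 1), (2, 1)])
(.x3 (.x3 (.lp [(4, 1), (5, 1)])
(.x2 (.x2 (.lp [(2, 739786), (10, 3421), (22, 78), (74, 1)])
(.x3 (.lp [(2, 1)])
(.x1 (.x1 (.lp [(10, 1)])
(.lp [(10, 4044), (22, 1), (74, 1)]))
(.lp [(22, 19), (74, 1)]))))
(.x1 (.x1 (.lp [(10, 1)])
(.x3 (.x1 (.lp [(5, 1)])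
(.lp [(5, 5361), (22, 3), (84, 2), (93, 3)]))
(.lp [(28, 11), (74, 15), (122, 12)])))
(.x3 (.lp [(4, 26104), (22, 5), (28, 4), (84, 3)])
(.x1 (.x3 (.x1 (.lp [(44, 5), (101, 3)])
(.lp [(22, 2), (75, 1)]))
(.x1 (.x2 (.lp [(22, 4), (44, 9), (101, 3), (122, 9)])
(.x1 (.x1 (.lp [(44, 2), (101, 1)])
(.lp [(12, 2), (35, 8), (44, 42), (101, 14)]))
(.x1 (.lp [(12, 17), (35, 70), (44, 179), (101, 54)])
(.lp [(35, 92), (44, 136), (52, 58), (101, 62)]))))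
(.x1 (.x2 (.lp [(35, 2), (44, 3), (52, 3), (101, 1)])
(.x1 (.lp [(35, 9), (44, 7), (52, 7), (101, 5)])
(.lp [(35, 3), (52, 5), (101, 2)])))
(.lp [(52, 1)]))))
(.lp [(11, 1)]))))))
(.x3 (.x1 (.x1 (.lp [(10, 1)])
(.x3 (.x2 (.x1 (.lp [(10, 1)])
(.x3 (.x2 (.lp [(0, 8266), (74, 1)])
(.x1 (.lp [(10, 181189), (12, 33), (82, 11), (122, 216)])
(.lp [(74, 1)])))
(.x1 (.lp [(0, 5855), (10, 12187), (21, 2), (34, 8)])
(.lp [(0, 736), (61, 1)]))))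
(.x1 (.lp [(10, 3747), (82, 1)])
(.lp [(74, 1), (82, 4)])))
(.x1 (.lp [(7, 1)])
(.lp [(0, 35890), (7, 14746), (21, 5), (82, 9)]))))
(.x1 (.x3 (.x2 (.lp [(12, 9), (74, 8)])
(.x3 (.x2 (.x1 (.lp [(12, 1), (122, 239), (128, 33)])
(.lp [(12, 11), (88, 14), (122, 131)]))
(.x3 (.x2 (.x1 (.lp [(12, 1), (122, 212), (128, 113)])
(.lp [(12, 1), (122, 36), (128, 23)]))
(.u2 (.lp [(12, 1), (122, 106), (128, 80)])
(.lp [(82, 1), (88, 1), (122, 29), (128, 26)])))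
(.x1 (.lp [(61, 15), (82, 8)])
(.lp [(12, 1), (88, 1), (107, 1)]))))
(.lp [(12, 2), (82, 6), (88, 1)])))
(.x1 (.lp [(0, 9773), (21, 1), (82, 3)])
(.lp [(6, 1)])))
(.lp [(11, 1)])))
(.lp [(6, 1), (7, 1)]))))
(.x2 (.x3 (.x3 (.lp [(4, 1), (5, 1)])
(.x1 (.x1 (.lp [(8, 1)])
(.x3 (.x1 (.lp [(5, 1)])
(.lp [(84, 37), (93, 11)]))
(.x2 (.x3 (.lp [(8, 2428), (28, 3), (84, 1)])
(.x2 (.lp [(13, 1), (28, 6)])
(.x1 (.x2 (.lp [(8, 11938), (28, 6), (84, 2), (128, 9)])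
(.lp [(8, 68769), (53, 23), (128, 5)]))
(.x3 (.lp [(28, 2), (84, 2), (128, 6)])
(.lp [(44, 5), (53, 5), (128, 9)])))))
(.x1 (.lp [(8, 1)])
(.x3 (.x1 (.lp [(3, 121305), (53, 53), (84, 15), (103, 11)])
(.lp [(3, 1521), (53, 1)]))
(.x2 (.x3 (.x1 (.lp [(8, 125699), (13, 5), (44, 28), (53, 49), (115, 23), (128, 42)])
(.lp [(13, 2), (75, 1)]))
(.lp [(75, 1), (128, 5)]))
(.lp [(75, 1)])))))))
(.x1 (.x3 (.x1 (.lp [(3, 11699), (4, 43251), (84, 5), (101, 9)])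
(.lp [(4, 1)]))
(.x2 (.x3 (.lp [(28, 2), (75, 1)])
(.x1 (.x1 (.x1 (.lp [(44, 8), (75, 1), (101, 15), (128, 28)])
(.lp [(75, 5), (101, 18)]))
(.u1 (.lp [(75, 1), (101, 1), (128, 8)])
(.lp [(75, 1), (101, 2)])))
(.lp [(75, 1), (128, 16)])))
(.lp [(75, 1)])))
(.lp [(9, 1)]))))
(.x3 (.x2 (.x1 (.x3 (.x1 (.lp [(8, 1)])
(.x1 (.x2 (.lp [(82, 1)])
(.lp [(8, 7781), (13, 2), (82, 1), (128, 7)]))
(.lp [(13, 1)])))
(.lp [(7, 863869), (82, 130), (88, 165)]))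
(.x3 (.x1 (.x3 (.x1 (.u1 (.lp [(61, 3), (88, 1), (122, 5), (128, 23)])
(.lp [(107, 1), (128, 6)]))
(.lp [(61, 10), (88, 8), (128, 26)]))
(.lp [(82, 2), (88, 5)]))
(.lp [(9, 1)]))
(.lp [(6, 24223), (21, 5), (88, 8)])))
(.x2 (.x1 (.x3 (.lp [(8, 20485), (75, 2), (88, 10), (128, 25)])
(.lp [(1, 1)]))
(.x1 (.lp [(88, 1)])
(.lp [(9, 1)])))
(.lp [(1, 779520), (8, 2539), (75, 1), (88, 70)])))
(.lp [(6, 1), (7, 1)])))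
(.lp [(1, 1), (3, 1)])))

theorem checkD0 : check (tblOf VD UD0a UD0b UD0c edgesD0 pairsD 2527 2500)
    (locsOf UD0a UD0b UD0c []) treeD0 P0 B0 = true := by
  decide +kernel

theorem silD0 : (edgesD0.all fun e => silOK VD UD0a e && silOK VD UD0b e && silOK VD UD0c e) = true := by
  decide +kernel

end Pool.Agent.Lib.MP_5fb7d4_co
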