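import Pool.Agent.Lib.MP_5fb7d4_co.Data

set_option autoImplicit false

namespace Pool.Agent.Lib.MP_5fb7d4_co

def treeD1 : T :=
(.x3 (.x3 (.lp [(4, 1), (5, 1)])
(.x1 (.x1 (.lp [(8, 1), (10, 1)])
(.x2 (.x2 (.lp [(2, 1)])
(.x1 (.x3 (.lp [(5, 1)])
(.x2 (.lp [(10, 1)])
(.u1 (.lp [(28, 2), (94, 1)])
(.x3 (.x1 (.lp [(10, 2856), (28, 1), (73, 1)])
(.lp [(10, 4640), (28, 7), (73, 5)]))
(.lp [(10, 240890), (28, 175), (34, 38), (53, 78)])))))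
(.x3 (.x2 (.lp [(2, 1)])
(.x3 (.lp [(5, 10149), (81, 1)])
(.x1 (.x2 (.lp [(22, 1), (44, 4), (104, 8)])
(.lp [(28, 1), (68, 2)]))
(.x2 (.lp [(81, 1), (104, 1)])
(.lp [(28, 1), (68, 1)])))))
(.x2 (.x1 (.x2 (.lp [(10, 11959), (22, 10), (34, 3), (81, 8)])
(.u2 (.u1 (.lp [(94, 1)])
(.x3 (.x3 (.lp [(2, 13518), (10, 7075), (44, 5), (94, 1)])
(.lp [(10, 11925), (28, 5), (81, 11), (94, 5)]))
(.u1 (.lp [(28, 2), (34, 16), (44, 4), (81, 11)])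
(.u2 (.x1 (.x3 (.lp [(10, 12052), (28, 3), (34, 2), (81, 5)])
(.x2 (.lp [(10, 3085), (34, 1), (44, 1)])
(.lp [(28, 2), (34, 6), (44, 5)])))
(.u2 (.x2 (.lp [(34, 1), (44, 1), (81, 1)])
(.lp [(34, 3), (44, 4), (81, 2)]))
(.lp [(34, 2), (44, 2), (81, 1)])))
(.lp [(28, 2), (34, 14), (44, 3), (81, 10)])))))
(.lp [(94, 1)])))
(.lp [(34, 1), (81, 15)]))
(.x3 (.x2 (.x3 (.x1 (.lp [(44, 12), (73, 11), (81, 10), (94, 1)])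
(.lp [(44, 1)]))
(.lp [(28, 43), (44, 57), (94, 17)]))
(.lp [(28, 1), (44, 2)]))
(.x1 (.x2 (.u1 (.lp [(34, 4), (44, 3)])
(.x3 (.lp [(28, 4), (34, 3), (44, 5)])
(.x1 (.lp [(34, 3), (44, 3), (53, 2)])
(.x2 (.u2 (.lp [(28, 2), (34, 13), (44, 19)])
(.lp [(34, 1)]))
(.lp [(34, 4), (44, 7), (53, 2)])))))
(.lp [(34, 18), (44, 22), (53, 43), (81, 11)]))
(.x3 (.lp [(34, 1), (44, 7), (81, 7)])
(.x2 (.x1 (.u2 (.x2 (.lp [(34, 17), (44, 37), (61, 16), (81, 11)])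
(.u1 (.lp [(34, 2), (44, 5)])
(.lp [(34, 1), (44, 4)])))
(.lp [(34, 2), (44, 3)]))
(.lp [(81, 1)]))
(.x3 (.lp [(28, 5), (34, 1), (44, 12)])
(.x1 (.u1 (.u1 (.lp [(34, 4), (44, 9), (53, 2)])
(.lp [(34, 62), (44, 244), (53, 58)]))
(.u2 (.lp [(44, 1)])
(.lp [(28, 2), (34, 1), (44, 4)])))
(.x2 (.lp [(28, 3), (34, 5), (44, 35), (61, 34)])
(.u1 (.lp [(28, 3), (34, 1), (44, 15), (61, 6)])
(.lp [(28, 1), (44, 2)])))))))))))))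
(.x2 (.x3 (.x1 (.lp [(5, 1)])
(.x2 (.x3 (.lp [(5, 25666), (50, 1), (81, 2)])
(.u2 (.u1 (.lp [(3, 17309), (28, 5), (44, 13)])
(.x1 (.x3 (.lp [(5, 1)])
(.x2 (.lp [(44, 41), (50, 33), (53, 5), (73, 53), (81, 23)])
(.lp [(44, 1), (53, 2), (73, 2)])))
(.x3 (.x1 (.x2 (.lp [(44, 5), (50, 16), (53, 16), (68, 23)])
(.lp [(50, 17), (53, 11), (81, 6), (104, 5)]))
(.lp [(44, 1), (50, 7), (53, 1), (81, 10)]))
(.lp [(44, 12), (50, 11), (53, 13), (81, 26)]))))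
(.lp [(3, 1166), (44, 1)])))
(.lp [(3, 1)])))
(.x1 (.x2 (.x3 (.x1 (.lp [(5, 10602), (8, 10789), (28, 1), (44, 4)])
(.lp [(8, 19607), (28, 1), (44, 18), (73, 11)]))
(.x1 (.lp [(8, 3622), (53, 1)])
(.x2 (.lp [(8, 8870), (28, 1), (53, 4)])
(.lp [(8, 27386), (44, 5), (53, 13)]))))
(.lp [(8, 1)]))
(.x2 (.x2 (.lp [(28, 3), (44, 31), (53, 41), (81, 2)])
(.x1 (.lp [(8, 2902), (44, 2), (53, 3)])
(.lp [(95, 1)])))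
(.x3 (.lp [(3, 14441), (53, 2), (95, 3)])
(.u2 (.u2 (.u1 (.lp [(3, 40529), (87, 3), (95, 19)])
(.u1 (.x1 (.lp [(3, 1503), (95, 1)])
(.lp [(3, 41769), (81, 5), (87, 7), (95, 19)]))
(.x1 (.x2 (.lp [(3, 864), (95, 1)])
(.lp [(3, 3482), (95, 1)]))
(.x2 (.x3 (.lp [(3, 2249), (81, 1), (95, 1)])
(.x1 (.x2 (.lp [(95, 1)])
(.lp [(95, 6), (109, 5)]))
(.x2 (.lp [(81, 2), (87, 2), (95, 1)])
(.lp [(23, 20), (81, 32), (87, 17), (95, 20)]))))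
(.lp [(3, 12587), (23, 4), (95, 2)])))))
(.lp [(3, 40529), (87, 3), (95, 19)]))
(.lp [(95, 1)]))))))
(.lp [(3, 1)]))))
(.x1 (.x3 (.x1 (.x3 (.lp [(4, 1506700), (28, 1), (50, 34), (81, 159)])
(.x2 (.x2 (.lp [(2, 1)])
(.x2 (.lp [(2, 1)])
(.x1 (.x2 (.lp [(2, 50888), (4, 300029), (44, 5), (81, 161)])
(.lp [(28, 21), (104, 1)]))
(.x2 (.x2 (.x1 (.lp [(2, 112956), (22, 42), (28, 37), (44, 17), (72, 124), (81, 81), (95, 46)])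
(.lp [(22, 1), (72, 4)]))
(.lp [(4, 17233), (22, 2), (44, 4), (95, 13)]))
(.lp [(28, 6), (95, 2), (104, 1)])))))
(.x1 (.lp [(3, 231), (4, 1816), (81, 1)])
(.x1 (.lp [(4, 30251), (81, 13), (95, 1)])
(.x2 (.x2 (.lp [(4, 50905), (81, 8), (95, 2)])
(.lp [(3, 1)]))
(.lp [(3, 1)]))))))
(.lp [(4, 1)]))
(.x1 (.x2 (.x2 (.lp [(2, 1)])
(.x1 (.x3 (.lp [(2, 351), (81, 1)])
(.x1 (.x3 (.lp [(81, 1)])
(.lp [(81, 3), (87, 2)]))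
(.x3 (.x2 (.lp [(44, 2), (81, 1)])
(.lp [(44, 1), (81, 4)]))
(.x1 (.u2 (.x2 (.u1 (.lp [(44, 9), (52, 5), (81, 8)])
(.lp [(44, 3), (81, 2), (87, 3)]))
(.x3 (.lp [(44, 1), (81, 5)])
(.u3 (.lp [(61, 1), (81, 2)])
(.u1 (.x2 (.lp [(44, 3), (52, 1), (61, 2)])
(.x2 (.lp [(35, 33), (44, 117), (52, 26), (61, 106)])
(.lp [(35, 5), (44, 8)])))
(.x2 (.lp [(44, 2), (61, 1)])
(.lp [(44, 2), (61, 5)]))))))
(.x2 (.lp [(34, 1), (81, 2)])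
(.lp [(35, 11), (44, 44), (52, 14), (81, 62), (87, 76)])))
(.x2 (.x2 (.lp [(52, 9), (61, 5)])
(.u1 (.lp [(22, 1)])
(.lp [(44, 17), (52, 18), (61, 23)])))
(.u3 (.lp [(61, 1), (81, 1)])
(.x2 (.u1 (.x3 (.lp [(44, 1)])
(.x2 (.lp [(52, 1)])
(.x3 (.x2 (.lp [(44, 1)])
(.lp [(35, 3), (44, 8), (52, 4), (61, 7)]))
(.lp [(35, 3), (44, 12), (52, 10), (61, 21)]))))
(.x2 (.lp [(44, 10), (52, 2), (61, 8)])
(.x3 (.lp [(35, 1), (44, 3), (61, 1)])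
(.u2 (.loc 0)
(.x3 (.x2 (.lp [(44, 1)])
(.lp [(35, 5), (44, 13), (52, 5), (61, 12)]))
(.lp [(44, 2), (52, 3), (61, 8)]))))))
(.x2 (.x3 (.lp [(35, 12), (44, 11)])
(.u1 (.x2 (.x1 (.lp [(35, 7), (44, 19), (52, 5), (61, 17)])
(.lp [(35, 26), (44, 53), (52, 17), (61, 52)]))
(.lp [(35, 2), (44, 4), (52, 1), (61, 4)]))
(.u3 (.lp [(44, 2), (61, 3)])
(.lp [(35, 1), (44, 2), (61, 2)]))))
(.lp [(35, 1)])))))))))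
(.x2 (.x3 (.lp [(22, 4), (44, 1)])
(.x2 (.lp [(44, 1), (52, 2)])
(.u1 (.lp [(22, 1)])
(.u1 (.lp [(22, 12), (44, 8), (52, 22), (61, 14)])
(.x1 (.x3 (.u2 (.lp [(35, 5), (44, 14), (52, 10)])
(.lp [(22, 1)]))
(.x2 (.lp [(44, 2), (52, 4), (61, 3)])
(.x3 (.x1 (.lp [(44, 8), (52, 2), (61, 5)])
(.u2 (.lp [(35, 11), (44, 27), (52, 38), (61, 33)])
(.lp [(22, 1)])))
(.lp [(44, 2), (52, 5), (61, 6)]))))
(.x3 (.lp [(52, 1)])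
(.lp [(52, 2), (61, 1)])))))))
(.x2 (.x3 (.u1 (.lp [(22, 1)])
(.u2 (.u2 (.x3 (.x2 (.lp [(22, 12), (28, 10), (95, 5)])
(.lp [(22, 58), (28, 91)]))
(.u1 (.lp [(22, 2), (35, 4), (81, 3)])
(.x2 (.x1 (.x3 (.u1 (.lp [(22, 3), (28, 2)])
(.lp [(22, 8), (28, 9), (35, 3), (44, 2)]))
(.lp [(35, 119), (44, 58), (81, 69)]))
(.lp [(22, 1), (35, 4)]))
(.x1 (.lp [(22, 1), (28, 2), (35, 6), (81, 5)])
(.lp [(35, 1)])))))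
(.lp [(22, 9), (35, 11), (44, 5), (81, 11), (95, 7)]))
(.lp [(35, 1), (44, 1)])))
(.x3 (.u2 (.u1 (.lp [(22, 1), (35, 2), (44, 3)])
(.x1 (.x2 (.x1 (.lp [(35, 2), (44, 3)])
(.u1 (.lp [(35, 2), (44, 3)])
(.lp [(35, 17), (44, 16), (81, 3)])))
(.lp [(35, 14), (44, 8), (81, 1)]))
(.u2 (.lp [(35, 3), (52, 2)])
(.lp [(35, 6), (44, 5)]))))
(.lp [(35, 1), (44, 2)]))
(.x1 (.u1 (.x2 (.lp [(22, 3), (61, 1)])
(.x3 (.lp [(35, 8), (44, 13)])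
(.u2 (.x1 (.x3 (.u2 (.lp [(35, 5), (44, 11), (52, 8), (61, 10)])
(.lp [(35, 1), (44, 3)]))
(.lp [(35, 3), (44, 11), (52, 18), (61, 31)]))
(.lp [(35, 11), (44, 14), (52, 36), (61, 44)]))
(.lp [(44, 6), (52, 5), (61, 8)]))))
(.x2 (.u2 (.u3 (.u2 (.loc 0)
(.u3 (.lp [(44, 2), (61, 3)])
(.loc 0)))
(.loc 0))
(.x3 (.lp [(44, 6), (52, 1)])
(.u1 (.lp [(44, 58), (52, 72), (61, 80)])
(.lp [(44, 11), (52, 12), (61, 19)]))))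
(.u3 (.x3 (.lp [(35, 11), (44, 16), (61, 25)])
(.lp [(44, 2), (61, 5)]))
(.x3 (.x2 (.u2 (.u1 (.loc 0)
(.lp [(35, 3), (44, 2), (61, 2)]))
(.u2 (.lp [(35, 21), (44, 31), (61, 1)])
(.lp [(35, 3), (44, 5)])))
(.lp [(35, 8), (44, 7), (61, 2)]))
(.x1 (.u2 (.loc 0)
(.u3 (.lp [(44, 5), (52, 1), (61, 7)])
(.u3 (.x3 (.x2 (.u2 (.loc 0)
(.lp [(44, 2), (52, 2), (61, 3)]))
(.lp [(35, 5), (44, 9), (52, 5), (61, 11)]))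
(.lp [(52, 5), (61, 11)]))
(.loc 0))))
(.x2 (.u2 (.loc 0)
(.u3 (.u1 (.lp [(35, 1), (44, 2), (52, 3), (61, 4)])
(.lp [(35, 1), (44, 2), (52, 2), (61, 4)]))
(.u2 (.loc 0)
(.lp [(35, 8), (44, 8), (52, 16), (61, 20)]))))
(.u2 (.lp [(35, 1)])
(.lp [(35, 16), (44, 11), (52, 28), (61, 42)]))))))))
(.u1 (.u2 (.lp [(35, 5), (52, 17), (61, 6)])
(.u3 (.lp [(35, 2), (44, 9), (52, 15), (61, 16)])
(.lp [(35, 5), (52, 17), (61, 6)])))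
(.x2 (.x1 (.x3 (.u2 (.x2 (.lp [(35, 1), (44, 1), (52, 7), (61, 5)])
(.lp [(35, 29), (44, 26), (52, 34), (61, 32)]))
(.lp [(35, 4), (44, 9), (52, 2)]))
(.lp [(52, 12), (61, 11)]))
(.lp [(52, 2), (61, 1)]))
(.x3 (.lp [(35, 28), (52, 17), (81, 17)])
(.u3 (.lp [(35, 5), (44, 2), (52, 24), (61, 31)])
(.lp [(35, 3), (52, 7), (61, 5)]))))))))
(.x3 (.lp [(35, 1), (95, 2)])
(.x3 (.lp [(22, 1), (35, 17), (81, 6)])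
(.x2 (.x1 (.u1 (.x3 (.lp [(35, 1), (44, 1)])
(.x1 (.x1 (.lp [(35, 30), (44, 47), (52, 17), (61, 47)])
(.lp [(35, 9), (44, 11), (52, 5), (61, 12)]))
(.lp [(22, 8), (35, 9), (61, 14)])))
(.lp [(35, 22), (61, 10), (81, 8)]))
(.lp [(35, 1)]))
(.lp [(35, 1)]))))))))
(.x2 (.u2 (.x2 (.u1 (.lp [(95, 1)])
(.x1 (.x2 (.lp [(35, 6), (81, 16), (95, 1)])
(.lp [(13, 1), (81, 3)]))
(.x3 (.x1 (.lp [(81, 1)])
(.u1 (.lp [(13, 1), (95, 2)])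
(.x2 (.x2 (.lp [(28, 1)])
(.x3 (.lp [(28, 1)])
(.lp [(13, 2), (28, 3)])))
(.x3 (.lp [(13, 19), (72, 50), (81, 54), (95, 8)])
(.lp [(13, 7), (81, 1), (95, 3)])))))
(.x2 (.x1 (.lp [(35, 1), (81, 1)])
(.lp [(13, 8), (35, 14), (95, 1)]))
(.lp [(13, 4), (95, 1)])))))
(.x1 (.x2 (.x3 (.lp [(53, 1)])
(.lp [(23, 26), (35, 86), (81, 281)]))
(.lp [(3, 27660), (13, 4), (35, 2), (109, 10)]))
(.x2 (.lp [(13, 3), (81, 4)])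
(.lp [(3, 3482), (13, 1)]))))
(.x2 (.lp [(95, 1)])
(.lp [(3, 2030), (35, 1), (81, 1)])))
(.lp [(3, 1)])))
(.x1 (.x2 (.x2 (.lp [(2, 1)])
(.x2 (.lp [(11, 1)])
(.x3 (.x2 (.lp [(22, 1), (35, 4), (95, 3)])
(.lp [(28, 8), (35, 11), (95, 2)]))
(.x2 (.x2 (.lp [(52, 1)])
(.lp [(35, 5), (52, 19), (61, 4), (81, 1)]))
(.lp [(35, 1)])))))
(.x2 (.x2 (.u2 (.u1 (.lp [(9, 2531), (35, 1), (95, 1)])
(.x3 (.x2 (.x3 (.lp [(28, 1), (72, 1)])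
(.x1 (.x2 (.lp [(28, 1), (35, 1)])
(.x2 (.lp [(13, 3), (28, 7), (35, 3), (49, 3)])
(.lp [(13, 3), (28, 3), (35, 1), (72, 1)])))
(.lp [(35, 7), (49, 2), (72, 16)])))
(.x3 (.lp [(13, 28), (72, 63), (81, 17), (95, 19)])
(.lp [(13, 20), (49, 26), (95, 17)])))
(.x2 (.x2 (.x1 (.lp [(35, 1)])
(.lp [(35, 12), (49, 5)]))
(.x1 (.lp [(13, 8), (35, 10)])
(.lp [(9, 254075), (13, 38), (35, 188), (49, 89), (61, 51)])))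
(.lp [(9, 5208), (13, 3), (35, 2)]))))
(.lp [(35, 1)]))
(.lp [(9, 1)]))
(.lp [(3, 1)])))
(.x2 (.x3 (.lp [(11, 987667), (35, 90), (72, 86)])
(.lp [(11, 10214), (35, 1)]))
(.x3 (.x2 (.lp [(9, 8527), (35, 1), (72, 1)])
(.lp [(3, 1)]))
(.lp [(9, 10140), (35, 1)]))))))
(.lp [(9, 1), (11, 1)]))))
(.x3 (.x1 (.x1 (.lp [(8, 1), (10, 1)])
(.x2 (.x2 (.lp [(0, 1)])
(.x2 (.x3 (.x1 (.lp [(10, 1)])
(.x2 (.lp [(0, 4904), (102, 1)])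
(.u1 (.lp [(102, 1)])
(.u2 (.x3 (.x1 (.x1 (.lp [(34, 2), (53, 1)])
(.x3 (.u2 (.x2 (.lp [(34, 3), (44, 2), (61, 2)])
(.u1 (.lp [(34, 1)])
(.loc 1)))
(.lp [(34, 1)]))
(.lp [(34, 1), (53, 1), (61, 2)])))
(.u2 (.lp [(34, 5), (44, 9), (61, 30)])
(.lp [(34, 1), (61, 2)])))
(.x1 (.lp [(61, 1), (102, 4)])
(.lp [(61, 1)])))
(.lp [(102, 1)])))))
(.lp [(0, 1)]))
(.x3 (.x1 (.x3 (.lp [(28, 5), (34, 26), (53, 55)])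
(.x1 (.lp [(7, 2727), (53, 1)])
(.x2 (.lp [(13, 4), (53, 7), (102, 1)])
(.u2 (.lp [(7, 3909), (13, 1), (53, 6), (108, 3)])
(.lp [(13, 1), (102, 1)])))))
(.x1 (.x2 (.u2 (.x3 (.u1 (.lp [(34, 18), (53, 13), (61, 5)])
(.x1 (.lp [(34, 1), (53, 2)])
(.x3 (.x1 (.x2 (.u1 (.lp [(34, 3), (53, 2)])
(.lp [(34, 5), (44, 2), (53, 5)]))
(.lp [(34, 1), (53, 2)]))
(.x2 (.u2 (.loc 1)
(.lp [(34, 2), (53, 1)]))
(.u1 (.u2 (.loc 1)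
(.lp [(34, 1), (53, 1)]))
(.lp [(44, 2), (53, 12), (61, 2)]))))
(.x2 (.u1 (.lp [(34, 1), (61, 1)])
(.lp [(53, 1), (61, 1)]))
(.lp [(53, 8), (61, 5)])))))
(.u1 (.lp [(102, 1)])
(.u1 (.x1 (.lp [(13, 1), (53, 1), (102, 2)])
(.lp [(13, 4), (53, 3), (61, 6), (102, 3)]))
(.x2 (.x3 (.x1 (.lp [(53, 6), (102, 1)])
(.u2 (.u1 (.lp [(53, 3), (61, 3), (102, 3), (108, 2)])
(.x3 (.x1 (.lp [(53, 2), (61, 1)])
(.lp [(53, 27), (61, 29), (102, 8), (108, 12)]))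
(.u2 (.lp [(53, 26), (61, 17), (102, 61), (108, 68)])
(.lp [(102, 3), (108, 2)]))))
(.lp [(102, 1)])))
(.lp [(13, 5), (102, 10), (108, 8)]))
(.x3 (.u2 (.x3 (.x1 (.lp [(53, 1)])
(.lp [(53, 32), (61, 15), (102, 11), (108, 26)]))
(.lp [(53, 1), (102, 1), (108, 2)]))
(.lp [(53, 11), (102, 29), (108, 30)]))
(.lp [(13, 5), (102, 1)]))))))
(.lp [(34, 17), (102, 21)]))
(.x3 (.u1 (.lp [(34, 1), (53, 4)])
(.lp [(53, 1)]))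
(.lp [(13, 2), (53, 1)])))
(.x3 (.x2 (.x1 (.u2 (.x3 (.x2 (.u1 (.lp [(34, 1), (61, 2)])
(.x1 (.u2 (.loc 1)
(.u2 (.loc 1)
(.lp [(34, 1)])))
(.lp [(34, 1), (44, 3), (61, 9)])))
(.x3 (.u3 (.x2 (.x1 (.u1 (.x3 (.u1 (.lp [(34, 1)])
(.lp [(34, 39), (44, 76), (53, 26), (61, 53)]))
(.x1 (.lp [(34, 17), (44, 26), (53, 25), (61, 38)])
(.lp [(34, 17), (44, 29), (53, 26), (61, 47)])))
(.u3 (.lp [(34, 2), (44, 4), (53, 8), (61, 8)])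
(.loc 1)))
(.u1 (.lp [(34, 58), (44, 120), (53, 75), (61, 184)])
(.lp [(34, 5), (44, 12), (53, 9), (61, 21)])))
(.u3 (.x1 (.lp [(34, 1), (53, 9)])
(.lp [(34, 5), (44, 13), (53, 17), (61, 27)]))
(.x1 (.x1 (.lp [(34, 5), (53, 22)])
(.u1 (.x3 (.lp [(34, 17), (44, 35), (53, 30), (61, 43)])
(.lp [(34, 2), (44, 4), (53, 5), (61, 8)]))
(.u3 (.lp [(34, 5), (44, 10), (53, 17), (61, 17)])
(.loc 1))))
(.x3 (.u1 (.lp [(34, 5), (44, 14), (53, 6), (61, 18)])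
(.lp [(34, 1), (44, 3), (53, 2), (61, 4)]))
(.lp [(44, 1), (53, 8), (61, 21)])))))
(.x1 (.u1 (.x3 (.lp [(34, 8), (44, 15), (53, 5), (61, 14)])
(.lp [(34, 13), (44, 22), (53, 11), (61, 28)]))
(.u2 (.loc 1)
(.x2 (.x3 (.lp [(34, 30), (44, 62), (61, 17)])
(.x1 (.u1 (.lp [(34, 5), (61, 7)])
(.x2 (.lp [(34, 17), (44, 11), (61, 15)])
(.u1 (.x1 (.lp [(34, 1), (53, 1)])
(.lp [(34, 8), (44, 13), (53, 10), (61, 18)]))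
(.x1 (.lp [(34, 1), (53, 1)])
(.lp [(34, 17), (44, 29), (53, 25), (61, 42)])))))
(.u2 (.lp [(34, 5), (44, 11), (53, 6), (61, 17)])
(.lp [(61, 1)]))))
(.x3 (.x1 (.lp [(34, 16), (44, 33), (53, 6), (61, 3)])
(.x2 (.lp [(34, 6), (44, 14), (53, 5), (61, 10)])
(.lp [(34, 8), (44, 19), (53, 10), (61, 17)])))
(.u2 (.u2 (.loc 1)
(.u3 (.lp [(34, 3), (53, 9), (61, 14)])
(.loc 1)))
(.lp [(34, 5), (53, 21), (61, 46)]))))))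
(.x2 (.lp [(34, 1), (44, 4), (61, 6)])
(.u2 (.lp [(34, 1), (44, 6), (61, 8)])
(.lp [(34, 50), (44, 220), (53, 38), (61, 354)])))))
(.u1 (.lp [(34, 5), (53, 7), (61, 15)])
(.u3 (.lp [(53, 17), (61, 24)])
(.u1 (.lp [(53, 5), (61, 11)])
(.lp [(53, 17), (61, 24)]))))))
(.x2 (.lp [(61, 1)])
(.x2 (.lp [(53, 1), (61, 2)])
(.lp [(53, 88), (61, 74), (87, 23), (102, 10), (108, 8)]))))
(.x3 (.lp [(34, 3), (53, 2), (61, 5)])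
(.lp [(102, 1)])))
(.u1 (.lp [(34, 1), (61, 7), (81, 1)])
(.lp [(61, 1)])))
(.x1 (.x2 (.x3 (.x3 (.u3 (.x2 (.x1 (.lp [(34, 1), (53, 8)])
(.u1 (.lp [(34, 1), (44, 2), (53, 3), (61, 4)])
(.lp [(34, 5), (44, 13), (53, 24), (61, 26)])))
(.lp [(34, 1), (53, 12), (61, 6)]))
(.u1 (.u2 (.u2 (.x2 (.x1 (.u2 (.lp [(34, 17), (44, 46), (53, 29), (61, 50)])
(.lp [(34, 3), (44, 7), (53, 5), (61, 8)]))
(.lp [(34, 3), (44, 14), (53, 4), (61, 19)]))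
(.lp [(34, 5), (44, 18), (53, 13), (61, 22)]))
(.lp [(34, 58), (44, 121), (53, 89), (61, 166)]))
(.lp [(34, 1)]))
(.x2 (.x1 (.x3 (.u2 (.lp [(44, 2), (53, 1)])
(.lp [(34, 26), (44, 61), (53, 41), (61, 54)]))
(.lp [(34, 1), (53, 86), (61, 91)]))
(.u2 (.lp [(44, 1), (53, 1), (61, 2)])
(.x3 (.u1 (.lp [(34, 17), (44, 52), (53, 25), (61, 66)])
(.lp [(34, 8), (44, 22), (53, 15), (61, 27)]))
(.lp [(53, 1), (61, 2)]))))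
(.u3 (.lp [(34, 3), (44, 11), (53, 19), (61, 19)])
(.lp [(34, 1), (44, 5), (53, 7), (61, 8)])))))
(.u1 (.lp [(53, 4), (61, 6), (102, 1)])
(.lp [(53, 12), (61, 11)])))
(.x3 (.lp [(53, 7), (61, 5)])
(.lp [(13, 263), (53, 445), (61, 258), (87, 168), (102, 58)])))
(.u1 (.u3 (.lp [(53, 14), (87, 4), (102, 1)])
(.lp [(34, 1), (53, 18), (61, 21)]))
(.lp [(13, 2), (53, 6), (87, 1)])))
(.x3 (.x3 (.x1 (.x2 (.u3 (.u1 (.lp [(34, 5), (44, 13), (53, 19), (61, 36)])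
(.lp [(44, 1), (53, 5), (61, 9)]))
(.lp [(34, 17), (44, 192), (53, 21), (61, 425)]))
(.u3 (.lp [(34, 5), (53, 100), (61, 77)])
(.u1 (.lp [(34, 1), (44, 5), (53, 4), (61, 9)])
(.lp [(44, 1), (53, 3), (61, 5)]))))
(.x2 (.lp [(61, 3), (81, 1)])
(.u1 (.lp [(34, 2), (44, 8), (53, 8), (61, 20), (87, 12)])
(.lp [(53, 1), (61, 2)]))))
(.x2 (.lp [(53, 1), (61, 4)])
(.lp [(53, 3), (61, 3), (87, 1)])))
(.lp [(61, 17), (87, 15), (102, 1)]))))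
(.x2 (.u2 (.x3 (.x2 (.lp [(61, 1)])
(.u2 (.lp [(61, 2), (108, 1)])
(.lp [(102, 5), (108, 6)])))
(.lp [(87, 19), (102, 5)]))
(.lp [(102, 1)]))
(.lp [(13, 19), (87, 17), (102, 5)])))))
(.x1 (.lp [(7, 1)])
(.u1 (.lp [(7, 3700), (21, 1), (102, 1), (108, 1)])
(.x3 (.x2 (.x1 (.x2 (.lp [(0, 29820), (13, 28), (77, 14), (87, 11), (102, 14)])
(.lp [(7, 1197), (13, 3), (102, 1)]))
(.x1 (.x3 (.u2 (.lp [(0, 443360), (13, 1414), (42, 484), (77, 195), (87, 1885), (102, 589)])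
(.lp [(42, 1)]))
(.lp [(7, 10856), (13, 6), (21, 5), (77, 11), (87, 12)]))
(.lp [(7, 24936), (21, 5), (87, 19)])))
(.lp [(13, 3), (42, 1), (108, 11)]))
(.x1 (.lp [(7, 1)])
(.lp [(7, 9467), (87, 1)]))))))))
(.x2 (.x3 (.x1 (.x2 (.x1 (.x3 (.lp [(8, 5084), (53, 1)])
(.lp [(8, 6070), (53, 1), (77, 1)]))
(.x3 (.x2 (.u1 (.lp [(53, 3), (102, 1)])
(.x2 (.u1 (.lp [(53, 9), (102, 1)])
(.lp [(53, 11), (63, 5)]))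
(.x3 (.lp [(8, 5104), (53, 7), (63, 3)])
(.x1 (.lp [(8, 5808), (53, 19), (63, 17)])
(.u2 (.x3 (.lp [(53, 2), (63, 1)])
(.u2 (.x2 (.u2 (.lp [(53, 2), (63, 1), (95, 1), (108, 1)])
(.lp [(53, 3), (63, 2), (95, 1), (108, 2)]))
(.lp [(53, 8), (63, 7), (95, 6), (108, 5)]))
(.lp [(53, 13), (63, 11), (95, 3), (108, 9)])))
(.lp [(53, 1), (77, 1)]))))))
(.x1 (.lp [(8, 1)])
(.x2 (.x3 (.lp [(13, 5), (53, 89), (63, 69), (95, 14)])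
(.u2 (.lp [(13, 5), (53, 11), (63, 18), (95, 9)])
(.lp [(53, 3), (63, 4), (108, 2)])))
(.lp [(8, 2691), (95, 1)]))))
(.x2 (.x1 (.lp [(53, 7), (63, 3), (77, 12)])
(.x2 (.lp [(53, 2), (108, 3)])
(.x2 (.u1 (.lp [(13, 1)])
(.lp [(53, 86), (63, 123), (95, 108), (108, 300)]))
(.lp [(13, 8), (53, 10), (77, 36), (95, 81), (108, 84)]))))
(.x1 (.lp [(8, 1)])
(.lp [(13, 20), (63, 5), (77, 55), (95, 46)])))))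
(.lp [(8, 1)]))
(.x2 (.u1 (.lp [(13, 1)])
(.x1 (.x3 (.x2 (.x2 (.lp [(53, 2), (108, 1)])
(.x2 (.u2 (.lp [(13, 1), (53, 4), (95, 2), (108, 1)])
(.lp [(13, 1), (53, 2)]))
(.x3 (.lp [(53, 1)])
(.lp [(13, 9), (53, 3), (95, 11)]))))
(.u2 (.lp [(13, 1), (95, 3)])
(.lp [(13, 3), (53, 2), (95, 4)])))
(.u1 (.lp [(13, 5), (95, 2)])
(.u2 (.x2 (.x2 (.lp [(108, 1)])
(.x3 (.u2 (.lp [(13, 17), (95, 29), (108, 20)])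
(.lp [(13, 1)]))
(.lp [(108, 1)])))
(.x1 (.u2 (.x3 (.x2 (.lp [(13, 2), (95, 3)])
(.lp [(95, 1)]))
(.x2 (.lp [(13, 5), (77, 32), (87, 28)])
(.lp [(77, 1), (87, 1)])))
(.lp [(35, 2), (95, 8), (108, 10)]))
(.lp [(13, 1), (87, 2)])))
(.lp [(13, 3), (95, 1)]))))
(.x2 (.x3 (.lp [(13, 1), (53, 1)])
(.lp [(13, 1)]))
(.lp [(13, 17), (87, 43), (95, 20)]))))
(.x1 (.x1 (.lp [(1, 269352), (23, 17), (87, 22), (95, 139)])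
(.x2 (.lp [(23, 20), (87, 17), (95, 30)])
(.lp [(87, 24), (95, 5)])))
(.lp [(35, 1), (87, 11)]))))
(.x2 (.x1 (.lp [(7, 1)])
(.x3 (.x2 (.lp [(13, 54), (108, 26)])
(.x1 (.x1 (.lp [(7, 125853), (13, 8), (23, 16), (77, 62), (87, 51)])
(.u2 (.lp [(1, 19769), (7, 34287), (13, 8), (77, 5), (87, 15)])
(.lp [(48, 1)])))
(.lp [(1, 8116), (13, 3), (87, 2)])))
(.lp [(7, 10149), (87, 1)])))
(.lp [(1, 1)])))
(.lp [(1, 1)]))))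
(.x1 (.x3 (.x2 (.x2 (.lp [(0, 1)])
(.x1 (.x3 (.x1 (.x3 (.x1 (.lp [(81, 8), (87, 10)])
(.x3 (.x2 (.x2 (.lp [(52, 12), (61, 15), (87, 15), (94, 2)])
(.lp [(52, 12), (61, 16), (81, 5), (87, 27)]))
(.u3 (.lp [(61, 1), (87, 2)])
(.x2 (.u1 (.lp [(52, 1), (61, 2), (87, 1)])
(.lp [(52, 1), (61, 3), (87, 3)]))
(.u1 (.u1 (.lp [(35, 3), (52, 8), (61, 20), (87, 13)])
(.lp [(35, 58), (52, 113), (61, 524)]))
(.lp [(61, 1)])))))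
(.lp [(12, 1), (61, 8), (87, 20)])))
(.lp [(34, 1), (61, 6), (87, 11)]))
(.x2 (.u1 (.lp [(12, 1)])
(.x2 (.lp [(0, 3116), (102, 1)])
(.x3 (.u1 (.lp [(52, 65), (61, 46), (102, 17)])
(.x1 (.lp [(52, 7), (61, 8), (87, 2)])
(.x2 (.lp [(11, 2583), (52, 1), (61, 1)])
(.lp [(11, 169), (52, 1), (61, 1)]))))
(.u2 (.lp [(11, 102189), (52, 26), (61, 20), (87, 64), (108, 17)])
(.lp [(102, 1)])))))
(.x2 (.x3 (.x1 (.u1 (.u2 (.lp [(52, 217), (61, 265), (87, 130)])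
(.lp [(52, 3), (61, 3), (87, 4)]))
(.x2 (.lp [(52, 5), (61, 8)])
(.lp [(52, 3), (61, 7)])))
(.u1 (.lp [(35, 86), (52, 549), (61, 375), (87, 262)])
(.x2 (.lp [(52, 69), (61, 70), (87, 5), (108, 7)])
(.lp [(52, 5), (61, 7)]))))
(.u1 (.lp [(12, 1), (87, 1), (108, 1)])
(.lp [(12, 37), (61, 69), (87, 26), (108, 56)])))
(.u1 (.u3 (.lp [(52, 11), (61, 29), (108, 8)])
(.lp [(35, 17), (52, 32), (61, 51)]))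
(.lp [(61, 1), (108, 1)])))))
(.x2 (.lp [(11, 443), (87, 1)])
(.u1 (.lp [(61, 14), (102, 5)])
(.x3 (.lp [(12, 2), (61, 16), (87, 8), (108, 7)])
(.x1 (.lp [(87, 1)])
(.lp [(61, 5), (76, 2), (87, 4)]))))))
(.x2 (.lp [(11, 1)])
(.u1 (.x2 (.lp [(52, 45), (61, 11), (102, 26), (108, 15)])
(.lp [(108, 1)]))
(.x3 (.x2 (.x3 (.x2 (.lp [(11, 97261), (52, 25), (61, 28), (102, 1), (108, 3)])
(.lp [(11, 18430), (52, 15), (61, 12), (108, 5)]))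
(.lp [(12, 73), (61, 26), (108, 151)]))
(.lp [(11, 975), (108, 1)]))
(.x2 (.lp [(11, 12252), (48, 2), (87, 1), (108, 5)])
(.x1 (.lp [(6, 4267), (61, 1), (108, 1)])
(.lp [(6, 2741), (108, 1)]))))))))
(.x2 (.x1 (.x2 (.u2 (.u1 (.lp [(35, 1), (108, 1)])
(.x1 (.lp [(13, 3), (35, 4), (61, 1), (87, 6)])
(.x2 (.lp [(61, 11), (87, 1)])
(.x3 (.lp [(13, 1)])
(.lp [(35, 8), (61, 14), (67, 7), (87, 1)])))))
(.lp [(35, 2), (108, 3)]))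
(.x3 (.u1 (.lp [(13, 1)])
(.u2 (.u1 (.x1 (.lp [(1, 12903), (13, 2), (35, 6), (81, 3)])
(.lp [(1, 1503), (13, 1)]))
(.x1 (.x2 (.x3 (.x1 (.lp [(81, 2), (87, 3)])
(.x2 (.lp [(13, 1)])
(.lp [(13, 6), (23, 5)])))
(.lp [(1, 2480), (13, 1), (87, 1)]))
(.lp [(1, 23022), (13, 5), (23, 7), (109, 3)]))
(.x2 (.lp [(1, 864), (13, 1)])
(.lp [(1, 3482), (13, 1)]))))
(.lp [(1, 2092), (35, 1)])))
(.lp [(1, 14441), (13, 3), (35, 2)])))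
(.x2 (.u1 (.lp [(9, 1599), (61, 1), (108, 1)])
(.x3 (.x1 (.lp [(35, 2), (61, 3)])
(.lp [(9, 7155), (108, 1)]))
(.x1 (.lp [(6, 1473), (61, 1)])
(.lp [(9, 8701), (21, 1), (108, 1)]))))
(.lp [(9, 1)])))
(.lp [(1, 1)])))
(.x1 (.x3 (.x2 (.x1 (.lp [(0, 231), (6, 1816), (87, 1)])
(.x2 (.lp [(0, 1)])
(.x2 (.lp [(0, 1)])
(.lp [(6, 41347), (21, 5), (87, 8), (108, 10)]))))
(.x2 (.x1 (.x2 (.lp [(1, 47236), (6, 204992), (67, 23), (87, 137), (108, 5)])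
(.lp [(1, 1)]))
(.x2 (.x3 (.x1 (.x2 (.lp [(76, 5), (87, 7)])
(.u1 (.lp [(21, 1)])
(.lp [(35, 5), (61, 17), (67, 22), (76, 12), (87, 17)])))
(.x2 (.lp [(6, 2815), (61, 2), (67, 1)])
(.lp [(61, 29), (67, 28), (76, 8)])))
(.lp [(6, 1)]))
(.lp [(1, 1)])))
(.lp [(1, 1)])))
(.lp [(6, 1244916), (67, 62), (87, 150), (108, 1)]))
(.lp [(6, 1)])))
(.lp [(9, 1), (11, 1)])))
(.lp [(6, 1), (7, 1)])))

theorem checkD1 : check (tblOf VD UD1a UD1b UD1c edgesD1 pairsD 2527 2500)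
    (locsOf UD1a UD1b UD1c locSD) treeD1 P0 B0 = true := by
  decide +kernel

theorem silD1 : (edgesD1.all fun e => silOK VD UD1a e && silOK VD UD1b e && silOK VD UD1c e) = true := by
  decide +kernel

end Pool.Agent.Lib.MP_5fb7d4_co
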