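import Pool.Agent.Lib.MP_5fb7d4_co.Data

set_option autoImplicit false

namespace Pool.Agent.Lib.MP_5fb7d4_co

def treeI0 : T :=
(.x1 (.x1 (.lp [(5, 1), (7, 1)])
(.x3 (.x3 (.lp [(2, 1), (3, 1)])
(.x2 (.x2 (.lp [(10, 1)])
(.x2 (.x3 (.lp [(2, 1)])
(.x1 (.lp [(10, 1)])
(.x1 (.x3 (.lp [(10, 21822), (25, 1)])
(.x2 (.lp [(10, 1)])
(.lp [(10, 87372), (25, 23), (38, 27), (40, 17)])))
(.lp [(25, 1)]))))
(.x3 (.x1 (.lp [(5, 1)])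
(.lp [(2, 10129), (40, 1)]))
(.x1 (.x2 (.x1 (.lp [(5, 16590), (27, 1)])
(.x3 (.x2 (.x2 (.lp [(10, 792494), (14, 44), (20, 68), (25, 29), (38, 11)])
(.u2 (.lp [(10, 310765), (14, 46), (20, 54), (38, 17), (40, 41)])
(.lp [(10, 592853), (14, 87), (20, 110), (38, 38), (40, 66)])))
(.lp [(14, 130), (20, 196)]))
(.x2 (.x1 (.lp [(10, 4766), (27, 1)])
(.x3 (.lp [(25, 12), (27, 11)])
(.u1 (.lp [(38, 1)])
(.lp [(27, 1), (38, 5), (40, 5)]))))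
(.lp [(20, 43), (25, 26), (38, 30)]))))
(.lp [(20, 10), (38, 5), (40, 6)]))
(.x3 (.x2 (.x1 (.lp [(14, 22), (20, 38), (25, 28), (38, 17), (40, 17)])
(.lp [(25, 1)]))
(.lp [(40, 1)]))
(.x2 (.u2 (.x1 (.u1 (.lp [(38, 12), (40, 11)])
(.x3 (.lp [(25, 3), (38, 4), (40, 5)])
(.x2 (.x1 (.lp [(20, 3), (25, 12), (38, 49), (40, 46)])
(.lp [(38, 3), (40, 4)]))
(.x1 (.lp [(38, 17), (40, 25)])
(.lp [(38, 17), (40, 33)])))))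
(.u1 (.lp [(25, 4), (38, 3), (40, 5)])
(.x1 (.lp [(25, 9), (38, 5), (40, 12)])
(.lp [(25, 1)]))))
(.x1 (.lp [(38, 13), (40, 11)])
(.lp [(25, 6), (38, 5)])))
(.x3 (.lp [(20, 3), (25, 2), (38, 1), (40, 2)])
(.x1 (.u1 (.x1 (.lp [(20, 2), (38, 1)])
(.lp [(20, 17), (38, 22), (40, 36)]))
(.u2 (.lp [(20, 11), (38, 13), (40, 41)])
(.lp [(20, 3), (38, 5), (40, 10)])))
(.x3 (.lp [(38, 1), (40, 11)])
(.x2 (.x1 (.u2 (.u1 (.lp [(38, 1), (40, 3)])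
(.lp [(40, 1)]))
(.lp [(38, 1), (40, 3)]))
(.lp [(13, 5), (38, 1), (40, 6)]))
(.x1 (.u1 (.lp [(20, 1), (38, 1), (40, 4)])
(.lp [(20, 1), (40, 1)]))
(.u2 (.lp [(13, 2), (40, 3)])
(.lp [(13, 5), (38, 1), (40, 13)])))))))))))))
(.x2 (.x3 (.lp [(3, 1954583), (5, 19410), (20, 144), (40, 58)])
(.x2 (.x1 (.lp [(20, 1)])
(.x1 (.lp [(20, 1)])
(.x3 (.lp [(20, 1)])
(.x1 (.lp [(20, 1)])
(.x1 (.lp [(20, 13), (31, 5)])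
(.x2 (.lp [(20, 1)])
(.lp [(20, 6), (25, 5), (31, 7)])))))))
(.x1 (.lp [(8, 1)])
(.x2 (.x3 (.lp [(8, 852), (20, 1)])
(.u1 (.lp [(8, 17133), (20, 3), (44, 2)])
(.x1 (.x2 (.lp [(8, 11749), (15, 3), (20, 5)])
(.lp [(8, 1)]))
(.x3 (.x2 (.lp [(20, 1)])
(.u3 (.lp [(15, 11), (20, 12)])
(.lp [(15, 14), (20, 16), (25, 1)])))
(.x1 (.x2 (.x2 (.lp [(15, 5), (20, 9), (31, 3)])
(.lp [(15, 13), (20, 17), (31, 5)]))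
(.lp [(15, 12), (20, 11)]))
(.u2 (.x1 (.x2 (.x3 (.u2 (.lp [(15, 45), (20, 66), (25, 26), (31, 33)])
(.lp [(15, 4), (20, 7), (25, 2), (31, 4)]))
(.x1 (.u2 (.lp [(15, 7), (20, 10), (25, 5), (31, 9)])
(.lp [(20, 1), (31, 4)]))
(.lp [(15, 5), (20, 8), (25, 16), (31, 27)])))
(.x3 (.lp [(15, 1), (20, 1)])
(.lp [(15, 2), (20, 2), (25, 1), (31, 2)])))
(.x2 (.u2 (.lp [(25, 9), (31, 8)])
(.lp [(15, 292), (20, 527), (25, 586), (31, 782)]))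
(.lp [(15, 86), (20, 93), (25, 241), (31, 269)])))
(.x2 (.lp [(20, 1), (31, 1)])
(.lp [(15, 27), (20, 47), (25, 5), (31, 33)]))))))))
(.x3 (.lp [(8, 33990), (15, 2), (20, 3)])
(.x3 (.lp [(8, 7477), (15, 1), (20, 1)])
(.lp [(8, 323750), (15, 80), (20, 58)])))))))
(.lp [(8, 1)]))))
(.x3 (.x2 (.x2 (.lp [(10, 1)])
(.x2 (.x1 (.lp [(10, 1)])
(.x2 (.lp [(38, 1)])
(.x3 (.x1 (.lp [(13, 2), (38, 3), (40, 1)])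
(.lp [(13, 19), (25, 14), (31, 5), (38, 15)]))
(.lp [(0, 1)]))))
(.x3 (.x1 (.x3 (.lp [(27, 1)])
(.x1 (.lp [(7, 1)])
(.x2 (.lp [(38, 1)])
(.x3 (.u2 (.lp [(27, 28), (31, 17)])
(.lp [(38, 1)]))
(.u2 (.lp [(7, 43160), (27, 6), (31, 5)])
(.lp [(38, 1)]))))))
(.x3 (.x2 (.u2 (.u1 (.x1 (.lp [(38, 1)])
(.lp [(13, 8), (38, 5), (40, 6)]))
(.x1 (.x3 (.x2 (.x1 (.x3 (.lp [(38, 12), (40, 11)])
(.lp [(13, 1), (38, 3), (40, 2)]))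
(.u2 (.lp [(13, 8), (38, 13), (40, 16)])
(.lp [(38, 1)])))
(.u1 (.x2 (.lp [(13, 8), (38, 22), (40, 21)])
(.loc 1))
(.loc 1)))
(.x2 (.lp [(13, 1)])
(.x1 (.lp [(13, 5), (20, 5), (38, 2)])
(.lp [(13, 1)]))))
(.x3 (.x2 (.lp [(13, 2), (38, 1), (40, 2)])
(.u3 (.lp [(13, 233), (20, 38), (38, 63), (40, 159)])
(.lp [(13, 3), (38, 1), (40, 3)])))
(.lp [(13, 1)]))))
(.lp [(13, 5), (38, 6)]))
(.x1 (.u1 (.x2 (.x3 (.x3 (.x2 (.lp [(38, 19), (40, 11)])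
(.x1 (.lp [(20, 1), (38, 1)])
(.lp [(13, 30), (20, 21), (38, 17), (40, 27)])))
(.lp [(13, 11), (38, 12)]))
(.lp [(38, 1)]))
(.lp [(13, 3), (20, 4), (38, 1)]))
(.x2 (.x3 (.x1 (.lp [(13, 2), (20, 4), (38, 1)])
(.x2 (.u2 (.x3 (.loc 1)
(.u1 (.lp [(13, 9), (20, 6), (38, 1)])
(.lp [(13, 4), (20, 3)])))
(.u1 (.lp [(13, 2), (38, 9), (40, 6)])
(.lp [(20, 1), (38, 1)])))
(.x3 (.u3 (.lp [(13, 1), (20, 2)])
(.u1 (.x3 (.u2 (.loc 1)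
(.lp [(13, 4), (20, 3), (38, 2), (40, 4)]))
(.lp [(13, 6), (20, 5)]))
(.lp [(13, 1), (20, 2)])))
(.lp [(13, 1), (20, 1)]))))
(.x1 (.x1 (.lp [(13, 5), (20, 7)])
(.x1 (.x2 (.lp [(13, 1), (20, 1)])
(.lp [(13, 39), (20, 53), (27, 11), (31, 15)]))
(.lp [(13, 38), (20, 38), (27, 5), (31, 7)])))
(.lp [(13, 4), (20, 3)])))
(.x3 (.lp [(13, 1), (20, 2)])
(.x1 (.u2 (.x1 (.lp [(13, 5), (20, 17)])
(.u2 (.lp [(13, 17), (20, 40), (27, 17), (31, 30)])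
(.lp [(13, 86), (20, 195), (27, 87), (31, 131)])))
(.lp [(13, 4), (20, 3), (27, 2)]))
(.u1 (.u2 (.lp [(13, 39), (20, 47), (27, 11), (31, 21)])
(.lp [(13, 10), (20, 7), (27, 2)]))
(.x3 (.x2 (.lp [(13, 3), (20, 4)])
(.u2 (.lp [(20, 9), (27, 2), (31, 7)])
(.lp [(13, 3), (20, 6), (27, 1), (31, 2)])))
(.x1 (.x2 (.x1 (.x2 (.lp [(13, 46), (20, 48), (27, 17), (31, 28)])
(.lp [(13, 38), (20, 78), (27, 51), (31, 86)]))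
(.lp [(13, 56), (20, 62), (27, 26), (31, 48)]))
(.lp [(13, 5), (20, 23), (27, 18), (31, 33)]))
(.u2 (.lp [(13, 14), (27, 11), (31, 28)])
(.lp [(13, 1), (27, 1), (31, 2)])))))))))
(.x3 (.x2 (.x1 (.x3 (.u1 (.x1 (.x3 (.lp [(13, 51), (20, 17), (38, 23), (40, 54)])
(.lp [(13, 10), (20, 3), (38, 1)]))
(.lp [(13, 22), (20, 5), (38, 7), (40, 18)]))
(.x2 (.x1 (.x3 (.u2 (.u2 (.lp [(13, 1), (40, 1)])
(.loc 1))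
(.lp [(13, 12), (20, 5), (38, 8), (40, 14)]))
(.u3 (.lp [(13, 2), (20, 1)])
(.lp [(13, 25), (20, 9), (40, 1)])))
(.lp [(13, 39), (20, 8), (38, 5), (40, 18)]))
(.u3 (.u2 (.lp [(13, 135), (20, 97), (38, 17), (40, 52)])
(.lp [(13, 10), (20, 8), (38, 2), (40, 4)]))
(.x1 (.x3 (.u3 (.u2 (.lp [(13, 26), (20, 16), (38, 5), (40, 17)])
(.lp [(13, 23), (20, 15), (38, 5), (40, 15)]))
(.lp [(13, 165), (20, 94), (38, 38), (40, 131)]))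
(.lp [(13, 8), (20, 5)]))
(.lp [(13, 18), (20, 7), (38, 2), (40, 10)])))))
(.u3 (.lp [(13, 5), (20, 2)])
(.lp [(13, 16), (40, 5)])))
(.lp [(13, 10), (38, 1), (40, 5)]))
(.x1 (.x2 (.x3 (.u1 (.u2 (.lp [(13, 117), (20, 69), (38, 17), (40, 55)])
(.lp [(20, 1), (38, 1)]))
(.lp [(13, 73), (20, 79), (40, 17)]))
(.lp [(13, 4), (20, 3)]))
(.lp [(13, 1), (20, 1)]))
(.u3 (.x2 (.lp [(13, 29), (20, 12), (38, 1), (40, 7)])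
(.lp [(13, 3), (20, 2)]))
(.x2 (.lp [(13, 21), (38, 1), (40, 14)])
(.lp [(13, 5), (20, 2), (40, 2)])))))
(.x2 (.lp [(13, 1)])
(.x1 (.lp [(13, 36), (20, 33), (27, 5), (31, 16)])
(.lp [(13, 1)]))))))
(.x1 (.x2 (.lp [(13, 1)])
(.x1 (.u2 (.u2 (.x3 (.x1 (.x2 (.lp [(13, 8), (20, 8), (27, 20), (31, 21)])
(.lp [(27, 1), (31, 1)]))
(.x2 (.lp [(13, 5), (27, 12), (31, 16)])
(.lp [(27, 2), (31, 3)])))
(.lp [(27, 3), (31, 4)]))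
(.lp [(27, 44), (31, 49), (38, 8)]))
(.lp [(13, 1), (27, 1)]))
(.lp [(13, 58), (27, 97), (31, 152)])))
(.lp [(13, 1)]))))
(.x1 (.lp [(7, 1)])
(.x3 (.x2 (.lp [(13, 1)])
(.u2 (.lp [(7, 193385), (13, 28), (44, 17)])
(.lp [(7, 88654), (13, 15), (38, 8), (44, 10)])))
(.lp [(0, 60963), (38, 1), (44, 2)]))))))
(.x2 (.x3 (.x2 (.x1 (.x1 (.lp [(7, 16590), (27, 1)])
(.x3 (.x2 (.lp [(20, 1)])
(.x2 (.lp [(20, 2), (44, 1)])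
(.x1 (.lp [(8, 4766), (27, 1)])
(.lp [(8, 433435), (15, 105), (20, 145), (44, 17)]))))
(.x1 (.lp [(7, 1)])
(.x2 (.lp [(7, 58197), (27, 67), (31, 56), (44, 26)])
(.lp [(44, 1)])))))
(.x3 (.x2 (.x1 (.lp [(20, 192), (27, 6), (31, 25), (38, 3), (44, 142)])
(.x1 (.lp [(13, 5), (20, 58), (27, 2), (31, 10), (44, 52)])
(.lp [(20, 5), (44, 8)])))
(.x1 (.x3 (.lp [(20, 10), (31, 5), (44, 2)])
(.lp [(20, 12), (31, 8), (44, 5)]))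
(.lp [(20, 8), (31, 13)])))
(.x3 (.lp [(20, 2), (44, 5)])
(.lp [(44, 1)]))))
(.x1 (.lp [(8, 1)])
(.x1 (.x1 (.x3 (.lp [(8, 128345), (15, 12), (20, 14), (27, 1), (31, 6)])
(.lp [(31, 2), (44, 1)]))
(.x2 (.lp [(15, 4), (20, 5), (27, 1), (31, 9)])
(.lp [(8, 1)])))
(.lp [(31, 1)]))))
(.x1 (.lp [(7, 1)])
(.x3 (.x2 (.lp [(44, 1)])
(.lp [(1, 1)]))
(.lp [(1, 10229), (44, 1)]))))
(.lp [(8, 1)])))
(.lp [(0, 1), (1, 1)]))))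
(.x1 (.x3 (.x3 (.lp [(2, 1), (3, 1)])
(.x2 (.x2 (.lp [(11, 1)])
(.x3 (.x1 (.lp [(4, 13219), (25, 2), (40, 1)])
(.lp [(4, 1)]))
(.x2 (.x1 (.x2 (.lp [(14, 1)])
(.x1 (.x1 (.lp [(14, 8), (25, 22), (31, 13), (40, 12)])
(.x3 (.lp [(14, 1)])
(.lp [(13, 284), (14, 465), (25, 115), (31, 86), (40, 214)])))
(.lp [(13, 10), (14, 25), (25, 1), (40, 11)])))
(.lp [(11, 1)]))
(.x1 (.x3 (.x2 (.lp [(40, 1)])
(.x1 (.lp [(25, 1)])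
(.x1 (.lp [(25, 1)])
(.x2 (.x3 (.lp [(25, 1)])
(.lp [(24, 80), (25, 114), (40, 58), (44, 65)]))
(.lp [(24, 11), (25, 19)])))))
(.x2 (.x1 (.x1 (.lp [(14, 1), (25, 17), (31, 14), (40, 8)])
(.x2 (.lp [(13, 29), (14, 22), (25, 5), (40, 28)])
(.u1 (.lp [(13, 5), (14, 2), (40, 7)])
(.lp [(13, 1), (40, 3)]))))
(.u1 (.x1 (.lp [(13, 23), (14, 17), (40, 30)])
(.lp [(13, 1), (14, 1), (40, 1)]))
(.x2 (.x3 (.lp [(40, 1)])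
(.x1 (.lp [(13, 16), (14, 13), (40, 8)])
(.u1 (.lp [(14, 130), (40, 154)])
(.lp [(13, 4), (14, 4), (40, 1)]))))
(.x3 (.x1 (.lp [(40, 1)])
(.x2 (.lp [(40, 2), (44, 1)])
(.lp [(40, 7), (44, 5)])))
(.x1 (.u2 (.x1 (.lp [(13, 52), (14, 17), (40, 50)])
(.loc 0))
(.lp [(13, 32), (14, 17), (40, 28)]))
(.u2 (.loc 0)
(.x3 (.lp [(40, 3), (44, 1)])
(.u1 (.lp [(13, 19), (14, 15), (40, 8)])
(.x1 (.lp [(13, 2), (14, 1), (40, 1)])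
(.lp [(13, 76), (14, 54), (40, 22), (44, 3)]))))))))))
(.x1 (.x3 (.lp [(25, 1)])
(.x3 (.lp [(25, 4), (40, 1)])
(.u1 (.x2 (.u3 (.lp [(13, 1), (40, 1)])
(.lp [(13, 30), (14, 8), (40, 27)]))
(.x1 (.lp [(13, 1), (40, 1)])
(.lp [(13, 20), (14, 3), (40, 26), (44, 11)])))
(.x2 (.lp [(13, 1), (40, 1)])
(.lp [(13, 3), (40, 3), (44, 1)])))))
(.x2 (.x3 (.x1 (.lp [(40, 7), (44, 5)])
(.x2 (.lp [(40, 1), (44, 1)])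
(.lp [(25, 1), (40, 3), (44, 5)])))
(.x2 (.x1 (.u2 (.u1 (.x3 (.lp [(40, 1)])
(.x1 (.lp [(13, 13), (14, 5), (40, 10)])
(.x3 (.u2 (.lp [(13, 6), (14, 3), (40, 6), (44, 2)])
(.lp [(13, 5), (40, 19), (44, 3)]))
(.u2 (.lp [(13, 12), (14, 6), (40, 7), (44, 2)])
(.lp [(13, 38), (14, 17), (40, 19)])))))
(.x3 (.u1 (.lp [(40, 2), (44, 1)])
(.lp [(13, 1), (40, 6), (44, 4)]))
(.loc 0)))
(.lp [(13, 388), (14, 130), (40, 414)]))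
(.u1 (.u2 (.u2 (.lp [(14, 79), (44, 58)])
(.lp [(13, 6), (14, 4), (40, 5), (44, 2)]))
(.lp [(13, 44), (14, 30), (40, 26)]))
(.x3 (.u2 (.lp [(40, 59), (44, 58)])
(.lp [(40, 2), (44, 1)]))
(.u3 (.lp [(13, 2), (40, 2), (44, 1)])
(.u2 (.loc 0)
(.x3 (.u1 (.lp [(13, 13), (14, 9), (40, 12), (44, 8)])
(.x1 (.lp [(13, 70), (14, 38), (40, 72), (44, 48)])
(.lp [(13, 3), (14, 2), (40, 3), (44, 3)])))
(.lp [(13, 9), (14, 5), (44, 1)])))))))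
(.x1 (.u2 (.x3 (.lp [(14, 2), (40, 51), (44, 48)])
(.u1 (.u2 (.lp [(13, 68), (14, 26), (40, 77), (44, 44)])
(.lp [(13, 174), (14, 58), (40, 227), (44, 107)]))
(.u1 (.lp [(13, 16), (14, 5), (40, 23), (44, 16)])
(.lp [(13, 1)]))))
(.lp [(13, 16), (14, 5), (40, 24), (44, 10)]))
(.lp [(13, 11), (14, 5), (40, 23), (44, 26)]))))
(.u1 (.lp [(40, 1), (44, 1)])
(.lp [(25, 17), (40, 21), (44, 46)]))))))
(.x1 (.x3 (.x2 (.lp [(14, 1)])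
(.x3 (.lp [(4, 38291), (24, 5), (25, 6)])
(.x1 (.x2 (.lp [(24, 16), (25, 15), (40, 5), (44, 6)])
(.lp [(24, 11), (25, 12), (40, 1), (44, 4)]))
(.lp [(4, 1)]))))
(.x2 (.x2 (.lp [(13, 1), (14, 2)])
(.x3 (.u2 (.lp [(14, 1), (40, 1), (44, 1)])
(.lp [(40, 2), (44, 1)]))
(.u3 (.x1 (.u1 (.lp [(13, 14), (14, 15), (40, 5)])
(.x2 (.x3 (.lp [(13, 17), (14, 25)])
(.lp [(13, 1), (14, 1)]))
(.x3 (.u2 (.lp [(13, 65), (14, 58), (40, 65), (44, 66)])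
(.lp [(40, 188), (44, 130)]))
(.lp [(13, 163), (14, 130)]))))
(.lp [(13, 3), (14, 4)]))
(.lp [(14, 4), (44, 3)]))))
(.x2 (.u2 (.lp [(14, 1), (40, 6), (44, 10)])
(.x3 (.lp [(40, 1), (44, 1)])
(.lp [(13, 181), (14, 130), (40, 215), (44, 209)])))
(.lp [(40, 1), (44, 4)]))))
(.lp [(4, 56554), (24, 16), (25, 5)]))))))
(.x2 (.x3 (.x1 (.lp [(25, 1)])
(.lp [(4, 1)]))
(.x1 (.x2 (.x3 (.lp [(25, 1)])
(.x1 (.lp [(25, 9), (44, 5)])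
(.lp [(25, 8), (44, 9)])))
(.x3 (.lp [(9, 22732), (25, 9), (31, 2)])
(.x1 (.x1 (.x3 (.lp [(25, 7), (31, 5)])
(.lp [(25, 19), (31, 17)]))
(.lp [(9, 581820), (25, 482), (31, 144), (44, 143), (45, 86)]))
(.lp [(9, 10009), (25, 2), (44, 1)]))))
(.x2 (.x1 (.x3 (.x2 (.lp [(4, 87700), (20, 3), (25, 9), (44, 10)])
(.lp [(4, 4467), (20, 1)]))
(.x2 (.lp [(44, 1)])
(.lp [(9, 85356), (25, 11), (44, 16)])))
(.lp [(4, 16447), (44, 1)]))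
(.lp [(9, 1)]))))
(.lp [(9, 1)]))))
(.x3 (.x2 (.x2 (.lp [(11, 1)])
(.x3 (.x2 (.x1 (.x2 (.lp [(11, 4209), (38, 1)])
(.x3 (.x1 (.x1 (.lp [(13, 1), (25, 8), (31, 10), (38, 1)])
(.lp [(13, 62), (14, 71), (25, 17), (31, 62), (38, 8)]))
(.x1 (.lp [(13, 8), (14, 11), (31, 7), (38, 1)])
(.lp [(11, 38109), (13, 5), (14, 7), (31, 5)])))
(.lp [(31, 3), (38, 1)])))
(.lp [(11, 1)]))
(.x1 (.x3 (.x3 (.x1 (.x1 (.lp [(25, 5), (31, 6)])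
(.u3 (.lp [(13, 1), (25, 1), (31, 2)])
(.x3 (.x3 (.x2 (.u1 (.lp [(13, 1), (14, 1)])
(.lp [(13, 18), (14, 8), (25, 3), (31, 22)]))
(.x2 (.u1 (.lp [(13, 3), (14, 1)])
(.lp [(13, 2), (40, 1)]))
(.u1 (.lp [(13, 19), (14, 4), (44, 3)])
(.lp [(13, 1)]))))
(.lp [(13, 1), (31, 3)]))
(.lp [(31, 1)]))))
(.x2 (.x2 (.x1 (.lp [(13, 17), (14, 15), (31, 11)])
(.lp [(13, 139), (14, 146), (31, 38)]))
(.x3 (.x1 (.u1 (.lp [(13, 6), (14, 4), (31, 3)])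
(.lp [(13, 2), (14, 1)]))
(.u1 (.lp [(13, 4), (14, 4), (31, 2)])
(.lp [(13, 3), (14, 2)])))
(.lp [(13, 10), (14, 7), (31, 5)])))
(.u1 (.x2 (.x1 (.u3 (.lp [(13, 3), (14, 1)])
(.lp [(13, 2), (14, 1)]))
(.u3 (.lp [(13, 35), (14, 17)])
(.lp [(13, 2), (14, 2)])))
(.lp [(13, 8), (14, 2), (44, 5)]))
(.u2 (.lp [(13, 41), (14, 13), (44, 11)])
(.lp [(13, 611), (14, 188), (44, 130)])))))
(.x2 (.lp [(13, 7), (14, 2), (31, 16), (38, 1)])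
(.lp [(13, 7), (14, 2), (31, 8)])))
(.lp [(31, 1)]))
(.x1 (.x3 (.x2 (.u1 (.x1 (.lp [(13, 86), (14, 147), (31, 73), (44, 17)])
(.u2 (.lp [(14, 15), (31, 7), (38, 5), (44, 8)])
(.lp [(13, 5), (14, 13), (31, 7), (44, 2)])))
(.x2 (.x3 (.u1 (.lp [(11, 36343), (13, 11), (14, 15), (31, 3)])
(.u3 (.lp [(11, 16151), (13, 4), (14, 3)])
(.lp [(11, 224882), (13, 46), (14, 38)])))
(.u2 (.lp [(11, 971578), (13, 87), (14, 72), (31, 39), (44, 26)])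
(.lp [(11, 904131), (13, 86), (14, 67), (31, 30), (44, 17)])))
(.x3 (.x1 (.lp [(13, 6), (14, 5)])
(.lp [(13, 299), (14, 292)]))
(.lp [(13, 104), (14, 76), (38, 38), (44, 66)]))))
(.u3 (.lp [(13, 3), (14, 2), (44, 1)])
(.lp [(13, 2), (14, 2), (44, 2)])))
(.x2 (.lp [(6, 436890), (13, 13), (31, 25), (38, 5)])
(.lp [(38, 1), (44, 3)])))
(.lp [(6, 29597), (24, 4), (31, 2)]))))
(.x1 (.lp [(31, 1)])
(.lp [(6, 1)]))))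
(.x2 (.x3 (.x2 (.x1 (.x1 (.x1 (.lp [(25, 11), (31, 19), (44, 18)])
(.lp [(44, 1)]))
(.lp [(44, 1)]))
(.lp [(44, 1)]))
(.x1 (.x2 (.x3 (.u1 (.lp [(44, 1)])
(.u2 (.x1 (.x3 (.x1 (.lp [(25, 3), (31, 4)])
(.x2 (.x2 (.lp [(25, 5), (44, 13), (45, 7)])
(.lp [(25, 2), (31, 1), (44, 5), (45, 4)]))
(.lp [(44, 11), (45, 12)])))
(.lp [(9, 1628), (31, 1)]))
(.x2 (.lp [(9, 13672), (44, 5), (45, 3)])
(.lp [(9, 1)])))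
(.lp [(44, 1)])))
(.lp [(9, 901), (44, 1)]))
(.lp [(9, 33083), (15, 3), (44, 2)]))
(.lp [(9, 1)])))
(.x1 (.lp [(1, 5668), (31, 1)])
(.lp [(6, 1)])))
(.lp [(9, 1)])))
(.lp [(0, 1), (1, 1)])))
(.lp [(4, 1), (6, 1)])))

theorem checkI0 : check (tblOf VI UI0a UI0b UI0c edgesI0 pairsI 2527 2500)
    (locsOf UI0a UI0b UI0c locSI) treeI0 P0 B0 = true := by
  decide +kernel

theorem silI0 : (edgesI0.all fun e => silOK VI UI0a e && silOK VI UI0b e && silOK VI UI0c e) = true := by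
  decide +kernel

end Pool.Agent.Lib.MP_5fb7d4_co
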