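import Pool.Agent.Lib.MP_5fb7d4_co.Data

set_option autoImplicit false

namespace Pool.Agent.Lib.MP_5fb7d4_co

def treeI1 : T :=
(.x3 (.x3 (.lp [(2, 1), (3, 1)])
(.x2 (.x2 (.lp [(10, 1), (11, 1)])
(.x1 (.x1 (.lp [(5, 1)])
(.x2 (.x3 (.lp [(2, 1)])
(.x1 (.lp [(10, 1)])
(.lp [(14, 5), (50, 6)])))
(.x3 (.x1 (.lp [(5, 1)])
(.x1 (.x3 (.lp [(2, 14342), (28, 1)])
(.x2 (.x1 (.lp [(5, 2660422), (37, 191), (39, 86)])
(.lp [(37, 1)]))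
(.lp [(5, 151168), (14, 18), (20, 17), (28, 22)])))
(.lp [(37, 1), (52, 1)])))
(.x1 (.x2 (.lp [(5, 31828), (26, 2), (50, 3)])
(.lp [(20, 1), (26, 1), (28, 1), (50, 4)]))
(.x3 (.x2 (.lp [(14, 17), (28, 41), (37, 5), (50, 91)])
(.lp [(20, 1), (28, 3), (50, 5)]))
(.lp [(20, 37), (26, 101), (28, 26), (37, 36), (50, 77)]))))))
(.x1 (.x3 (.lp [(2, 17324), (14, 2), (28, 4)])
(.x2 (.lp [(14, 1), (50, 1)])
(.x3 (.lp [(4, 2830), (14, 1), (28, 3)])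
(.x1 (.x2 (.lp [(14, 1), (37, 1), (50, 3)])
(.x1 (.lp [(13, 70), (14, 10), (26, 8), (28, 208), (50, 170), (56, 74)])
(.x2 (.lp [(28, 11), (32, 1)])
(.lp [(13, 96), (14, 30), (28, 210), (32, 62), (37, 5), (50, 78)]))))
(.x2 (.lp [(14, 3), (28, 10), (50, 12), (56, 9)])
(.x1 (.x2 (.lp [(13, 5), (14, 4), (28, 11), (32, 3)])
(.lp [(14, 87), (28, 141), (32, 138), (37, 86)]))
(.lp [(36, 3), (37, 1)])))))))
(.lp [(4, 1)]))))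
(.x2 (.x1 (.x1 (.lp [(5, 1)])
(.x3 (.lp [(3, 14164), (5, 4184), (20, 2), (28, 1)])
(.x2 (.lp [(20, 4), (56, 1)])
(.x3 (.x2 (.lp [(20, 3), (28, 1)])
(.lp [(8, 36802), (20, 3), (56, 2)]))
(.lp [(8, 191748), (20, 1), (28, 13), (32, 21), (56, 45)])))))
(.x1 (.x3 (.x1 (.lp [(37, 1)])
(.lp [(4, 1)]))
(.x1 (.x3 (.x2 (.lp [(37, 1)])
(.lp [(9, 22732), (37, 9), (43, 2)]))
(.x1 (.x2 (.u3 (.lp [(37, 1), (56, 2)])
(.lp [(28, 32), (32, 17), (37, 45), (56, 411)]))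
(.lp [(9, 3610), (32, 1), (56, 2)]))
(.lp [(32, 19), (37, 17), (56, 116)])))
(.x3 (.lp [(4, 45987), (28, 1), (32, 5), (37, 4)])
(.lp [(32, 1), (56, 22)]))))
(.lp [(4, 1)])))
(.lp [(8, 1), (9, 1)]))))
(.x3 (.x2 (.x2 (.lp [(10, 1), (11, 1)])
(.x1 (.x1 (.lp [(7, 1)])
(.x3 (.x2 (.lp [(10, 6804), (26, 1), (50, 2)])
(.lp [(26, 1)]))
(.x3 (.lp [(7, 38452), (13, 5), (26, 18)])
(.lp [(0, 14811), (26, 1)]))))
(.x1 (.x2 (.lp [(11, 73152), (26, 13), (50, 3)])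
(.x3 (.x3 (.x2 (.lp [(14, 8), (26, 10), (50, 24), (56, 12)])
(.x3 (.x2 (.lp [(14, 1), (50, 375), (56, 258)])
(.x1 (.lp [(13, 2), (14, 1), (50, 50), (56, 43)])
(.lp [(32, 1), (50, 95), (56, 84)])))
(.x1 (.lp [(13, 2), (26, 1)])
(.lp [(14, 1), (32, 5), (43, 2), (50, 10)]))))
(.lp [(13, 2), (26, 7), (32, 4), (50, 13)]))
(.lp [(6, 49706), (13, 3), (26, 2), (43, 4)])))
(.lp [(6, 1)]))))
(.x2 (.x1 (.x1 (.lp [(7, 1)])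
(.x2 (.x3 (.x2 (.x3 (.x1 (.lp [(20, 1)])
(.lp [(20, 36), (26, 29), (32, 5), (43, 15), (56, 31)]))
(.lp [(26, 5), (32, 3), (56, 4)]))
(.lp [(32, 18), (39, 5), (56, 38)]))
(.x3 (.x2 (.x1 (.lp [(7, 1)])
(.x2 (.lp [(7, 24819), (13, 5), (26, 34), (32, 17), (49, 29), (56, 24)])
(.x3 (.lp [(13, 2), (26, 2), (56, 6)])
(.lp [(26, 5), (32, 6), (49, 24), (56, 16)]))))
(.lp [(7, 1528), (32, 1)]))
(.lp [(1, 1983253), (13, 2), (26, 64), (49, 236), (56, 162)])))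
(.x1 (.lp [(8, 1)])
(.lp [(32, 3), (56, 1)]))))
(.x1 (.x3 (.x3 (.x1 (.x2 (.x1 (.lp [(32, 3), (43, 8), (56, 100)])
(.lp [(13, 17), (32, 5)]))
(.lp [(32, 1)]))
(.lp [(13, 7), (32, 5), (56, 18)]))
(.lp [(13, 2), (32, 3), (43, 1)]))
(.lp [(1, 127880), (13, 14), (32, 9), (43, 2)]))
(.lp [(6, 1)])))
(.lp [(8, 1), (9, 1)])))
(.lp [(0, 1), (1, 1)])))

theorem checkI1 : check (tblOf VI UI1a UI1b UI1c edgesI1 pairsI 2527 2500)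
    (locsOf UI1a UI1b UI1c []) treeI1 P0 B0 = true := by
  decide +kernel

theorem silI1 : (edgesI1.all fun e => silOK VI UI1a e && silOK VI UI1b e && silOK VI UI1c e) = true := by
  decide +kernel

end Pool.Agent.Lib.MP_5fb7d4_co
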