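import Pool.Agent.Lib.MP_5fb7d4_co.Data

set_option autoImplicit false

namespace Pool.Agent.Lib.MP_5fb7d4_co

def treeI2 : T :=
(.x2 (.x2 (.lp [(10, 1), (11, 1)])
(.x3 (.x3 (.lp [(2, 1)])
(.x1 (.x1 (.lp [(5, 1)])
(.x3 (.x2 (.lp [(2, 1)])
(.x1 (.lp [(5, 1)])
(.x3 (.lp [(2, 7536), (64, 1)])
(.x2 (.x2 (.lp [(2, 112640), (14, 15), (20, 14), (62, 7), (64, 5)])
(.x3 (.lp [(2, 1)])
(.x1 (.lp [(14, 34), (20, 35), (28, 17), (44, 26), (62, 19)])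
(.lp [(14, 5), (20, 5), (62, 7), (64, 8)]))))
(.lp [(14, 11), (20, 174), (62, 354), (64, 539)])))))
(.x2 (.x1 (.lp [(10, 1)])
(.lp [(14, 5), (62, 6)]))
(.x1 (.lp [(5, 6260), (54, 1)])
(.x2 (.x3 (.x1 (.lp [(14, 16), (20, 17), (28, 5), (62, 16)])
(.lp [(28, 1), (62, 2)]))
(.lp [(62, 1)]))
(.lp [(20, 3), (28, 2), (62, 6)]))))))
(.x1 (.x3 (.x2 (.lp [(2, 1)])
(.x3 (.lp [(58, 1)])
(.lp [(28, 19), (37, 5), (58, 36)])))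
(.x1 (.lp [(28, 1), (37, 6)])
(.x1 (.lp [(37, 2), (58, 1)])
(.lp [(4, 8061), (37, 1)]))))
(.lp [(4, 1)]))))
(.x3 (.x1 (.x1 (.lp [(7, 1)])
(.x3 (.x2 (.lp [(10, 9914), (26, 1), (62, 2)])
(.lp [(26, 2), (54, 1)]))
(.x3 (.x1 (.lp [(7, 1)])
(.lp [(13, 3), (26, 6), (54, 2)]))
(.lp [(0, 10181), (26, 1)]))))
(.x1 (.x3 (.x2 (.lp [(62, 1)])
(.x1 (.lp [(13, 8), (62, 9)])
(.x1 (.lp [(52, 1)])
(.lp [(6, 6222), (52, 1)]))))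
(.lp [(0, 47697), (13, 5), (26, 7), (52, 5)]))
(.lp [(6, 1)])))
(.lp [(0, 1)]))))
(.x2 (.x3 (.x3 (.lp [(3, 1)])
(.x1 (.x1 (.lp [(5, 1)])
(.x3 (.lp [(3, 19855), (5, 6163), (20, 3), (28, 1)])
(.x2 (.lp [(20, 4), (68, 1)])
(.x3 (.x2 (.lp [(8, 10843), (28, 3), (68, 2)])
(.lp [(8, 27011), (28, 3), (68, 2)]))
(.lp [(8, 11708), (54, 2), (68, 7)])))))
(.x1 (.x3 (.x1 (.lp [(3, 3328), (20, 1)])
(.lp [(4, 1)]))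
(.x1 (.x2 (.lp [(20, 19), (28, 11), (37, 39), (68, 33)])
(.x3 (.x2 (.lp [(20, 3), (68, 2)])
(.lp [(9, 19036), (20, 2), (52, 1)]))
(.lp [(52, 1), (68, 3)])))
(.lp [(4, 65301), (37, 17), (68, 39)])))
(.lp [(4, 1)]))))
(.x3 (.x1 (.x1 (.lp [(7, 1)])
(.x2 (.x3 (.x2 (.x3 (.lp [(26, 2), (54, 1), (68, 5)])
(.lp [(13, 1), (26, 5), (68, 7)]))
(.lp [(26, 3), (32, 4), (39, 2), (68, 9)]))
(.x3 (.x1 (.lp [(7, 1)])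
(.x2 (.x2 (.x1 (.lp [(13, 38), (26, 86), (50, 63), (68, 98)])
(.lp [(13, 5), (32, 5), (39, 17), (52, 8), (61, 13)]))
(.x3 (.lp [(26, 19), (32, 11), (61, 15), (68, 17)])
(.lp [(1, 44377), (26, 8), (32, 5), (61, 15), (68, 12)])))
(.x3 (.lp [(26, 40), (32, 76), (50, 26), (61, 132), (68, 154)])
(.lp [(1, 1)]))))
(.lp [(1, 76924), (26, 4), (68, 2)])))
(.x3 (.lp [(68, 1)])
(.lp [(1, 1)]))))
(.x1 (.x3 (.x1 (.lp [(13, 1), (52, 6)])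
(.lp [(13, 2), (32, 1), (68, 1)]))
(.x2 (.x3 (.lp [(13, 19), (43, 36), (52, 5)])
(.lp [(43, 1)]))
(.lp [(1, 1)])))
(.lp [(6, 1)])))
(.lp [(1, 1)])))
(.lp [(8, 1), (9, 1)])))

theorem checkI2 : check (tblOf VI UI2a UI2b UI2c edgesI2 pairsI 2527 2500)
    (locsOf UI2a UI2b UI2c []) treeI2 P0 B0 = true := by
  decide +kernel

theorem silI2 : (edgesI2.all fun e => silOK VI UI2a e && silOK VI UI2b e && silOK VI UI2c e) = true := by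
  decide +kernel

end Pool.Agent.Lib.MP_5fb7d4_co
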