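import Pool.Agent.Lib.MP_5fb7d4_co.Lower

set_option autoImplicit false

namespace Pool.Agent.Lib.MP_5fb7d4_co

def VI : List Z3 :=
  [⟨⟨0, 0⟩, ⟨1, 0⟩, ⟨0, 1⟩⟩,
   ⟨⟨1, 0⟩, ⟨0, 1⟩, ⟨0, 0⟩⟩,
   ⟨⟨0, 1⟩, ⟨0, 0⟩, ⟨1, 0⟩⟩,
   ⟨⟨0, 0⟩, ⟨1, 0⟩, ⟨0, -1⟩⟩,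
   ⟨⟨1, 0⟩, ⟨0, -1⟩, ⟨0, 0⟩⟩,
   ⟨⟨0, -1⟩, ⟨0, 0⟩, ⟨1, 0⟩⟩,
   ⟨⟨0, 0⟩, ⟨-1, 0⟩, ⟨0, 1⟩⟩,
   ⟨⟨-1, 0⟩, ⟨0, 1⟩, ⟨0, 0⟩⟩,
   ⟨⟨0, 1⟩, ⟨0, 0⟩, ⟨-1, 0⟩⟩,
   ⟨⟨0, 0⟩, ⟨-1, 0⟩, ⟨0, -1⟩⟩,
   ⟨⟨-1, 0⟩, ⟨0, -1⟩, ⟨0, 0⟩⟩,
   ⟨⟨0, -1⟩, ⟨0, 0⟩, ⟨-1, 0⟩⟩]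

def pairsI : List (Z3 × Z3) :=
  [(⟨⟨2, 0⟩, ⟨0, 0⟩, ⟨0, 0⟩⟩, ⟨⟨0, 1⟩, ⟨1, 0⟩, ⟨-1, 1⟩⟩),
   (⟨⟨2, 0⟩, ⟨0, 0⟩, ⟨0, 0⟩⟩, ⟨⟨0, 1⟩, ⟨1, 0⟩, ⟨1, -1⟩⟩),
   (⟨⟨2, 0⟩, ⟨0, 0⟩, ⟨0, 0⟩⟩, ⟨⟨0, 1⟩, ⟨-1, 0⟩, ⟨-1, 1⟩⟩),
   (⟨⟨2, 0⟩, ⟨0, 0⟩, ⟨0, 0⟩⟩, ⟨⟨0, 1⟩, ⟨-1, 0⟩, ⟨1, -1⟩⟩),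
   (⟨⟨0, 0⟩, ⟨2, 0⟩, ⟨0, 0⟩⟩, ⟨⟨-1, 1⟩, ⟨0, 1⟩, ⟨1, 0⟩⟩),
   (⟨⟨0, 0⟩, ⟨2, 0⟩, ⟨0, 0⟩⟩, ⟨⟨-1, 1⟩, ⟨0, 1⟩, ⟨-1, 0⟩⟩),
   (⟨⟨0, 0⟩, ⟨2, 0⟩, ⟨0, 0⟩⟩, ⟨⟨1, -1⟩, ⟨0, 1⟩, ⟨1, 0⟩⟩),
   (⟨⟨0, 0⟩, ⟨2, 0⟩, ⟨0, 0⟩⟩, ⟨⟨1, -1⟩, ⟨0, 1⟩, ⟨-1, 0⟩⟩),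
   (⟨⟨0, 0⟩, ⟨0, 0⟩, ⟨2, 0⟩⟩, ⟨⟨1, 0⟩, ⟨-1, 1⟩, ⟨0, 1⟩⟩),
   (⟨⟨0, 0⟩, ⟨0, 0⟩, ⟨2, 0⟩⟩, ⟨⟨1, 0⟩, ⟨1, -1⟩, ⟨0, 1⟩⟩),
   (⟨⟨0, 0⟩, ⟨0, 0⟩, ⟨2, 0⟩⟩, ⟨⟨-1, 0⟩, ⟨-1, 1⟩, ⟨0, 1⟩⟩),
   (⟨⟨0, 0⟩, ⟨0, 0⟩, ⟨2, 0⟩⟩, ⟨⟨-1, 0⟩, ⟨1, -1⟩, ⟨0, 1⟩⟩)]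

def halfI00 : Half :=
  ⟨⟨⟨1, 0⟩, ⟨0, 1⟩, ⟨0, 0⟩⟩,
   ⟨⟨-1, 1⟩, ⟨0, -1⟩, ⟨-1, 0⟩⟩,
   ⟨⟨0, 1⟩, ⟨1, 0⟩, ⟨1, -1⟩⟩,
   ⟨⟨1, 0⟩, ⟨1, -1⟩, ⟨0, 1⟩⟩,
   ⟨⟨-1, 1⟩, ⟨0, -1⟩, ⟨-1, 0⟩⟩,
   ⟨⟨0, 1⟩, ⟨1, 0⟩, ⟨-1, 1⟩⟩,
   ⟨⟨1, 0⟩, ⟨1, -1⟩, ⟨0, -1⟩⟩,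
   ⟨⟨1, -1⟩, ⟨0, 1⟩, ⟨-1, 0⟩⟩,
   ⟨⟨1, 0⟩, ⟨0, 1⟩, ⟨0, 0⟩⟩,
   ⟨⟨0, 1⟩, ⟨0, 0⟩, ⟨1, 0⟩⟩⟩

def halfI01 : Half :=
  ⟨⟨⟨0, 1⟩, ⟨0, 0⟩, ⟨-1, 0⟩⟩,
   ⟨⟨1, -1⟩, ⟨0, -1⟩, ⟨1, 0⟩⟩,
   ⟨⟨0, 1⟩, ⟨-1, 0⟩, ⟨1, -1⟩⟩,
   ⟨⟨1, 0⟩, ⟨-1, 1⟩, ⟨0, 1⟩⟩,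
   ⟨⟨1, -1⟩, ⟨0, -1⟩, ⟨1, 0⟩⟩,
   ⟨⟨0, 1⟩, ⟨-1, 0⟩, ⟨1, -1⟩⟩,
   ⟨⟨1, 0⟩, ⟨-1, 1⟩, ⟨0, 1⟩⟩,
   ⟨⟨1, -1⟩, ⟨0, -1⟩, ⟨1, 0⟩⟩,
   ⟨⟨1, 0⟩, ⟨0, -1⟩, ⟨0, 0⟩⟩,
   ⟨⟨0, 1⟩, ⟨0, 0⟩, ⟨-1, 0⟩⟩⟩

def halfI10 : Half :=
  ⟨⟨⟨1, 0⟩, ⟨0, 1⟩, ⟨0, 0⟩⟩,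
   ⟨⟨-1, 1⟩, ⟨0, -1⟩, ⟨-1, 0⟩⟩,
   ⟨⟨0, 1⟩, ⟨1, 0⟩, ⟨1, -1⟩⟩,
   ⟨⟨1, 0⟩, ⟨1, -1⟩, ⟨0, 1⟩⟩,
   ⟨⟨-1, 1⟩, ⟨0, -1⟩, ⟨-1, 0⟩⟩,
   ⟨⟨0, 1⟩, ⟨1, 0⟩, ⟨1, -1⟩⟩,
   ⟨⟨1, 0⟩, ⟨1, -1⟩, ⟨0, 1⟩⟩,
   ⟨⟨-1, 1⟩, ⟨0, -1⟩, ⟨-1, 0⟩⟩,
   ⟨⟨0, 1⟩, ⟨0, 0⟩, ⟨-1, 0⟩⟩,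
   ⟨⟨1, 0⟩, ⟨0, 1⟩, ⟨0, 0⟩⟩⟩

def halfI11 : Half :=
  ⟨⟨⟨0, 1⟩, ⟨0, 0⟩, ⟨-1, 0⟩⟩,
   ⟨⟨1, -1⟩, ⟨0, -1⟩, ⟨1, 0⟩⟩,
   ⟨⟨0, 1⟩, ⟨-1, 0⟩, ⟨1, -1⟩⟩,
   ⟨⟨1, 0⟩, ⟨-1, 1⟩, ⟨0, 1⟩⟩,
   ⟨⟨1, -1⟩, ⟨0, -1⟩, ⟨1, 0⟩⟩,
   ⟨⟨0, 1⟩, ⟨-1, 0⟩, ⟨-1, 1⟩⟩,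
   ⟨⟨1, 0⟩, ⟨-1, 1⟩, ⟨0, -1⟩⟩,
   ⟨⟨-1, 1⟩, ⟨0, 1⟩, ⟨1, 0⟩⟩,
   ⟨⟨0, 1⟩, ⟨0, 0⟩, ⟨1, 0⟩⟩,
   ⟨⟨1, 0⟩, ⟨0, -1⟩, ⟨0, 0⟩⟩⟩

def locSI : List (List Spec) :=
  [halfI00.specs 2 ++ halfI01.specs 2, halfI10.specs 2 ++ halfI11.specs 2]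

def UI0a : Z3 := ⟨⟨0, 0⟩, ⟨0, 0⟩, ⟨3, 0⟩⟩
def UI0b : Z3 := ⟨⟨1, 0⟩, ⟨0, 0⟩, ⟨1, 1⟩⟩
def UI0c : Z3 := ⟨⟨2, -1⟩, ⟨1, 0⟩, ⟨1, 1⟩⟩
def edgesI0 : List (Z3 × Z3) :=
  [(⟨⟨1, 0⟩, ⟨0, 1⟩, ⟨0, 0⟩⟩, ⟨⟨-1, 1⟩, ⟨0, -1⟩, ⟨-1, 0⟩⟩),
   (⟨⟨-1, 0⟩, ⟨0, 1⟩, ⟨0, 0⟩⟩, ⟨⟨2, 0⟩, ⟨0, 0⟩, ⟨0, 0⟩⟩),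
   (⟨⟨0, 1⟩, ⟨0, 0⟩, ⟨-1, 0⟩⟩, ⟨⟨1, -1⟩, ⟨0, -1⟩, ⟨1, 0⟩⟩)]

def UI1a : Z3 := ⟨⟨0, 0⟩, ⟨0, 0⟩, ⟨3, 0⟩⟩
def UI1b : Z3 := ⟨⟨0, 0⟩, ⟨1, 0⟩, ⟨1, 1⟩⟩
def UI1c : Z3 := ⟨⟨2, -1⟩, ⟨1, 0⟩, ⟨1, 1⟩⟩
def edgesI1 : List (Z3 × Z3) :=
  [(⟨⟨1, 0⟩, ⟨0, 1⟩, ⟨0, 0⟩⟩, ⟨⟨-1, 1⟩, ⟨0, -1⟩, ⟨-1, 0⟩⟩),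
   (⟨⟨0, 1⟩, ⟨0, 0⟩, ⟨1, 0⟩⟩, ⟨⟨1, -1⟩, ⟨0, -1⟩, ⟨-1, 0⟩⟩),
   (⟨⟨-1, 0⟩, ⟨0, 1⟩, ⟨0, 0⟩⟩, ⟨⟨2, 0⟩, ⟨0, 0⟩, ⟨0, 0⟩⟩),
   (⟨⟨0, 1⟩, ⟨0, 0⟩, ⟨-1, 0⟩⟩, ⟨⟨0, 0⟩, ⟨0, 0⟩, ⟨2, 0⟩⟩)]

def UI2a : Z3 := ⟨⟨0, 0⟩, ⟨1, 0⟩, ⟨1, 1⟩⟩
def UI2b : Z3 := ⟨⟨0, 0⟩, ⟨0, 1⟩, ⟨1, 1⟩⟩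
def UI2c : Z3 := ⟨⟨2, -1⟩, ⟨1, 0⟩, ⟨1, 1⟩⟩
def edgesI2 : List (Z3 × Z3) :=
  [(⟨⟨1, 0⟩, ⟨0, 1⟩, ⟨0, 0⟩⟩, ⟨⟨-1, 1⟩, ⟨0, -1⟩, ⟨-1, 0⟩⟩),
   (⟨⟨0, 1⟩, ⟨0, 0⟩, ⟨1, 0⟩⟩, ⟨⟨1, -1⟩, ⟨0, -1⟩, ⟨-1, 0⟩⟩),
   (⟨⟨0, 0⟩, ⟨1, 0⟩, ⟨0, -1⟩⟩, ⟨⟨1, 0⟩, ⟨-1, 1⟩, ⟨0, 1⟩⟩),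
   (⟨⟨1, 0⟩, ⟨0, -1⟩, ⟨0, 0⟩⟩, ⟨⟨-1, 0⟩, ⟨-1, 1⟩, ⟨0, 1⟩⟩),
   (⟨⟨0, 1⟩, ⟨0, 0⟩, ⟨-1, 0⟩⟩, ⟨⟨0, 0⟩, ⟨0, 0⟩, ⟨2, 0⟩⟩)]

theorem pairsI_ok : (pairsI.all fun p => mirOK VI p.1 && mirOK VI p.2) = true := by
  decide +kernel

def VD : List Z3 :=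
  [⟨⟨1, 0⟩, ⟨1, 0⟩, ⟨1, 0⟩⟩,
   ⟨⟨1, 0⟩, ⟨1, 0⟩, ⟨-1, 0⟩⟩,
   ⟨⟨1, 0⟩, ⟨-1, 0⟩, ⟨1, 0⟩⟩,
   ⟨⟨1, 0⟩, ⟨-1, 0⟩, ⟨-1, 0⟩⟩,
   ⟨⟨-1, 0⟩, ⟨1, 0⟩, ⟨1, 0⟩⟩,
   ⟨⟨-1, 0⟩, ⟨1, 0⟩, ⟨-1, 0⟩⟩,
   ⟨⟨-1, 0⟩, ⟨-1, 0⟩, ⟨1, 0⟩⟩,
   ⟨⟨-1, 0⟩, ⟨-1, 0⟩, ⟨-1, 0⟩⟩,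
   ⟨⟨0, 0⟩, ⟨-1, 1⟩, ⟨0, 1⟩⟩,
   ⟨⟨-1, 1⟩, ⟨0, 1⟩, ⟨0, 0⟩⟩,
   ⟨⟨0, 1⟩, ⟨0, 0⟩, ⟨-1, 1⟩⟩,
   ⟨⟨0, 0⟩, ⟨-1, 1⟩, ⟨0, -1⟩⟩,
   ⟨⟨-1, 1⟩, ⟨0, -1⟩, ⟨0, 0⟩⟩,
   ⟨⟨0, -1⟩, ⟨0, 0⟩, ⟨-1, 1⟩⟩,
   ⟨⟨0, 0⟩, ⟨1, -1⟩, ⟨0, 1⟩⟩,
   ⟨⟨1, -1⟩, ⟨0, 1⟩, ⟨0, 0⟩⟩,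
   ⟨⟨0, 1⟩, ⟨0, 0⟩, ⟨1, -1⟩⟩,
   ⟨⟨0, 0⟩, ⟨1, -1⟩, ⟨0, -1⟩⟩,
   ⟨⟨1, -1⟩, ⟨0, -1⟩, ⟨0, 0⟩⟩,
   ⟨⟨0, -1⟩, ⟨0, 0⟩, ⟨1, -1⟩⟩]

def pairsD : List (Z3 × Z3) :=
  [(⟨⟨2, 0⟩, ⟨0, 0⟩, ⟨0, 0⟩⟩, ⟨⟨0, 1⟩, ⟨-1, 1⟩, ⟨1, 0⟩⟩),
   (⟨⟨2, 0⟩, ⟨0, 0⟩, ⟨0, 0⟩⟩, ⟨⟨0, 1⟩, ⟨-1, 1⟩, ⟨-1, 0⟩⟩),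
   (⟨⟨2, 0⟩, ⟨0, 0⟩, ⟨0, 0⟩⟩, ⟨⟨0, 1⟩, ⟨1, -1⟩, ⟨1, 0⟩⟩),
   (⟨⟨2, 0⟩, ⟨0, 0⟩, ⟨0, 0⟩⟩, ⟨⟨0, 1⟩, ⟨1, -1⟩, ⟨-1, 0⟩⟩),
   (⟨⟨0, 0⟩, ⟨2, 0⟩, ⟨0, 0⟩⟩, ⟨⟨1, 0⟩, ⟨0, 1⟩, ⟨-1, 1⟩⟩),
   (⟨⟨0, 0⟩, ⟨2, 0⟩, ⟨0, 0⟩⟩, ⟨⟨1, 0⟩, ⟨0, 1⟩, ⟨1, -1⟩⟩),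
   (⟨⟨0, 0⟩, ⟨2, 0⟩, ⟨0, 0⟩⟩, ⟨⟨-1, 0⟩, ⟨0, 1⟩, ⟨-1, 1⟩⟩),
   (⟨⟨0, 0⟩, ⟨2, 0⟩, ⟨0, 0⟩⟩, ⟨⟨-1, 0⟩, ⟨0, 1⟩, ⟨1, -1⟩⟩),
   (⟨⟨0, 0⟩, ⟨0, 0⟩, ⟨2, 0⟩⟩, ⟨⟨-1, 1⟩, ⟨1, 0⟩, ⟨0, 1⟩⟩),
   (⟨⟨0, 0⟩, ⟨0, 0⟩, ⟨2, 0⟩⟩, ⟨⟨-1, 1⟩, ⟨-1, 0⟩, ⟨0, 1⟩⟩),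
   (⟨⟨0, 0⟩, ⟨0, 0⟩, ⟨2, 0⟩⟩, ⟨⟨1, -1⟩, ⟨1, 0⟩, ⟨0, 1⟩⟩),
   (⟨⟨0, 0⟩, ⟨0, 0⟩, ⟨2, 0⟩⟩, ⟨⟨1, -1⟩, ⟨-1, 0⟩, ⟨0, 1⟩⟩)]

def halfD00 : Half :=
  ⟨⟨⟨-1, 1⟩, ⟨0, 1⟩, ⟨0, 0⟩⟩,
   ⟨⟨2, -1⟩, ⟨1, -1⟩, ⟨-1, 0⟩⟩,
   ⟨⟨1, 0⟩, ⟨0, 1⟩, ⟨1, -1⟩⟩,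
   ⟨⟨0, 1⟩, ⟨1, -1⟩, ⟨1, 0⟩⟩,
   ⟨⟨-1, 1⟩, ⟨-1, 0⟩, ⟨0, -1⟩⟩,
   ⟨⟨1, 0⟩, ⟨0, 1⟩, ⟨-1, 1⟩⟩,
   ⟨⟨0, 1⟩, ⟨1, -1⟩, ⟨-1, 0⟩⟩,
   ⟨⟨1, -1⟩, ⟨1, 0⟩, ⟨0, -1⟩⟩,
   ⟨⟨-1, 1⟩, ⟨0, 1⟩, ⟨0, 0⟩⟩,
   ⟨⟨1, 0⟩, ⟨1, 0⟩, ⟨1, 0⟩⟩⟩

def halfD01 : Half :=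
  ⟨⟨⟨1, 0⟩, ⟨-1, 0⟩, ⟨-1, 0⟩⟩,
   ⟨⟨-2, 1⟩, ⟨1, -1⟩, ⟨1, 0⟩⟩,
   ⟨⟨1, 0⟩, ⟨0, -1⟩, ⟨1, -1⟩⟩,
   ⟨⟨0, 1⟩, ⟨-1, 1⟩, ⟨1, 0⟩⟩,
   ⟨⟨1, -1⟩, ⟨-1, 0⟩, ⟨0, 1⟩⟩,
   ⟨⟨1, 0⟩, ⟨0, -1⟩, ⟨1, -1⟩⟩,
   ⟨⟨0, 1⟩, ⟨-1, 1⟩, ⟨1, 0⟩⟩,
   ⟨⟨1, -1⟩, ⟨-1, 0⟩, ⟨0, 1⟩⟩,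
   ⟨⟨-1, 1⟩, ⟨0, -1⟩, ⟨0, 0⟩⟩,
   ⟨⟨1, 0⟩, ⟨-1, 0⟩, ⟨-1, 0⟩⟩⟩

def halfD10 : Half :=
  ⟨⟨⟨-1, 1⟩, ⟨0, 1⟩, ⟨0, 0⟩⟩,
   ⟨⟨2, -1⟩, ⟨1, -1⟩, ⟨-1, 0⟩⟩,
   ⟨⟨1, 0⟩, ⟨0, 1⟩, ⟨1, -1⟩⟩,
   ⟨⟨0, 1⟩, ⟨1, -1⟩, ⟨1, 0⟩⟩,
   ⟨⟨-1, 1⟩, ⟨-1, 0⟩, ⟨0, -1⟩⟩,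
   ⟨⟨1, 0⟩, ⟨0, 1⟩, ⟨1, -1⟩⟩,
   ⟨⟨0, 1⟩, ⟨1, -1⟩, ⟨1, 0⟩⟩,
   ⟨⟨-1, 1⟩, ⟨-1, 0⟩, ⟨0, -1⟩⟩,
   ⟨⟨1, 0⟩, ⟨1, 0⟩, ⟨-1, 0⟩⟩,
   ⟨⟨-1, 1⟩, ⟨0, 1⟩, ⟨0, 0⟩⟩⟩

def halfD11 : Half :=
  ⟨⟨⟨1, 0⟩, ⟨-1, 0⟩, ⟨-1, 0⟩⟩,
   ⟨⟨-2, 1⟩, ⟨1, -1⟩, ⟨1, 0⟩⟩,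
   ⟨⟨1, 0⟩, ⟨0, -1⟩, ⟨1, -1⟩⟩,
   ⟨⟨0, 1⟩, ⟨-1, 1⟩, ⟨1, 0⟩⟩,
   ⟨⟨1, -1⟩, ⟨-1, 0⟩, ⟨0, 1⟩⟩,
   ⟨⟨1, 0⟩, ⟨0, -1⟩, ⟨-1, 1⟩⟩,
   ⟨⟨0, 1⟩, ⟨-1, 1⟩, ⟨-1, 0⟩⟩,
   ⟨⟨-1, 1⟩, ⟨1, 0⟩, ⟨0, 1⟩⟩,
   ⟨⟨1, 0⟩, ⟨-1, 0⟩, ⟨1, 0⟩⟩,
   ⟨⟨-1, 1⟩, ⟨0, -1⟩, ⟨0, 0⟩⟩⟩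

def locSD : List (List Spec) :=
  [halfD00.specs 3 ++ halfD01.specs 3, halfD10.specs 3 ++ halfD11.specs 3]

def UD0a : Z3 := ⟨⟨0, 0⟩, ⟨0, 0⟩, ⟨2, 0⟩⟩
def UD0b : Z3 := ⟨⟨0, 0⟩, ⟨1, 0⟩, ⟨1, 1⟩⟩
def UD0c : Z3 := ⟨⟨2, -1⟩, ⟨-1, 1⟩, ⟨-1, 2⟩⟩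
def edgesD0 : List (Z3 × Z3) :=
  [(⟨⟨1, 0⟩, ⟨1, 0⟩, ⟨-1, 0⟩⟩, ⟨⟨-1, 1⟩, ⟨-1, 0⟩, ⟨2, -1⟩⟩),
   (⟨⟨1, 0⟩, ⟨-1, 0⟩, ⟨1, 0⟩⟩, ⟨⟨-2, 1⟩, ⟨1, -1⟩, ⟨-1, 0⟩⟩),
   (⟨⟨-1, 1⟩, ⟨0, 1⟩, ⟨0, 0⟩⟩, ⟨⟨2, -1⟩, ⟨1, -1⟩, ⟨-1, 0⟩⟩),
   (⟨⟨0, 1⟩, ⟨0, 0⟩, ⟨-1, 1⟩⟩, ⟨⟨1, -1⟩, ⟨-1, 0⟩, ⟨2, -1⟩⟩),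
   (⟨⟨1, -1⟩, ⟨0, 1⟩, ⟨0, 0⟩⟩, ⟨⟨-2, 2⟩, ⟨0, 0⟩, ⟨0, 0⟩⟩),
   (⟨⟨0, 1⟩, ⟨0, 0⟩, ⟨1, -1⟩⟩, ⟨⟨0, 0⟩, ⟨0, 0⟩, ⟨-2, 2⟩⟩)]

def UD1a : Z3 := ⟨⟨0, 0⟩, ⟨0, 0⟩, ⟨2, 0⟩⟩
def UD1b : Z3 := ⟨⟨1, 0⟩, ⟨0, 0⟩, ⟨0, 1⟩⟩
def UD1c : Z3 := ⟨⟨2, -1⟩, ⟨-1, 1⟩, ⟨-1, 2⟩⟩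
def edgesD1 : List (Z3 × Z3) :=
  [(⟨⟨1, 0⟩, ⟨1, 0⟩, ⟨-1, 0⟩⟩, ⟨⟨-1, 1⟩, ⟨-1, 0⟩, ⟨2, -1⟩⟩),
   (⟨⟨1, 0⟩, ⟨-1, 0⟩, ⟨-1, 0⟩⟩, ⟨⟨-2, 1⟩, ⟨1, -1⟩, ⟨1, 0⟩⟩),
   (⟨⟨-1, 1⟩, ⟨0, 1⟩, ⟨0, 0⟩⟩, ⟨⟨2, -1⟩, ⟨1, -1⟩, ⟨-1, 0⟩⟩),
   (⟨⟨1, -1⟩, ⟨0, 1⟩, ⟨0, 0⟩⟩, ⟨⟨-2, 2⟩, ⟨0, 0⟩, ⟨0, 0⟩⟩),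
   (⟨⟨0, 1⟩, ⟨0, 0⟩, ⟨1, -1⟩⟩, ⟨⟨1, -1⟩, ⟨-1, 0⟩, ⟨-2, 1⟩⟩)]

theorem pairsD_ok : (pairsD.all fun p => mirOK VD p.1 && mirOK VD p.2) = true := by
  decide +kernel


end Pool.Agent.Lib.MP_5fb7d4_co
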