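import Pool.Agent.Lib.MP_5fb7d4_co.Alg

-- part Pool.Agent.Lib.MP_5fb7d4_co.LocVec
section

set_option autoImplicit false

namespace Pool.Agent.Lib.MP_5fb7d4_co

open Matrix

theorem rot_dot (x a b : V3) : (Rot x *ᵥ a) ⬝ᵥ (Rot x *ᵥ b) = nq x ^ 2 * (a ⬝ᵥ b) := by
  simp [Rot, nq, Matrix.mulVec, dotProduct, Fin.sum_univ_three]
  ring

def frameOK (m e f : Z3) : Bool :=
  decide (((m.x.mul m.x).add (e.x.mul e.x)).add (f.x.mul f.x) = ⟨4, 0⟩) &&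
  decide (((m.y.mul m.y).add (e.y.mul e.y)).add (f.y.mul f.y) = ⟨4, 0⟩) &&
  decide (((m.z.mul m.z).add (e.z.mul e.z)).add (f.z.mul f.z) = ⟨4, 0⟩) &&
  decide (((m.x.mul m.y).add (e.x.mul e.y)).add (f.x.mul f.y) = ⟨0, 0⟩) &&
  decide (((m.x.mul m.z).add (e.x.mul e.z)).add (f.x.mul f.z) = ⟨0, 0⟩) &&
  decide (((m.y.mul m.z).add (e.y.mul e.z)).add (f.y.mul f.z) = ⟨0, 0⟩)

theorem frameOK_sound {m e f : Z3} (h : frameOK m e f = true) (y z : V3) :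
    4 * (y ⬝ᵥ z) = (y ⬝ᵥ m.val) * (m.val ⬝ᵥ z) + (y ⬝ᵥ e.val) * (e.val ⬝ᵥ z)
      + (y ⬝ᵥ f.val) * (f.val ⬝ᵥ z) := by
  simp only [frameOK, Bool.and_eq_true, decide_eq_true_eq] at h
  obtain ⟨⟨⟨⟨⟨h1, h2⟩, h3⟩, h4⟩, h5⟩, h6⟩ := h
  have e1 := congrArg Zp.val h1
  have e2 := congrArg Zp.val h2
  have e3 := congrArg Zp.val h3
  have e4 := congrArg Zp.val h4
  have e5 := congrArg Zp.val h5
  have e6 := congrArg Zp.val h6
  have z4 : Zp.val ⟨4, 0⟩ = 4 := by simp [Zp.val]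
  have z0 : Zp.val ⟨0, 0⟩ = 0 := by simp [Zp.val]
  simp only [Zp.val_add, Zp.val_mul, z4, z0] at e1 e2 e3 e4 e5 e6
  simp [Z3.val, dotProduct, Fin.sum_univ_three]
  linear_combination (-(y 0 * z 0)) * e1 - (y 1 * z 1) * e2 - (y 2 * z 2) * e3
    - (y 0 * z 1 + y 1 * z 0) * e4 - (y 0 * z 2 + y 2 * z 0) * e5 - (y 1 * z 2 + y 2 * z 1) * e6

def z30 : Z3 := ⟨⟨0, 0⟩, ⟨0, 0⟩, ⟨0, 0⟩⟩

theorem z30_val : z30.val = 0 := by
  ext i; fin_cases i <;> simp [z30, Z3.val, Zp.val]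

/-- Data for one pair (outer edge, inner edge). -/
structure Half where
  a : Z3
  d : Z3
  m : Z3
  e : Z3
  f : Z3
  n : Z3
  g : Z3
  k : Z3
  cp : Z3
  cm : Z3

def Half.ok (Vl : List Z3) (l : Zp) (H : Half) : Bool :=
  frameOK H.m H.e H.f && frameOK H.n H.g H.k && decide (H.d.cross H.f = z30) &&
  decide (H.d.cross ((Z3.sm 2 H.a).sub (Z3.mul ⟨0, 1⟩ H.m)) = z30) &&
  decide (H.cp ∈ Vl) && decide (H.cm ∈ Vl) &&
  decide ((Z3.sm 2 H.cp).sub (Z3.mul ⟨0, 1⟩ H.n) = Z3.mul (l.mul ⟨0, 1⟩) H.k) &&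
  decide ((Z3.mul ⟨0, 1⟩ H.n).sub (Z3.sm 2 H.cm) = Z3.mul (l.mul ⟨0, 1⟩) H.k)

def Half.specs (sm : Int) (H : Half) : List Spec :=
  [⟨100, H.d, H.n, Z3.sm 94 (H.d.cross H.m)⟩, ⟨1, H.d, H.g, z30⟩,
   ⟨0, H.d, z30, (Z3.sm 10 (H.d.cross H.e)).sub (Z3.sm sm (H.d.cross H.m))⟩,
   ⟨0, H.d, z30, (Z3.sm (-10) (H.d.cross H.e)).sub (Z3.sm sm (H.d.cross H.m))⟩]

theorem Half.scalars {Vl : List Z3} {V : Set V3} (hV : ∀ v, v ∈ V ↔ ∃ z ∈ Vl, z.val = v)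
    {l : Zp} {H : Half} (hok : H.ok Vl l = true) {sm : Int} (hsm : 0 < sm) {c : ℝ} {u x : V3}
    (hC : CondX V c u x) (hsil : ∀ v ∈ V, (u ⨯₃ H.d.val) ⬝ᵥ v ≤ (u ⨯₃ H.d.val) ⬝ᵥ H.a.val)
    (hs : ∀ s ∈ H.specs sm, 0 < s.form u x) :
    ∃ h s p q r : ℝ, 0 < h ∧ (u ⨯₃ H.d.val) ⬝ᵥ H.m.val = 2 * h ∧
      (u ⨯₃ H.d.val) ⬝ᵥ H.e.val = 2 * h * s ∧ (u ⨯₃ H.d.val) ⬝ᵥ H.f.val = 0 ∧
      (Rot x *ᵥ (u ⨯₃ H.d.val)) ⬝ᵥ H.n.val = 2 * (nq x * h) * p ∧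
      (Rot x *ᵥ (u ⨯₃ H.d.val)) ⬝ᵥ H.g.val = 2 * (nq x * h) * q ∧
      (Rot x *ᵥ (u ⨯₃ H.d.val)) ⬝ᵥ H.k.val = 2 * (nq x * h) * r ∧
      p ^ 2 + q ^ 2 + r ^ 2 = 1 + s ^ 2 ∧ c * (p + l.val * r) ≤ 1 ∧ c * (p - l.val * r) ≤ 1 ∧
      0.94 < p ∧ 0 < q ∧ |s| ≤ sm / 10 := by
  simp only [Half.ok, Bool.and_eq_true, decide_eq_true_eq] at hok
  obtain ⟨⟨⟨⟨⟨⟨⟨F1, F2⟩, o1⟩, o2⟩, o3⟩, o4⟩, o5⟩, o6⟩ := hok
  have zp : Zp.val ⟨0, 1⟩ = ph := by simp [Zp.val]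
  have hn := nq_pos x
  have hph : (0 : ℝ) < ph := lt_trans (by norm_num) ph_lb
  have hsm' : (0 : ℝ) < sm := by exact_mod_cast hsm
  have s1 := hs _ (List.mem_cons_self)
  have s2 := hs _ (List.mem_cons_of_mem _ List.mem_cons_self)
  have s3 := hs _ (List.mem_cons_of_mem _ (List.mem_cons_of_mem _ List.mem_cons_self))
  have s4 := hs _ (List.mem_cons_of_mem _ (List.mem_cons_of_mem _ (List.mem_cons_of_mem _
    List.mem_cons_self)))
  simp only [Spec.form, Z3.val_sm, Z3.val_cross, Z3.val_sub, dotProduct_smul, dotProduct_sub,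
    smul_eq_mul, triple_eq, z30_val, dotProduct_zero] at s1 s2 s3 s4
  push_cast at s1 s2 s3 s4
  have e1 : (u ⨯₃ H.d.val) ⬝ᵥ H.f.val = 0 := by
    rw [← triple_eq, ← Z3.val_cross, o1, z30_val, dotProduct_zero]
  have e2 : 2 * ((u ⨯₃ H.d.val) ⬝ᵥ H.a.val) = ph * ((u ⨯₃ H.d.val) ⬝ᵥ H.m.val) := by
    have : (u ⨯₃ H.d.val) ⬝ᵥ ((Z3.sm 2 H.a).sub (Z3.mul ⟨0, 1⟩ H.m)).val = 0 := by
      rw [← triple_eq, ← Z3.val_cross, o2, z30_val, dotProduct_zero]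
    rw [Z3.val_sub, Z3.val_sm, Z3.val_mul, dotProduct_sub, dotProduct_smul, dotProduct_smul, zp,
      smul_eq_mul, smul_eq_mul] at this
    push_cast at this
    linarith
  have c1 := hC _ (cross_dot_self u H.d.val) _ hsil H.cp.val ((hV _).2 ⟨_, o3, rfl⟩)
  have c2 := hC _ (cross_dot_self u H.d.val) _ hsil H.cm.val ((hV _).2 ⟨_, o4, rfl⟩)
  have e3 := congrArg (fun z : Z3 => (Rot x *ᵥ (u ⨯₃ H.d.val)) ⬝ᵥ z.val) o5
  have e4 := congrArg (fun z : Z3 => (Rot x *ᵥ (u ⨯₃ H.d.val)) ⬝ᵥ z.val) o6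
  simp only [Z3.val_sub, Z3.val_sm, Z3.val_mul, Zp.val_mul, dotProduct_sub, dotProduct_smul, zp,
    smul_eq_mul] at e3 e4
  push_cast at e3 e4
  have g1 := frameOK_sound F1 (u ⨯₃ H.d.val) (u ⨯₃ H.d.val)
  have g2 := frameOK_sound F2 (Rot x *ᵥ (u ⨯₃ H.d.val)) (Rot x *ᵥ (u ⨯₃ H.d.val))
  rw [rot_dot] at g2
  rw [dotProduct_comm H.m.val, dotProduct_comm H.e.val, dotProduct_comm H.f.val, e1] at g1
  rw [dotProduct_comm H.n.val, dotProduct_comm H.g.val, dotProduct_comm H.k.val] at g2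
  generalize (u ⨯₃ H.d.val) ⬝ᵥ (u ⨯₃ H.d.val) = W at *
  generalize (u ⨯₃ H.d.val) ⬝ᵥ H.m.val = M at *
  generalize (u ⨯₃ H.d.val) ⬝ᵥ H.e.val = E at *
  generalize (u ⨯₃ H.d.val) ⬝ᵥ H.a.val = A at *
  generalize (Rot x *ᵥ (u ⨯₃ H.d.val)) ⬝ᵥ H.n.val = P at *
  generalize (Rot x *ᵥ (u ⨯₃ H.d.val)) ⬝ᵥ H.g.val = Q at *
  generalize (Rot x *ᵥ (u ⨯₃ H.d.val)) ⬝ᵥ H.k.val = R at *
  generalize (Rot x *ᵥ (u ⨯₃ H.d.val)) ⬝ᵥ H.cp.val = Cp at *
  generalize (Rot x *ᵥ (u ⨯₃ H.d.val)) ⬝ᵥ H.cm.val = Cm at *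
  generalize nq x = N at *
  have t3 : 0 < sm * M - 10 * E := by
    have : 0 < (sm * M - 10 * E) * N := by linarith
    exact (mul_pos_iff_of_pos_right hn).1 this
  have t4 : 0 < sm * M + 10 * E := by
    have : 0 < (sm * M + 10 * E) * N := by linarith
    exact (mul_pos_iff_of_pos_right hn).1 this
  have hM : 0 < M := by
    have : 0 < sm * M := by linarith
    exact (mul_pos_iff_of_pos_left hsm').1 this
  have hNM : 0 < N * M := mul_pos hn hM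
  refine ⟨M / 2, E / M, P / (N * M), Q / (N * M), R / (N * M), by positivity, by ring,
    by field_simp, e1, by field_simp, by field_simp, by field_simp, ?_, ?_, ?_, ?_, ?_, ?_⟩
  · field_simp
    linear_combination -g2 + N ^ 2 * g1
  · have : c * (P / (N * M) + l.val * (R / (N * M))) = c * (P + l.val * R) / (N * M) := by
      field_simp
    rw [this, div_le_one hNM]
    refine le_of_mul_le_mul_left ?_ hph
    have h1 : ph * (c * (P + l.val * R)) = 2 * (c * Cp) := by linear_combination (-c) * e3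
    have h2 : ph * (N * M) = 2 * (A * N) := by linear_combination (-N) * e2
    rw [h1, h2]; linarith
  · have : c * (P / (N * M) - l.val * (R / (N * M))) = c * (P - l.val * R) / (N * M) := by
      field_simp
    rw [this, div_le_one hNM]
    refine le_of_mul_le_mul_left ?_ hph
    have h1 : ph * (c * (P - l.val * R)) = 2 * (c * Cm) := by linear_combination c * e4
    have h2 : ph * (N * M) = 2 * (A * N) := by linear_combination (-N) * e2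
    rw [h1, h2]; linarith
  · rw [lt_div_iff₀ hNM]; linarith
  · exact div_pos (by linarith) hNM
  · rw [abs_le]
    constructor
    · rw [le_div_iff₀ hM]; linarith
    · rw [div_le_iff₀ hM]; linarith

theorem pair_scalars {Vl : List Z3} {V : Set V3} (hV : ∀ v, v ∈ V ↔ ∃ z ∈ Vl, z.val = v)
    {l : Zp} {H K : Half} (hH : H.ok Vl l = true) (hK : K.ok Vl l = true) {sm : Int}
    (hsm : 0 < sm) {c : ℝ} {u x : V3} (hC : CondX V c u x)
    (sH : ∀ v ∈ V, (u ⨯₃ H.d.val) ⬝ᵥ v ≤ (u ⨯₃ H.d.val) ⬝ᵥ H.a.val)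
    (sK : ∀ v ∈ V, (u ⨯₃ K.d.val) ⬝ᵥ v ≤ (u ⨯₃ K.d.val) ⬝ᵥ K.a.val)
    (hs : ∀ s ∈ H.specs sm ++ K.specs sm, 0 < s.form u x) :
    ∃ s t p1 q1 r1 p2 q2 r2 : ℝ,
      p1 ^ 2 + q1 ^ 2 + r1 ^ 2 = 1 + s ^ 2 ∧ p2 ^ 2 + q2 ^ 2 + r2 ^ 2 = 1 + t ^ 2 ∧
      (H.m.dot K.m).val + (H.e.dot K.m).val * s + (H.m.dot K.e).val * t + (H.e.dot K.e).val * s * t =
        (H.n.dot K.n).val * p1 * p2 + (H.n.dot K.g).val * p1 * q2 + (H.g.dot K.n).val * q1 * p2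
        + (H.g.dot K.g).val * q1 * q2 + (H.n.dot K.k).val * p1 * r2 + (H.g.dot K.k).val * q1 * r2
        + (H.k.dot K.n).val * r1 * p2 + (H.k.dot K.g).val * r1 * q2 + (H.k.dot K.k).val * r1 * r2 ∧
      c * (p1 + l.val * r1) ≤ 1 ∧ c * (p1 - l.val * r1) ≤ 1 ∧
      c * (p2 + l.val * r2) ≤ 1 ∧ c * (p2 - l.val * r2) ≤ 1 ∧
      0.94 < p1 ∧ 0.94 < p2 ∧ 0 < q1 ∧ 0 < q2 ∧ |s| ≤ sm / 10 ∧ |t| ≤ sm / 10 := by
  obtain ⟨h1, s, p1, q1, r1, a0, a1, a2, a3, a4, a5, a6, a7, a8, a9, a10, a11, a12⟩ :=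
    Half.scalars hV hH hsm hC sH fun s hs' => hs s (List.mem_append_left _ hs')
  obtain ⟨h2, t, p2, q2, r2, b0, b1, b2, b3, b4, b5, b6, b7, b8, b9, b10, b11, b12⟩ :=
    Half.scalars hV hK hsm hC sK fun s hs' => hs s (List.mem_append_right _ hs')
  refine ⟨s, t, p1, q1, r1, p2, q2, r2, a7, b7, ?_, a8, a9, b8, b9, a10, b10, a11, b11, a12, b12⟩
  simp only [Half.ok, Bool.and_eq_true] at hH hK
  obtain ⟨⟨⟨⟨⟨⟨⟨F1, F2⟩, -⟩, -⟩, -⟩, -⟩, -⟩, -⟩ := hH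
  obtain ⟨⟨⟨⟨⟨⟨⟨G1, G2⟩, -⟩, -⟩, -⟩, -⟩, -⟩, -⟩ := hK
  have hn := nq_pos x
  have o := frameOK_sound F1 (u ⨯₃ H.d.val) (u ⨯₃ K.d.val)
  have om := frameOK_sound G1 H.m.val (u ⨯₃ K.d.val)
  have oe := frameOK_sound G1 H.e.val (u ⨯₃ K.d.val)
  have i := frameOK_sound F2 (Rot x *ᵥ (u ⨯₃ H.d.val)) (Rot x *ᵥ (u ⨯₃ K.d.val))
  have im := frameOK_sound G2 H.n.val (Rot x *ᵥ (u ⨯₃ K.d.val))
  have ie := frameOK_sound G2 H.g.val (Rot x *ᵥ (u ⨯₃ K.d.val))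
  have ik := frameOK_sound G2 H.k.val (Rot x *ᵥ (u ⨯₃ K.d.val))
  rw [rot_dot, a4, a5, a6] at i
  rw [a1, a2, a3] at o
  rw [dotProduct_comm K.m.val, dotProduct_comm K.e.val, dotProduct_comm K.f.val, b1, b2, b3] at om oe
  rw [dotProduct_comm K.n.val, dotProduct_comm K.g.val, dotProduct_comm K.k.val, b4, b5, b6]
    at im ie ik
  simp only [Z3.val_dot]
  have hpos : 0 < nq x ^ 2 * h1 * h2 := by positivity
  refine mul_left_cancel₀ hpos.ne' ?_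
  linear_combination (-(nq x) ^ 2) * o - (nq x ^ 2 * h1 / 2) * om - (nq x ^ 2 * h1 * s / 2) * oe
    + i + (nq x * h1 * p1 / 2) * im + (nq x * h1 * q1 / 2) * ie + (nq x * h1 * r1 / 2) * ik

end Pool.Agent.Lib.MP_5fb7d4_co
end

-- part Pool.Agent.Lib.MP_5fb7d4_co.Lower
section

set_option autoImplicit false

namespace Pool.Agent.Lib.MP_5fb7d4_co

open Matrix Topology

theorem seg_mem {K : Set V3} (hK : Convex ℝ K) {a : V3} (h1 : a ∈ K) (h2 : -a ∈ K) {t : ℝ}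
    (ht : |t| ≤ 1) : t • a ∈ K := by
  obtain ⟨t1, t2⟩ := abs_le.1 ht
  have := hK h1 h2 (a := (1 + t) / 2) (b := (1 - t) / 2) (by linarith) (by linarith) (by ring)
  convert this using 1
  ext i; simp; ring

theorem hull_nhds {V : Set V3} (hneg : ∀ v ∈ V, -v ∈ V)
    (hb : ∀ j : Fin 3, ∃ a ∈ V, ∃ b ∈ V, a + b = Pi.single j (2 : ℝ)) :
    convexHull ℝ V ∈ 𝓝 (0 : V3) := by
  have hK := convex_convexHull ℝ V
  have he : ∀ (j : Fin 3) (t : ℝ), |t| ≤ 1 → t • (Pi.single j (1 : ℝ) : V3) ∈ convexHull ℝ V := by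
    intro j t ht
    obtain ⟨a, ha, b, hb, hab⟩ := hb j
    have e1 : (Pi.single j (1 : ℝ) : V3) = (1 / 2 : ℝ) • a + (1 / 2 : ℝ) • b := by
      rw [← smul_add, hab, ← Pi.single_smul]; norm_num
    refine seg_mem hK ?_ ?_ ht
    · rw [e1]
      exact hK (subset_convexHull ℝ V ha) (subset_convexHull ℝ V hb) (by norm_num) (by norm_num)
        (by norm_num)
    · rw [e1, neg_add, ← smul_neg, ← smul_neg]
      exact hK (subset_convexHull ℝ V (hneg a ha)) (subset_convexHull ℝ V (hneg b hb))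
        (by norm_num) (by norm_num) (by norm_num)
  refine Filter.mem_of_superset (Metric.ball_mem_nhds 0 (show (0 : ℝ) < 1 / 4 by norm_num)) ?_
  intro y hy
  rw [mem_ball_zero_iff, pi_norm_lt_iff (by norm_num)] at hy
  have b : ∀ j, |4 * y j| ≤ 1 := fun j => by
    have := hy j
    rw [Real.norm_eq_abs] at this
    rw [abs_mul, abs_of_pos (show (0 : ℝ) < 4 by norm_num)]; linarith
  have h01 := hK (he 0 _ (b 0)) (he 1 _ (b 1)) (a := 1 / 2) (b := 1 / 2) (by norm_num) (by norm_num)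
    (by norm_num)
  have h2 := he 2 (2 * y 2) (by
    have := b 2
    rw [abs_mul, abs_of_pos (show (0 : ℝ) < 4 by norm_num)] at this
    rw [abs_mul, abs_two]; linarith [abs_nonneg (y 2)])
  have h := hK h01 h2 (a := 1 / 2) (b := 1 / 2) (by norm_num) (by norm_num) (by norm_num)
  convert h using 1
  ext i
  fin_cases i <;> simp <;> ring

theorem lower_gen {V : Set V3} (hneg : ∀ v ∈ V, -v ∈ V)
    (hb : ∀ j : Fin 3, ∃ a ∈ V, ∃ b ∈ V, a + b = Pi.single j (2 : ℝ)) {ν α β γ δ : ℝ} (hν : 0 < ν)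
    (h1 : ν ^ 2 * (α ^ 2 + β ^ 2) = 1) (h2 : γ ^ 2 + δ ^ 2 = ν ^ 2)
    (h : ∀ v ∈ V, ∃ k ∈ convexHull ℝ V, v 0 = α * k 0 - β * k 2 ∧ γ * v 1 + δ * v 2 = k 1)
    {c : ℝ} (hc0 : 0 < c) (hc : c < ν) : c ∈ Pass V := by
  have hν0 : ν ≠ 0 := hν.ne'
  let A : M3 := !![1, 0, 0; 0, γ / ν, δ / ν; 0, -(δ / ν), γ / ν]
  let B : M3 := !![ν * α, 0, -(ν * β); 0, 1, 0; ν * β, 0, ν * α]
  have h3 : γ / ν * (γ / ν) + δ / ν * (δ / ν) = 1 := by field_simp; linarith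
  have hA : A ∈ Matrix.specialOrthogonalGroup (Fin 3) ℝ := by
    rw [Matrix.mem_specialOrthogonalGroup_iff, Matrix.mem_orthogonalGroup_iff]
    constructor
    · ext i j
      fin_cases i <;> fin_cases j <;> simp [A, Matrix.mul_apply, Fin.sum_univ_three] <;> linarith
    · rw [Matrix.det_fin_three]; simp [A]; linarith
  have hB : B ∈ Matrix.specialOrthogonalGroup (Fin 3) ℝ := by
    rw [Matrix.mem_specialOrthogonalGroup_iff, Matrix.mem_orthogonalGroup_iff]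
    constructor
    · ext i j
      fin_cases i <;> fin_cases j <;> simp [B, Matrix.mul_apply, Fin.sum_univ_three] <;> linarith
    · rw [Matrix.det_fin_three]; simp [B]; linarith
  refine ⟨hc0, A, hA, B, hB, 0, ?_⟩
  have hK := convex_convexHull ℝ V
  let pr : M3 → V3 →ₗ[ℝ] (Fin 2 → ℝ) := fun M =>
    { toFun := fun x => ![(M *ᵥ x) 0, (M *ᵥ x) 1]
      map_add' := by intro x y; ext i; fin_cases i <;> simp [Matrix.mulVec_add]
      map_smul' := by intro t x; ext i; fin_cases i <;> simp [Matrix.mulVec_smul] }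
  have hP : Convex ℝ (pr B '' convexHull ℝ V) := hK.linear_image _
  have h0 : (0 : Fin 2 → ℝ) ∈ interior (pr B '' convexHull ℝ V) := by
    rw [mem_interior_iff_mem_nhds]
    let σ : (Fin 2 → ℝ) → V3 := fun z => ![ν * α * z 0, z 1, -(ν * β * z 0)]
    have hσ : Continuous σ := by
      refine continuous_pi fun i => ?_
      fin_cases i <;> simp [σ] <;> fun_prop
    have hσ0 : σ 0 = 0 := by ext i; fin_cases i <;> simp [σ]
    have := hσ.continuousAt.preimage_mem_nhds (hσ0 ▸ hull_nhds hneg hb)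
    refine Filter.mem_of_superset this fun z hz => ⟨σ z, hz, ?_⟩
    ext i
    fin_cases i
    · simp [pr, σ, B, Matrix.mulVec, dotProduct, Fin.sum_univ_three]
      linear_combination (z 0) * h1
    · simp [pr, σ, B, Matrix.mulVec, dotProduct, Fin.sum_univ_three]
  have hcl : convexHull ℝ V ⊆ (ν • pr A) ⁻¹' (pr B '' convexHull ℝ V) := by
    refine convexHull_min (fun v hv => ?_) (hP.linear_preimage _)
    obtain ⟨k, hk, e1, e2⟩ := h v hv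
    refine ⟨k, hk, ?_⟩
    ext i
    fin_cases i
    · simp [pr, A, B, Matrix.mulVec, dotProduct, Fin.sum_univ_three]
      rw [e1]; ring
    · simp [pr, A, B, Matrix.mulVec, dotProduct, Fin.sum_univ_three]
      rw [← e2]; field_simp
  rintro _ ⟨x, hx, rfl⟩
  have h4 := hP.combo_interior_self_mem_interior h0 (hcl hx) (a := 1 - c / ν) (b := c / ν)
    (by rw [sub_pos, div_lt_one hν]; exact hc) (by positivity) (by ring)
  rw [smul_zero, zero_add, LinearMap.smul_apply, smul_smul, div_mul_cancel₀ _ hν0] at h4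
  change c • pr A x + 0 ∈ interior (pr B '' convexHull ℝ V)
  rw [add_zero]
  exact h4

def SI : Set V3 := {v | ∃ s t : ℝ, (s = 1 ∨ s = -1) ∧ (t = 1 ∨ t = -1) ∧
          (v = ![0, s, t * Real.goldenRatio] ∨ v = ![s, t * Real.goldenRatio, 0] ∨
           v = ![t * Real.goldenRatio, 0, s])}

def SD : Set V3 := {v | ∃ r s t : ℝ, (r = 1 ∨ r = -1) ∧ (s = 1 ∨ s = -1) ∧ (t = 1 ∨ t = -1) ∧
          (v = ![r, s, t] ∨ v = ![0, s / Real.goldenRatio, t * Real.goldenRatio] ∨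
           v = ![s / Real.goldenRatio, t * Real.goldenRatio, 0] ∨
           v = ![t * Real.goldenRatio, 0, s / Real.goldenRatio])}

theorem neg_sign {s : ℝ} (h : s = 1 ∨ s = -1) : -s = 1 ∨ -s = -1 := by
  rcases h with rfl | rfl <;> simp

theorem div_ph (s : ℝ) : s / ph = s * (ph - 1) := by
  have := ph_lb
  have h3 : ph ^ 2 = ph + 1 := phi_sq
  rw [div_eq_iff (by linarith)]
  linear_combination (-s) * h3

theorem combo {K : Set V3} (hK : Convex ℝ K) {a b : V3} (ha : a ∈ K) (hb : b ∈ K) {θ : ℝ}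
    (h0 : 0 ≤ θ) (h1 : θ ≤ 1) : θ • a + (1 - θ) • b ∈ K :=
  hK ha hb h0 (by linarith) (by ring)

theorem containI {α β γ δ : ℝ} (g0 : 0 ≤ γ) (g1 : γ ≤ 1) (d0 : 0 ≤ δ)
    (d1 : γ + δ * ph ≤ ph) (e1 : γ * α + (1 - γ) * (α * ph + β) = 1)
    (e2 : δ * (ph - 1) * α + (1 - δ * (ph - 1)) * (α * ph + β) = ph) :
    ∀ v ∈ SI, ∃ k ∈ convexHull ℝ SI, v 0 = α * k 0 - β * k 2 ∧ γ * v 1 + δ * v 2 = k 1 := by
  have hK := convex_convexHull ℝ SI
  have f1 := ph_lb; have f2 := ph_ub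
  have f3 : ph ^ 2 = ph + 1 := phi_sq
  have m2 : ∀ s t : ℝ, (s = 1 ∨ s = -1) → (t = 1 ∨ t = -1) → ![s, t * ph, 0] ∈ convexHull ℝ SI :=
    fun s t hs ht => subset_convexHull ℝ SI ⟨s, t, hs, ht, Or.inr (Or.inl rfl)⟩
  have m3 : ∀ s t : ℝ, (s = 1 ∨ s = -1) → (t = 1 ∨ t = -1) → ![t * ph, 0, s] ∈ convexHull ℝ SI :=
    fun s t hs ht => subset_convexHull ℝ SI ⟨s, t, hs, ht, Or.inr (Or.inr rfl)⟩
  have mid : ∀ t : ℝ, (t = 1 ∨ t = -1) → ![0, t * ph, 0] ∈ convexHull ℝ SI := by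
    intro t ht
    have := combo hK (m2 1 t (Or.inl rfl) ht) (m2 (-1) t (Or.inr rfl) ht) (θ := 1 / 2)
      (by norm_num) (by norm_num)
    convert this using 1
    ext i; fin_cases i <;> simp <;> ring
  have hd : δ * ph ≤ ph := by linarith
  have hd1 : δ ≤ 1 := by nlinarith
  rintro v ⟨s, t, hs, ht, rfl | rfl | rfl⟩
  · have hab : |(γ * s + δ * (t * ph)) / ph| ≤ 1 := by
      rw [abs_div, abs_of_pos (show 0 < ph by linarith), div_le_one (by linarith), abs_le]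
      have : 0 ≤ δ * ph := by positivity
      rcases hs with rfl | rfl <;> rcases ht with rfl | rfl <;> constructor <;> linarith
    refine ⟨_, seg_mem hK (mid 1 (Or.inl rfl)) (by
      have := mid (-1) (Or.inr rfl)
      convert this using 1
      ext i; fin_cases i <;> simp) hab, by simp, ?_⟩
    have : ph ≠ 0 := by linarith
    simp
    field_simp
  · refine ⟨_, combo hK (m2 s t hs ht) (m3 (-s) s (neg_sign hs) hs) g0 g1, ?_, ?_⟩
    · simp; linear_combination (-s) * e1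
    · simp
  · refine ⟨_, combo hK (m2 t s ht hs) (m3 (-t) t (neg_sign ht) ht) (θ := δ * (ph - 1))
      (by nlinarith) (by nlinarith), ?_, ?_⟩
    · simp; linear_combination (-t) * e2
    · simp; linear_combination (-δ * s) * f3

theorem containD {α β γ δ τ θ y : ℝ} (g0 : 0 ≤ γ - δ) (g1 : γ - δ ≤ 1) (d0 : 0 ≤ δ)
    (d1 : γ * (ph - 1) + δ * ph ≤ ph)
    (a0 : 0 ≤ ph * (γ + δ - 1)) (a1 : ph * (γ + δ - 1) ≤ 1)
    (b0 : 0 ≤ ph * (γ * ph - 1)) (b1 : ph * (γ * ph - 1) ≤ 1)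
    (t0 : 0 ≤ τ) (t1 : τ ≤ 1) (c0 : 0 ≤ θ) (c1 : θ ≤ 1) (y0 : 0 ≤ y) (y1 : y ≤ 1)
    (e1 : ph * (γ + δ - 1) * α * (ph - 1) + (1 - ph * (γ + δ - 1)) * (α + β) = 1)
    (e2 : ph * (γ * ph - 1) * α * (ph - 1) + (1 - ph * (γ * ph - 1)) * (α + β) = ph - 1)
    (e3 : τ * (α + β) = 1) (e4 : θ * (ph * α + β * (ph - 1)) + (1 - θ) * (α + β) = ph)
    (e5 : (1 - θ) * y = δ * (ph - 1)) :
    ∀ v ∈ SD, ∃ k ∈ convexHull ℝ SD, v 0 = α * k 0 - β * k 2 ∧ γ * v 1 + δ * v 2 = k 1 := by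
  have hK := convex_convexHull ℝ SD
  have f1 := ph_lb; have f2 := ph_ub
  have f3 : ph ^ 2 = ph + 1 := phi_sq
  have o : (1 : ℝ) = 1 ∨ (1 : ℝ) = -1 := Or.inl rfl
  have o' : (-1 : ℝ) = 1 ∨ (-1 : ℝ) = -1 := Or.inr rfl
  have m1 : ∀ r s t : ℝ, (r = 1 ∨ r = -1) → (s = 1 ∨ s = -1) → (t = 1 ∨ t = -1) →
      ![r, s, t] ∈ convexHull ℝ SD :=
    fun r s t hr hs ht => subset_convexHull ℝ SD ⟨r, s, t, hr, hs, ht, Or.inl rfl⟩
  have m3 : ∀ s t : ℝ, (s = 1 ∨ s = -1) → (t = 1 ∨ t = -1) →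
      ![s * (ph - 1), t * ph, 0] ∈ convexHull ℝ SD :=
    fun s t hs ht => subset_convexHull ℝ SD
      ⟨1, s, t, o, hs, ht, Or.inr (Or.inr (Or.inl (by rw [div_ph])))⟩
  have m4 : ∀ s t : ℝ, (s = 1 ∨ s = -1) → (t = 1 ∨ t = -1) →
      ![t * ph, 0, s * (ph - 1)] ∈ convexHull ℝ SD :=
    fun s t hs ht => subset_convexHull ℝ SD
      ⟨1, s, t, o, hs, ht, Or.inr (Or.inr (Or.inr (by rw [div_ph])))⟩
  have mid : ∀ t : ℝ, (t = 1 ∨ t = -1) → ![0, t * ph, 0] ∈ convexHull ℝ SD := by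
    intro t ht
    have := combo hK (m3 1 t o ht) (m3 (-1) t o' ht) (θ := 1 / 2) (by norm_num) (by norm_num)
    convert this using 1
    ext i; fin_cases i <;> simp <;> ring
  have side : ∀ r Y : ℝ, (r = 1 ∨ r = -1) → |Y| ≤ 1 → ![r, Y, -r] ∈ convexHull ℝ SD := by
    intro r Y hr hY
    obtain ⟨q1, q2⟩ := abs_le.1 hY
    have := combo hK (m1 r 1 (-r) hr o (neg_sign hr)) (m1 r (-1) (-r) hr o' (neg_sign hr))
      (θ := (1 + Y) / 2) (by linarith) (by linarith)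
    convert this using 1
    ext i; fin_cases i <;> simp <;> ring
  have hsabs : ∀ s z : ℝ, (s = 1 ∨ s = -1) → 0 ≤ z → z ≤ 1 → |s * z| ≤ 1 := by
    intro s z hs z0 z1
    rcases hs with rfl | rfl <;> rw [abs_le] <;> constructor <;> linarith
  rintro v ⟨r, s, t, hr, hs, ht, rfl | rfl | rfl | rfl⟩
  · have hst : t = s ∨ t = -s := by
      rcases hs with rfl | rfl <;> rcases ht with rfl | rfl <;> simp
    rcases hst with rfl | rfl
    · refine ⟨_, combo hK (m3 r t hr ht) (m1 r t (-r) hr ht (neg_sign hr)) a0 a1, ?_, ?_⟩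
      · simp; linear_combination (-r) * e1
      · simp; linear_combination (-(t * (γ + δ - 1))) * f3
    · refine ⟨_, combo hK (side r _ hr (hsabs s _ hs g0 g1))
        (side (-r) _ (neg_sign hr) (hsabs s _ hs g0 g1)) (θ := (1 + τ) / 2) (by linarith)
        (by linarith), ?_, ?_⟩
      · simp; linear_combination (-r) * e3
      · simp; ring
  · have hab : |(γ * (s * (ph - 1)) + δ * (t * ph)) / ph| ≤ 1 := by
      rw [abs_div, abs_of_pos (show 0 < ph by linarith), div_le_one (by linarith), abs_le]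
      have : 0 ≤ δ * ph := by positivity
      have : 0 ≤ γ * (ph - 1) := mul_nonneg (by linarith) (by linarith)
      rcases hs with rfl | rfl <;> rcases ht with rfl | rfl <;> constructor <;> linarith
    refine ⟨_, seg_mem hK (mid 1 o) (by
      have := mid (-1) o'
      convert this using 1
      ext i; fin_cases i <;> simp) hab, by simp, ?_⟩
    have : ph ≠ 0 := by linarith
    rw [div_ph s]
    simp
    field_simp
  · refine ⟨_, combo hK (m3 s t hs ht) (m1 s t (-s) hs ht (neg_sign hs)) b0 b1, ?_, ?_⟩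
    · rw [div_ph s]; simp; linear_combination (-s) * e2
    · simp; linear_combination (-(t * (γ * ph - 1))) * f3
  · refine ⟨_, combo hK (m4 (-t) t (neg_sign ht) ht) (side t _ ht (hsabs s _ hs y0 y1)) c0 c1,
      ?_, ?_⟩
    · simp; linear_combination (-t) * e4
    · rw [div_ph s]; simp; linear_combination (-s) * e5

theorem lowerI (hneg : ∀ v ∈ SI, -v ∈ SI)
    (hb : ∀ j : Fin 3, ∃ a ∈ SI, ∃ b ∈ SI, a + b = Pi.single j (2 : ℝ)) {c : ℝ} (hc0 : 0 < c)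
    (hc : c < nu) : c ∈ Pass SI := by
  have f1 := ph_lb; have f2 := ph_ub; have k1 := kap_lb; have k2 := kap_ub
  have m1 := phk_lb; have m2 := phk_ub
  have h1 := nu_sq
  have h2 := kap_sq
  have h3 : ph ^ 2 = ph + 1 := phi_sq
  obtain ⟨α, hα⟩ : ∃ α, α = -3 / 5 + 3 / 5 * ph - 9 / 5 * kap + 6 / 5 * (ph * kap) := ⟨_, rfl⟩
  obtain ⟨β, hβ⟩ : ∃ β, β = 13 / 5 - 7 / 5 * ph + 8 / 5 * kap - (ph * kap) := ⟨_, rfl⟩
  obtain ⟨γ, hγ⟩ : ∃ γ, γ = 17 / 45 - 14 / 45 * ph + 2 / 45 * kap + 2 / 15 * (ph * kap) := ⟨_, rfl⟩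
  obtain ⟨δ, hδ⟩ : ∃ δ, δ = -2 / 5 - 44 / 45 * ph + 32 / 45 * kap - 4 / 45 * (ph * kap) := ⟨_, rfl⟩
  have g1 : γ ≤ 0.947 := by linarith
  have d1 : δ ≤ 0.356 := by linarith
  refine lower_gen (α := α) (β := β) (γ := γ) (δ := δ) hneg hb (lt_trans hc0 hc) ?_ ?_
    (containI (by linarith) (by linarith) (by linarith) (by nlinarith) ?_ ?_) hc0 hc
  all_goals
    clear * - h1 h2 h3 hα hβ hγ hδ
    generalize nu ^ 2 = t at *
    generalize kap = k at *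
    generalize ph = p at *
    grind

theorem lowerD (hneg : ∀ v ∈ SD, -v ∈ SD)
    (hb : ∀ j : Fin 3, ∃ a ∈ SD, ∃ b ∈ SD, a + b = Pi.single j (2 : ℝ)) {c : ℝ} (hc0 : 0 < c)
    (hc : c < nu) : c ∈ Pass SD := by
  have f1 := ph_lb; have f2 := ph_ub; have k1 := kap_lb; have k2 := kap_ub
  have m1 := phk_lb; have m2 := phk_ub
  have h1 := nu_sq
  have h2 := kap_sq
  have h3 : ph ^ 2 = ph + 1 := phi_sq
  obtain ⟨α, hα⟩ : ∃ α, α = 8 / 5 - ph + 6 / 5 * kap - 3 / 5 * (ph * kap) := ⟨_, rfl⟩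
  obtain ⟨β, hβ⟩ : ∃ β, β = -4 / 5 + 1 / 5 * ph + 1 / 5 * kap := ⟨_, rfl⟩
  obtain ⟨γ, hγ⟩ : ∃ γ, γ = -7 / 15 + 6 / 5 * ph - 6 / 5 * kap + 2 / 3 * (ph * kap) := ⟨_, rfl⟩
  obtain ⟨δ, hδ⟩ : ∃ δ, δ = 14 / 15 + 4 / 15 * ph - 4 / 15 * kap := ⟨_, rfl⟩
  obtain ⟨τ, hτ⟩ : ∃ τ, τ = -31 / 15 + 2 / 15 * ph - 26 / 15 * kap + 22 / 15 * (ph * kap) := ⟨_, rfl⟩
  obtain ⟨θ, hθ⟩ : ∃ θ, θ = 3 + 6 * ph - 8 / 5 * kap - 4 / 5 * (ph * kap) := ⟨_, rfl⟩
  obtain ⟨y, hy⟩ : ∃ y, y = 4 / 15 - 1 / 5 * ph + 8 / 5 * kap - 13 / 15 * (ph * kap) := ⟨_, rfl⟩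
  have g0 : 0.975 ≤ γ := by linarith
  have g1 : γ ≤ 0.976 := by linarith
  have d0 : 0.266 ≤ δ := by linarith
  have d1 : δ ≤ 0.267 := by linarith
  have p0 : 1.577 ≤ γ * ph := by clear * - g0 f1; nlinarith
  have p1 : γ * ph ≤ 1.58 := by clear * - g1 g0 f2 f1; nlinarith
  have p2 : δ * ph ≤ 0.433 := by clear * - d1 d0 f2 f1; nlinarith
  refine lower_gen (α := α) (β := β) (γ := γ) (δ := δ) hneg hb (lt_trans hc0 hc) ?_ ?_
    (containD (τ := τ) (θ := θ) (y := y) (by linarith) (by linarith) (by linarith) (by linarith)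
      (mul_nonneg (by linarith) (by linarith)) (by linarith)
      (mul_nonneg (by linarith) (by linarith)) (by clear * - p1 p0 f1 f2; nlinarith)
      (by linarith) (by linarith) (by linarith) (by linarith) (by linarith) (by linarith)
      ?_ ?_ ?_ ?_ ?_) hc0 hc
  all_goals
    clear * - h1 h2 h3 hα hβ hγ hδ hτ hθ hy
    generalize nu ^ 2 = t at *
    generalize kap = k at *
    generalize ph = p at *
    grind

end Pool.Agent.Lib.MP_5fb7d4_co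
end
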