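import Pool.Agent.Lib.MP_5fb7d4_co.Upper
import Pool.Agent.Lib.MP_5fb7d4_co.Lower

set_option autoImplicit false

namespace Pool.Agent.Lib.MP_5fb7d4_co

theorem hVI : ∀ v, v ∈ SI ↔ ∃ z ∈ VI, z.val = v := by
  intro v
  constructor
  · rintro ⟨s, t, rfl | rfl, rfl | rfl, rfl | rfl | rfl⟩ <;> simp [VI, Z3.val, Zp.val]
  · rintro ⟨z, hz, rfl⟩
    simp only [VI, List.mem_cons, List.not_mem_nil, or_false] at hz
    rcases hz with rfl | rfl | rfl | rfl | rfl | rfl | rfl | rfl | rfl | rfl | rfl | rfl <;>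
      simp [SI, Z3.val, Zp.val]

theorem hVD : ∀ v, v ∈ SD ↔ ∃ z ∈ VD, z.val = v := by
  intro v
  have e1 : (1 : ℝ) / Real.goldenRatio = -1 + Real.goldenRatio := by rw [div_ph]; ring
  have e2 : (-1 : ℝ) / Real.goldenRatio = 1 + -Real.goldenRatio := by rw [div_ph]; ring
  constructor
  · rintro ⟨r, s, t, rfl | rfl, rfl | rfl, rfl | rfl, rfl | rfl | rfl | rfl⟩ <;>
      (try simp only [e1, e2]) <;> simp [VD, Z3.val, Zp.val]
  · rintro ⟨z, hz, rfl⟩
    simp only [VD, List.mem_cons, List.not_mem_nil, or_false] at hz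
    simp only [SD, Set.mem_ofPred_eq, exists_and_left, exists_eq_or_imp, exists_eq_left, e1, e2]
    rcases hz with rfl | rfl | rfl | rfl | rfl | rfl | rfl | rfl | rfl | rfl | rfl | rfl | rfl |
      rfl | rfl | rfl | rfl | rfl | rfl | rfl <;>
      simp [Z3.val, Zp.val]

theorem sSup_eq {V : Set V3} (hu : ∀ c ∈ Pass V, c ≤ nu) (hl : ∀ c, 0 < c → c < nu → c ∈ Pass V) :
    sSup (Pass V) = nu := by
  have h1 := nu_lb
  refine csSup_eq_of_forall_le_of_forall_lt_exists_gt ⟨1, hl 1 one_pos (by linarith)⟩ hu ?_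
  intro w hw
  obtain ⟨c, hc1, hc2⟩ := exists_between (max_lt hw (show (0 : ℝ) < nu by linarith))
  exact ⟨c, hl c (lt_of_le_of_lt (le_max_right _ _) hc1) hc2, lt_of_le_of_lt (le_max_left _ _) hc1⟩

theorem sSup_I : sSup (Pass SI) = nu := by
  obtain ⟨-, hneg, hb, -⟩ := baseOK_sound hVI baseI
  exact sSup_eq (fun c hc => upperI hVI hc) fun c h0 h1 => lowerI hneg hb h0 h1

theorem sSup_D : sSup (Pass SD) = nu := by
  obtain ⟨-, hneg, hb, -⟩ := baseOK_sound hVD baseD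
  exact sSup_eq (fun c hc => upperD hVD hc) fun c h0 h1 => lowerD hneg hb h0 h1

end Pool.Agent.Lib.MP_5fb7d4_co
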