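import Pool.Agent.Lib.MP_5fb7d4_co.CertI0
import Pool.Agent.Lib.MP_5fb7d4_co.CertI1
import Pool.Agent.Lib.MP_5fb7d4_co.CertI2
import Pool.Agent.Lib.MP_5fb7d4_co.CertD0
import Pool.Agent.Lib.MP_5fb7d4_co.CertD1

set_option autoImplicit false

namespace Pool.Agent.Lib.MP_5fb7d4_co

open Matrix

def ex2 : Z3 := ⟨⟨2, 0⟩, ⟨0, 0⟩, ⟨0, 0⟩⟩
def ey2 : Z3 := ⟨⟨0, 0⟩, ⟨2, 0⟩, ⟨0, 0⟩⟩
def ez2 : Z3 := ⟨⟨0, 0⟩, ⟨0, 0⟩, ⟨2, 0⟩⟩

theorem ex2_val : ex2.val = ![2, 0, 0] := by simp [ex2, Z3.val, Zp.val]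
theorem ey2_val : ey2.val = ![0, 2, 0] := by simp [ey2, Z3.val, Zp.val]
theorem ez2_val : ez2.val = ![0, 0, 2] := by simp [ez2, Z3.val, Zp.val]

def baseOK (Vl : List Z3) : Bool :=
  (Vl.all fun z => decide (Z3.sm (-1) z ∈ Vl)) &&
  (Vl.any fun a => Vl.any fun b => decide (a.sub (Z3.sm (-1) b) = ex2)) &&
  (Vl.any fun a => Vl.any fun b => decide (a.sub (Z3.sm (-1) b) = ey2)) &&
  (Vl.any fun a => Vl.any fun b => decide (a.sub (Z3.sm (-1) b) = ez2)) &&
  mirOK Vl ex2 && mirOK Vl ey2 && mirOK Vl ez2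

theorem baseOK_sound {Vl : List Z3} {V : Set V3} (hV : ∀ v, v ∈ V ↔ ∃ z ∈ Vl, z.val = v)
    (h : baseOK Vl = true) : V.Finite ∧ (∀ v ∈ V, -v ∈ V) ∧
      (∀ j : Fin 3, ∃ a ∈ V, ∃ b ∈ V, a + b = Pi.single j (2 : ℝ)) ∧
      Mirror V ![2, 0, 0] ∧ Mirror V ![0, 2, 0] ∧ Mirror V ![0, 0, 2] := by
  simp only [baseOK, Bool.and_eq_true, List.all_eq_true, List.any_eq_true, decide_eq_true_eq] at h
  obtain ⟨⟨⟨⟨⟨⟨h1, h2⟩, h3⟩, h4⟩, h5⟩, h6⟩, h7⟩ := h
  have key : ∀ e : Z3, (∃ a ∈ Vl, ∃ b ∈ Vl, a.sub (Z3.sm (-1) b) = e) →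
      ∃ a ∈ V, ∃ b ∈ V, a + b = e.val := by
    rintro e ⟨a, ha, b, hb, rfl⟩
    refine ⟨a.val, (hV _).2 ⟨a, ha, rfl⟩, b.val, (hV _).2 ⟨b, hb, rfl⟩, ?_⟩
    rw [Z3.val_sub, Z3.val_sm]; simp
  refine ⟨?_, ?_, ?_, ?_, ?_, ?_⟩
  · refine ((List.finite_toSet Vl).image Z3.val).subset fun v hv => ?_
    obtain ⟨z, hz, rfl⟩ := (hV v).1 hv
    exact ⟨z, hz, rfl⟩
  · intro v hv
    obtain ⟨z, hz, rfl⟩ := (hV v).1 hv
    refine (hV _).2 ⟨_, h1 z hz, ?_⟩
    rw [Z3.val_sm]; simp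
  · intro j
    fin_cases j
    · obtain ⟨a, ha, b, hb, e⟩ := key _ h2
      refine ⟨a, ha, b, hb, ?_⟩
      rw [e, ex2_val]; ext i; fin_cases i <;> simp
    · obtain ⟨a, ha, b, hb, e⟩ := key _ h3
      refine ⟨a, ha, b, hb, ?_⟩
      rw [e, ey2_val]; ext i; fin_cases i <;> simp
    · obtain ⟨a, ha, b, hb, e⟩ := key _ h4
      refine ⟨a, ha, b, hb, ?_⟩
      rw [e, ez2_val]; ext i; fin_cases i <;> simp
  · rw [← ex2_val]; exact mirOK_sound hV h5
  · rw [← ey2_val]; exact mirOK_sound hV h6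
  · rw [← ez2_val]; exact mirOK_sound hV h7

theorem baseI : baseOK VI = true := by decide +kernel
theorem baseD : baseOK VD = true := by decide +kernel

def rhoI3 : Z3 := ⟨⟨0, -1⟩, ⟨-1, 0⟩, ⟨-1, 1⟩⟩
def rhoD3 : Z3 := ⟨⟨-1, 0⟩, ⟨0, -1⟩, ⟨-1, 1⟩⟩

theorem val_mk (a b : Int) : Zp.val ⟨a, b⟩ = a + b * ph := rfl

theorem hlocI {V : Set V3} (hV : ∀ v, v ∈ V ↔ ∃ z ∈ VI, z.val = v) {c : ℝ} (hc : nu < c)
    {u x : V3} (hC : CondX V c u x) {b1 b2 b3 : ℝ} (p1 : 0 ≤ b1) (p2 : 0 ≤ b2) (p3 : 0 ≤ b3)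
    (hu : u = b1 • UI0a.val + b2 • UI0b.val + b3 • UI0c.val) :
    ∀ L ∈ locSI, ¬ ∀ s ∈ L, 0 < s.form u x := by
  have f1 := ph_lb; have f2 := ph_ub
  have s0 := (sil_comb hV (U1 := UI0a) (U2 := UI0b) (U3 := UI0c) (e := (halfI00.a, halfI00.d))
    (by decide +kernel) (by decide +kernel) (by decide +kernel) p1 p2 p3).2
  have s1 := (sil_comb hV (U1 := UI0a) (U2 := UI0b) (U3 := UI0c) (e := (halfI01.a, halfI01.d))
    (by decide +kernel) (by decide +kernel) (by decide +kernel) p1 p2 p3).2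
  rw [← hu] at s0 s1
  intro L hL hall
  simp only [locSI, List.mem_cons, List.not_mem_nil, or_false] at hL
  rcases hL with rfl | rfl
  · obtain ⟨s, t, p1, q1, r1, p2, q2, r2, n1, n2, g, w1, w1', w2, w2', a1, a2, a3, a4, a5, a6⟩ :=
      pair_scalars hV (l := ⟨-1, 1⟩) (H := halfI00) (K := halfI01) (by decide +kernel)
        (by decide +kernel) (by norm_num) hC s0 s1 hall
    simp only [halfI00, halfI01, Z3.dot, Zp.add, Zp.mul, val_mk] at g w1 w1' w2 w2'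
    push_cast at g w1 w1' w2 w2' a5 a6
    refine locI (g13 := -1 / 2) (g23 := -(ph - 1) / 2) (g31 := -1 / 2) (g32 := -(ph - 1) / 2)
      (g33 := -ph / 2) (by norm_num [abs_le]) (abs_le.2 ⟨by linarith, by linarith⟩)
      (by norm_num [abs_le]) (abs_le.2 ⟨by linarith, by linarith⟩)
      (abs_le.2 ⟨by linarith, by linarith⟩) hc n1 n2 (by linarith) (by linarith) (by linarith)
      (by linarith) (by linarith) a1 a2 a3 a4 (by linarith) (by linarith)
  · obtain ⟨s, t, p1, q1, r1, p2, q2, r2, n1, n2, g, w1, w1', w2, w2', a1, a2, a3, a4, a5, a6⟩ :=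
      pair_scalars hV (l := ⟨-1, 1⟩) (H := halfI10) (K := halfI11) (by decide +kernel)
        (by decide +kernel) (by norm_num) hC s0 s1 hall
    simp only [halfI10, halfI11, Z3.dot, Zp.add, Zp.mul, val_mk] at g w1 w1' w2 w2'
    push_cast at g w1 w1' w2 w2' a5 a6
    refine locI (g13 := 1 / 2) (g23 := (ph - 1) / 2) (g31 := 1 / 2) (g32 := (ph - 1) / 2)
      (g33 := -ph / 2) (by norm_num [abs_le]) (abs_le.2 ⟨by linarith, by linarith⟩)
      (by norm_num [abs_le]) (abs_le.2 ⟨by linarith, by linarith⟩)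
      (abs_le.2 ⟨by linarith, by linarith⟩) hc n1 n2 (by linarith) (by linarith) (by linarith)
      (by linarith) (by linarith) a1 a2 a3 a4 (by linarith) (by linarith)

theorem hlocD {V : Set V3} (hV : ∀ v, v ∈ V ↔ ∃ z ∈ VD, z.val = v) {c : ℝ} (hc : nu < c)
    {u x : V3} (hC : CondX V c u x) {b1 b2 b3 : ℝ} (p1 : 0 ≤ b1) (p2 : 0 ≤ b2) (p3 : 0 ≤ b3)
    (hu : u = b1 • UD1a.val + b2 • UD1b.val + b3 • UD1c.val) :
    ∀ L ∈ locSD, ¬ ∀ s ∈ L, 0 < s.form u x := by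
  have f1 := ph_lb; have f2 := ph_ub
  have s0 := (sil_comb hV (U1 := UD1a) (U2 := UD1b) (U3 := UD1c) (e := (halfD00.a, halfD00.d))
    (by decide +kernel) (by decide +kernel) (by decide +kernel) p1 p2 p3).2
  have s1 := (sil_comb hV (U1 := UD1a) (U2 := UD1b) (U3 := UD1c) (e := (halfD01.a, halfD01.d))
    (by decide +kernel) (by decide +kernel) (by decide +kernel) p1 p2 p3).2
  rw [← hu] at s0 s1
  intro L hL hall
  simp only [locSD, List.mem_cons, List.not_mem_nil, or_false] at hL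
  rcases hL with rfl | rfl
  · obtain ⟨s, t, p1, q1, r1, p2, q2, r2, n1, n2, g, w1, w1', w2, w2', a1, a2, a3, a4, a5, a6⟩ :=
      pair_scalars hV (l := ⟨2, -1⟩) (H := halfD00) (K := halfD01) (by decide +kernel)
        (by decide +kernel) (by norm_num) hC s0 s1 hall
    simp only [halfD00, halfD01, Z3.dot, Zp.add, Zp.mul, val_mk] at g w1 w1' w2 w2'
    push_cast at g w1 w1' w2 w2' a5 a6
    refine locD (g13 := -(ph - 1) / 2) (g23 := -1 / 2) (g31 := -(ph - 1) / 2) (g32 := -1 / 2)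
      (g33 := -ph / 2) (abs_le.2 ⟨by linarith, by linarith⟩) (by norm_num [abs_le])
      (abs_le.2 ⟨by linarith, by linarith⟩) (by norm_num [abs_le])
      (abs_le.2 ⟨by linarith, by linarith⟩) hc n1 n2 (by linarith) (by linarith) (by linarith)
      (by linarith) (by linarith) a1 a2 a3 a4 (by linarith) (by linarith)
  · obtain ⟨s, t, p1, q1, r1, p2, q2, r2, n1, n2, g, w1, w1', w2, w2', a1, a2, a3, a4, a5, a6⟩ :=
      pair_scalars hV (l := ⟨2, -1⟩) (H := halfD10) (K := halfD11) (by decide +kernel)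
        (by decide +kernel) (by norm_num) hC s0 s1 hall
    simp only [halfD10, halfD11, Z3.dot, Zp.add, Zp.mul, val_mk] at g w1 w1' w2 w2'
    push_cast at g w1 w1' w2 w2' a5 a6
    refine locD (g13 := (ph - 1) / 2) (g23 := 1 / 2) (g31 := (ph - 1) / 2) (g32 := 1 / 2)
      (g33 := -ph / 2) (abs_le.2 ⟨by linarith, by linarith⟩) (by norm_num [abs_le])
      (abs_le.2 ⟨by linarith, by linarith⟩) (by norm_num [abs_le])
      (abs_le.2 ⟨by linarith, by linarith⟩) hc n1 n2 (by linarith) (by linarith) (by linarith)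
      (by linarith) (by linarith) a1 a2 a3 a4 (by linarith) (by linarith)

theorem upperI {V : Set V3} (hV : ∀ v, v ∈ V ↔ ∃ z ∈ VI, z.val = v) {c : ℝ} (hc : c ∈ Pass V) :
    c ≤ nu := by
  by_contra hlt
  push Not at hlt
  have f1 := ph_lb; have f2 := ph_ub
  have f3 : ph ^ 2 = ph + 1 := phi_sq
  obtain ⟨hfin, hneg, hb, m0, m1, m2⟩ := baseOK_sound hV baseI
  obtain ⟨u, x, hu0, hρ, hC, hD⟩ := reduce hfin hneg hb m0 m1 m2 ![1, 1, 10] hc
  have hx := hD.box m0 m1 m2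
  have hcc : ((2527 : Int) : ℝ) ≤ c * ((2500 : Int) : ℝ) := by
    have := nu_lb
    push_cast; linarith
  have u0 := hρ _ m0 (by simp [dotProduct, Fin.sum_univ_three])
  have u1 := hρ _ m1 (by simp [dotProduct, Fin.sum_univ_three])
  have u2 := hρ _ (mirOK_sound hV (ρ := rhoI3) (by decide +kernel))
    (by simp [dotProduct, Fin.sum_univ_three, rhoI3, Z3.val, val_mk]; linarith)
  simp [dotProduct, Fin.sum_univ_three, rhoI3, Z3.val, val_mk] at u0 u1 u2
  have u3 : 0 ≤ u 2 - (ph + 1) * u 0 - ph * u 1 := by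
    have : u 2 - (ph + 1) * u 0 - ph * u 1 = ph * ((-1 + ph) * u 2 - ph * u 0 - u 1) := by
      linear_combination (u 0 - u 2) * f3
    rw [this]; exact mul_nonneg (by linarith) (by linarith)
  rcases le_total ((2 - ph) * u 1) (u 0) with h1 | h1
  · have hu : u = ((u 2 - (ph + 1) * u 0 - ph * u 1) / 3) • UI0a.val
        + (u 0 - (2 - ph) * u 1) • UI0b.val + (u 1) • UI0c.val := by
      ext i
      fin_cases i <;> simp [UI0a, UI0b, UI0c, Z3.val, val_mk] <;> grind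
    exact top_sound hV silI0 pairsI_ok checkI0 (by linarith) (by linarith) u1 hu0 hu (by norm_num)
      (by norm_num) hcc hC hD hx (hlocI hV hlt hC (by linarith) (by linarith) u1 hu)
  · have h1' : 0 ≤ u 1 - (ph + 1) * u 0 := by
      have : u 1 - (ph + 1) * u 0 = (ph + 1) * ((2 - ph) * u 1 - u 0) := by
        linear_combination (u 1) * f3
      rw [this]; exact mul_nonneg (by linarith) (by linarith)
    have h0' : 0 ≤ (ph + 1) * u 0 := mul_nonneg (by linarith) u0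
    rcases le_total ((ph + 1) * u 1) (u 2) with h2 | h2
    · have hu : u = ((u 2 - (ph + 1) * u 1) / 3) • UI1a.val
          + (u 1 - (ph + 1) * u 0) • UI1b.val + ((ph + 1) * u 0) • UI1c.val := by
        ext i
        fin_cases i <;> simp [UI1a, UI1b, UI1c, Z3.val, val_mk] <;> grind
      exact top_sound hV silI1 pairsI_ok checkI1 (by linarith) h1' h0' hu0 hu (by norm_num)
        (by norm_num) hcc hC hD hx (by simp)
    · have hu : u = (u 2 - (ph + 1) * u 0 - ph * u 1) • UI2a.val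
          + ((ph - 1) * ((ph + 1) * u 1 - u 2)) • UI2b.val + ((ph + 1) * u 0) • UI2c.val := by
        ext i
        fin_cases i <;> simp [UI2a, UI2b, UI2c, Z3.val, val_mk] <;> grind
      exact top_sound hV silI2 pairsI_ok checkI2 u3 (mul_nonneg (by linarith) (by linarith)) h0'
        hu0 hu (by norm_num) (by norm_num) hcc hC hD hx (by simp)

theorem upperD {V : Set V3} (hV : ∀ v, v ∈ V ↔ ∃ z ∈ VD, z.val = v) {c : ℝ} (hc : c ∈ Pass V) :
    c ≤ nu := by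
  by_contra hlt
  push Not at hlt
  have f1 := ph_lb; have f2 := ph_ub
  have f3 : ph ^ 2 = ph + 1 := phi_sq
  obtain ⟨hfin, hneg, hb, m0, m1, m2⟩ := baseOK_sound hV baseD
  obtain ⟨u, x, hu0, hρ, hC, hD⟩ := reduce hfin hneg hb m0 m1 m2 ![1, 1, 10] hc
  have hx := hD.box m0 m1 m2
  have hcc : ((2527 : Int) : ℝ) ≤ c * ((2500 : Int) : ℝ) := by
    have := nu_lb
    push_cast; linarith
  have u0 := hρ _ m0 (by simp [dotProduct, Fin.sum_univ_three])
  have u1 := hρ _ m1 (by simp [dotProduct, Fin.sum_univ_three])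
  have u2 := hρ _ (mirOK_sound hV (ρ := rhoD3) (by decide +kernel))
    (by simp [dotProduct, Fin.sum_univ_three, rhoD3, Z3.val, val_mk]; linarith)
  simp [dotProduct, Fin.sum_univ_three, rhoD3, Z3.val, val_mk] at u0 u1 u2
  have u3 : 0 ≤ u 2 - ph * u 0 - (ph + 1) * u 1 := by
    have : u 2 - ph * u 0 - (ph + 1) * u 1 = ph * ((-1 + ph) * u 2 - u 0 - ph * u 1) := by
      linear_combination (u 1 - u 2) * f3
    rw [this]; exact mul_nonneg (by linarith) (by linarith)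
  rcases le_total (ph * u 0) (u 1) with h1 | h1
  · have hu : u = ((u 2 - ph * u 0 - (ph + 1) * u 1) / 2) • UD0a.val
        + (u 1 - ph * u 0) • UD0b.val + ((ph + 1) * u 0) • UD0c.val := by
      ext i
      fin_cases i <;> simp [UD0a, UD0b, UD0c, Z3.val, val_mk] <;> grind
    exact top_sound hV silD0 pairsD_ok checkD0 (by linarith) (by linarith)
      (mul_nonneg (by linarith) u0) hu0 hu (by norm_num) (by norm_num) hcc hC hD hx (by simp)
  · have hu : u = ((u 2 - ph * u 0 - (ph + 1) * u 1) / 2) • UD1a.val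
        + ((ph - 1) * (ph * u 0 - u 1)) • UD1b.val + (ph * u 1) • UD1c.val := by
      ext i
      fin_cases i <;> simp [UD1a, UD1b, UD1c, Z3.val, val_mk] <;> grind
    have p2 : 0 ≤ (ph - 1) * (ph * u 0 - u 1) := mul_nonneg (by linarith) (by linarith)
    have p3 : 0 ≤ ph * u 1 := mul_nonneg (by linarith) u1
    exact top_sound hV silD1 pairsD_ok checkD1 (by linarith) p2 p3 hu0 hu (by norm_num)
      (by norm_num) hcc hC hD hx (hlocD hV hlt hC (by linarith) p2 p3 hu)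

end Pool.Agent.Lib.MP_5fb7d4_co
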